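import Pool.Agent.W278.EM.Stms

set_option autoImplicit false
open MeasureTheory Finset
open scoped ComplexConjugate

namespace Pool.Agent.W278.EM

open Pool.Agent.Helper873.OneVar Pool.Agent.Helper873.Product Pool.Agent.Helper873.Monomial
  Pool.Agent.Helper873.Alg Pool.Agent.Helper873.NT Pool.Agent.Helper873.Embed

lemma two_le_pr (k : ℕ) : 2 ≤ pr k := two_le_p k

lemma pr_pos (k : ℕ) : 0 < pr k := by have := two_le_pr k; linarith

lemma nn_mono : Monotone nn := by
  intro a b h
  unfold nn NN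
  refine Nat.monotone_primeCounting' (Nat.floor_mono (Real.exp_le_exp.2 ?_))
  exact_mod_cast Nat.pow_le_pow_right (by norm_num) h

lemma continuous_zz : Continuous zz := continuous_pi fun k => continuous_zet.comp (continuous_apply k)

lemma norm_zz (z : TT) (k : ℕ) : ‖zz z k‖ = 1 := norm_zet _

lemma zz_congr {n : ℕ} {z z' : TT} (h : ∀ k < n, z k = z' k) : ∀ k < n, zz z k = zz z' k :=
  fun k hk => by unfold zz; rw [h k hk]

lemma norm_vs (s : ℂ) (k : ℕ) : ‖vs s k‖ = pr k ^ (-s.re) := by
  unfold vs pr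
  rw [Complex.norm_natCast_cpow_of_pos (Nat.prime_nth_prime k).pos]
  simp

lemma norm_vs_lt (s : ℂ) (hs : 0 < s.re) (k : ℕ) : ‖vs s k‖ < 1 := by
  rw [norm_vs]
  exact Real.rpow_lt_one_of_one_lt_of_neg (by have := two_le_pr k; linarith) (by linarith)

lemma pt_re (l : ℕ) (x t : ℝ) : (pt l x t).re = 1 / 2 + x / 2 ^ l := by
  unfold pt
  rw [Complex.add_re, Complex.ofReal_re, Complex.mul_re, Complex.I_re, Complex.I_im,
    Complex.ofReal_im]
  ring

lemma pt_re_pos (l : ℕ) (x t : ℝ) (hx : -(1 / 4) ≤ x) : 0 < (pt l x t).re := by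
  rw [pt_re]
  have h1 : (1 : ℝ) ≤ 2 ^ l := one_le_pow₀ (by norm_num)
  have h2 : -(1 / 4) ≤ x / 2 ^ l := by
    rw [le_div_iff₀ (by positivity)]; nlinarith
  linarith

lemma continuous_kc (n : ℕ) (v : ℕ → ℂ) (hv : ∀ k, ‖v k‖ < 1) : Continuous (kc n v) := by
  unfold kc
  refine continuous_finsetProd _ fun k _ => Continuous.inv₀ ?_ ?_
  · exact continuous_const.sub (continuous_const.mul
      (Complex.continuous_conj.comp (continuous_zet.comp (continuous_apply k))))
  · intro z h
    have h1 : ‖v k * conj (zet (z k))‖ = 1 := by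
      have : v k * conj (zet (z k)) = 1 := by linear_combination -h
      rw [this]; simp
    rw [norm_mul, RCLike.norm_conj, norm_zet, mul_one] at h1
    exact absurd h1 (hv k).ne

lemma dep_kc {n : ℕ} (v : ℕ → ℂ) {z z' : TT} (h : ∀ k < n, z k = z' k) : kc n v z = kc n v z' := by
  unfold kc
  exact Finset.prod_congr rfl fun k hk => by rw [h k (mem_range.1 hk)]

lemma continuous_gb (b : ℝ) (m : ℕ) (τ : ℝ) : Continuous (gb b m τ) := by
  unfold gb
  fun_prop

lemma gb_ne_zero (b : ℝ) (m : ℕ) (τ : ℝ) (w : ℕ → ℂ) : gb b m τ w ≠ 0 := Complex.exp_ne_zero _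

lemma dep_gb (b : ℝ) {m l : ℕ} (τ : ℝ) (h : m ≤ l) : DepC (nn l) (gb b m τ) := by
  intro w w' hw
  unfold gb
  have : ∑ k ∈ range (nn m), conj (vs (pt 0 0 τ) k) * w k =
      ∑ k ∈ range (nn m), conj (vs (pt 0 0 τ) k) * w' k :=
    Finset.sum_congr rfl fun k hk => by
      rw [hw k (lt_of_lt_of_le (mem_range.1 hk) (nn_mono h))]
  rw [this]

lemma entire_gb (b : ℝ) (m : ℕ) (τ : ℝ) (w : ℕ → ℂ) (i : ℕ) :
    Differentiable ℂ fun u => gb b m τ (Function.update w i u) := by
  unfold gb
  have h : ∀ k, Differentiable ℂ fun u : ℂ => Function.update w i u k := by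
    intro k
    by_cases hk : k = i
    · subst hk; simp only [Function.update_self]; exact differentiable_id
    · simp only [Function.update_of_ne hk]; exact differentiable_const _
  refine Differentiable.cexp ?_
  refine (differentiable_const _).mul (Differentiable.sub ?_ (differentiable_const _))
  exact Differentiable.fun_sum fun k _ => (differentiable_const _).mul (h k)

lemma entire_poly (c : ℕ →₀ ℂ) (w : ℕ → ℂ) (i : ℕ) :
    Differentiable ℂ fun u => poly c (Function.update w i u) := by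
  obtain ⟨g, hg⟩ := poly_var c w i
  simp_rw [hg]
  exact g.differentiable

lemma integrable_of_cont {E : Type*} [NormedAddCommGroup E] {f : TT → E} (hf : Continuous f) :
    Integrable f tor :=
  hf.integrable_of_hasCompactSupport (HasCompactSupport.of_compactSpace f)

/-- reproducing formula with a bump -/
lemma repro (hRep : SRep) (c : ℕ →₀ ℂ) (l m : ℕ) (b τ : ℝ) (hm : m ≤ l) (hc : DepC (nn l) (poly c))
    (s : ℂ) (hs : 0 < s.re) :
    poly c (vs s) = ∫ z, poly c (zz z) *
      (kc (nn l) (vs s) z * gb b m τ (zz z) / gb b m τ (vs s)) ∂tor := by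
  have h := hRep (nn l) (fun w => poly c w * gb b m τ w)
    ((continuous_poly c).mul (continuous_gb b m τ))
    (fun w w' hw => by
      change poly c w * gb b m τ w = poly c w' * gb b m τ w'
      rw [hc w w' hw, dep_gb b τ hm w w' hw])
    (fun w i => (entire_poly c w i).mul (entire_gb b m τ w i)) (vs s) (norm_vs_lt s hs)
  have h2 : ∀ z : TT, poly c (zz z) * (kc (nn l) (vs s) z * gb b m τ (zz z) / gb b m τ (vs s)) =
      (gb b m τ (vs s))⁻¹ * (poly c (zz z) * gb b m τ (zz z) * kc (nn l) (vs s) z) := by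
    intro z
    rw [div_eq_mul_inv]
    ring
  simp_rw [h2]
  rw [integral_const_mul, h]
  have := gb_ne_zero b m τ (vs s)
  field_simp

end Pool.Agent.W278.EM
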