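import Pool.Agent.W278.EM.Basic

set_option autoImplicit false
open MeasureTheory Finset
open scoped ComplexConjugate

namespace Pool.Agent.W278.EM

open Pool.Agent.Helper873.OneVar Pool.Agent.Helper873.Product Pool.Agent.Helper873.Monomial
  Pool.Agent.Helper873.Alg Pool.Agent.Helper873.NT Pool.Agent.Helper873.Embed

theorem sexp_of (hA : SExpA) (hO : SOrth) : SExp := by
  intro c l
  obtain ⟨T, B, h1, h2, h3⟩ := hA c l
  refine ⟨T, B, h1, h2, h3, ?_⟩
  intro W hW hWd
  have hdep : DepC (nn l) (fun w => poly c (tr (nn l) w)) := by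
    intro w w' hw
    have : tr (nn l) w = tr (nn l) w' := by
      funext k
      unfold tr
      by_cases hk : k < nn l
      · simp [hk, hw k hk]
      · simp [hk]
    change poly c (tr (nn l) w) = poly c (tr (nn l) w')
    rw [this]
  have hcont : Continuous fun w => poly c (tr (nn l) w) := by
    refine (continuous_poly c).comp (continuous_pi fun k => ?_)
    unfold tr
    by_cases hk : k < nn l
    · simp only [hk, if_true]; exact continuous_apply k
    · simp only [hk, if_false]; exact continuous_const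
  have h4 := hO l T (fun w => poly c (tr (nn l) w)) (fun n => poly (B n)) W h1 hcont hdep
    (fun n hn => ⟨continuous_poly _, h2 n hn⟩) hW hWd
  rw [← h4]
  refine integral_congr_ae (Filter.Eventually.of_forall fun z => ?_)
  have h5 := h3 (zz z)
  unfold dl at h5
  have h6 : poly c (tr (nn (l + 1)) (zz z)) =
      poly c (tr (nn l) (zz z)) + ∑ n ∈ T, poly (B n) (zz z) * mon n (zz z) := by
    rw [← h5]; ring
  simp only [h6]

lemma sum_mul_sq {ι : Type*} (T : Finset ι) (a b : ι → ℂ) :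
    ‖∑ n ∈ T, a n * b n‖ ≤ Real.sqrt (∑ n ∈ T, ‖a n‖ ^ 2) * Real.sqrt (∑ n ∈ T, ‖b n‖ ^ 2) := by
  refine (norm_sum_le _ _).trans ?_
  simp_rw [norm_mul]
  rw [← Real.sqrt_mul (Finset.sum_nonneg fun _ _ => by positivity)]
  refine Real.le_sqrt_of_sq_le ?_
  exact Finset.sum_mul_sq_le_sq_mul_sq T _ _

lemma mon_vs_of_block {l n : ℕ} (h : InBlock l n) (s : ℂ) : mon n (vs s) = (n : ℂ) ^ (-s) :=
  mon_vs n (by have := h.1; omega) s

/-- the estimate of one block by duality -/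
lemma block_bound (hLS : SLS) (hRep : SRep) : ∃ C : ℝ, 0 < C ∧
    ∀ (c : ℕ →₀ ℂ) (l : ℕ) (T : Finset ℕ) (B : ℕ → (ℕ →₀ ℂ)), 3 ≤ l →
    (∀ n ∈ T, InBlock l n) → (∀ n ∈ T, DepC (nn l) (poly (B n))) →
    (∀ w, dl c l w = ∑ n ∈ T, poly (B n) w * mon n w) →
    ∀ (b x θ : ℝ) (β : ℕ → ℂ) (S : ℕ → ℕ × ℕ), -(1 / 4) ≤ x → (∀ j, β j ≠ 0 → (S j).1 ≤ l) →
    ‖∑ j ∈ range (2 ^ l + 1), ((1 / 2 ^ l : ℝ) : ℂ) * β j * dl c l (vs (pt l x (θ + (j : ℝ) / 2 ^ l)))‖ ≤
      ∫ z, Real.sqrt (∑ n ∈ T, ‖poly (B n) (zz z)‖ ^ 2) *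
        Real.sqrt (∑ j ∈ range (2 ^ l + 1), C * Real.exp (-x) * (1 / 2 ^ l) ^ 2 * ‖β j‖ ^ 2 *
          (‖kc (nn l) (vs (pt l x (θ + (j : ℝ) / 2 ^ l))) z‖ ^ 2 *
          (‖gb b (S j).1 ((S j).2 / 2 ^ (S j).1) (zz z)‖ ^ 2 /
          ‖gb b (S j).1 ((S j).2 / 2 ^ (S j).1) (vs (pt l x (θ + (j : ℝ) / 2 ^ l)))‖ ^ 2))) ∂tor := by
  obtain ⟨C, hC, hls⟩ := hLS
  refine ⟨C, hC, ?_⟩
  intro c l T B hl h1 h2 h3 b x θ β S hx hS
  set s : ℕ → ℂ := fun j => pt l x (θ + (j : ℝ) / 2 ^ l) with hs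
  have hsre : ∀ j, 0 < (s j).re := fun j => pt_re_pos _ _ _ hx
  set X : ℕ → TT → ℂ := fun j z => kc (nn l) (vs (s j)) z *
    gb b (S j).1 ((S j).2 / 2 ^ (S j).1) (zz z) / gb b (S j).1 ((S j).2 / 2 ^ (S j).1) (vs (s j))
    with hX
  have hXc : ∀ j, Continuous (X j) := fun j =>
    ((continuous_kc _ _ (norm_vs_lt _ (hsre j))).mul
      ((continuous_gb _ _ _).comp continuous_zz)).div_const _
  have hpc : ∀ n, Continuous fun z : TT => poly (B n) (zz z) := fun n =>
    (continuous_poly _).comp continuous_zz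
  have hterm : ∀ j n, Continuous fun z : TT => poly (B n) (zz z) *
      ((((1 / 2 ^ l : ℝ) : ℂ) * β j * X j z) * (n : ℂ) ^ (-(s j))) := fun j n =>
    (hpc n).mul ((continuous_const.mul (hXc j)).mul continuous_const)
  -- representation of the sum
  have key : ∑ j ∈ range (2 ^ l + 1), ((1 / 2 ^ l : ℝ) : ℂ) * β j * dl c l (vs (s j)) =
      ∫ z, ∑ n ∈ T, poly (B n) (zz z) *
        ∑ j ∈ range (2 ^ l + 1), (((1 / 2 ^ l : ℝ) : ℂ) * β j * X j z) * (n : ℂ) ^ (-(s j)) ∂tor := by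
    have e1 : ∀ j, ((1 / 2 ^ l : ℝ) : ℂ) * β j * dl c l (vs (s j)) =
        ∫ z, ∑ n ∈ T, poly (B n) (zz z) *
          ((((1 / 2 ^ l : ℝ) : ℂ) * β j * X j z) * (n : ℂ) ^ (-(s j))) ∂tor := by
      intro j
      by_cases hβ : β j = 0
      · simp [hβ]
      · rw [integral_finsetSum _ fun n _ => integrable_of_cont (hterm j n), h3, Finset.mul_sum]
        refine Finset.sum_congr rfl fun n hn => ?_
        rw [repro hRep (B n) l (S j).1 b ((S j).2 / 2 ^ (S j).1) (hS j hβ) (h2 n hn) (s j) (hsre j),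
          mon_vs_of_block (h1 n hn), ← integral_mul_const, ← integral_const_mul]
        refine integral_congr_ae (Filter.Eventually.of_forall fun z => ?_)
        simp only [hX]
        ring
    simp_rw [e1]
    rw [← integral_finsetSum (range (2 ^ l + 1)) (f := fun j z => ∑ n ∈ T, poly (B n) (zz z) *
          ((((1 / 2 ^ l : ℝ) : ℂ) * β j * X j z) * (n : ℂ) ^ (-(s j))))
        fun j _ => integrable_of_cont (continuous_finsetSum _ fun n _ => hterm j n)]
    refine integral_congr_ae (Filter.Eventually.of_forall fun z => ?_)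
    simp only
    rw [Finset.sum_comm]
    exact Finset.sum_congr rfl fun n _ => by rw [Finset.mul_sum]
  change ‖∑ j ∈ range (2 ^ l + 1), ((1 / 2 ^ l : ℝ) : ℂ) * β j * dl c l (vs (s j))‖ ≤ _
  rw [key]
  refine (norm_integral_le_integral_norm _).trans ?_
  refine integral_mono ?_ ?_ ?_
  · refine integrable_of_cont (Continuous.norm (continuous_finsetSum _ fun n _ => (hpc n).mul
      (continuous_finsetSum _ fun j _ => (continuous_const.mul (hXc j)).mul continuous_const)))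
  · refine integrable_of_cont (Continuous.mul ?_ ?_)
    · exact Real.continuous_sqrt.comp (continuous_finsetSum _ fun n _ => (hpc n).norm.pow 2)
    · refine Real.continuous_sqrt.comp (continuous_finsetSum _ fun j _ => continuous_const.mul ?_)
      exact ((continuous_kc _ _ (norm_vs_lt _ (hsre j))).norm.pow 2).mul
        ((((continuous_gb _ _ _).comp continuous_zz).norm.pow 2).div_const _)
  · intro z
    simp only
    refine (sum_mul_sq T _ _).trans ?_
    refine mul_le_mul_of_nonneg_left ?_ (Real.sqrt_nonneg _)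
    refine Real.sqrt_le_sqrt ?_
    refine (hls l hl T h1 (fun j => ((1 / 2 ^ l : ℝ) : ℂ) * β j * X j z) x θ hx).trans
      (le_of_eq ?_)
    rw [Finset.mul_sum]
    refine Finset.sum_congr rfl fun j _ => ?_
    have hs2 : s j = pt l x (θ + (j : ℝ) / 2 ^ l) := rfl
    rw [← hs2]
    rw [norm_mul, norm_mul, Complex.norm_real,
      Real.norm_of_nonneg (by positivity : (0 : ℝ) ≤ 1 / 2 ^ l)]
    simp only [hX]
    rw [norm_div, norm_mul]
    ring

end Pool.Agent.W278.EM
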