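/-
Local embedding for Hardy spaces of Dirichlet series, exponents `p > 2`: definitions.
Torus conventions are those of `Pool.Agent.Helper873`: the torus is `ℕ → UnitAddCircle` with the
product measure `tor`, the coordinate functions are `zet (z k)`, Dirichlet polynomials are
`poly c (vs s) = ∑ c n (n+1)^{-s}`.
-/
import Pool.Agent.Helper873.Alg
import Pool.Agent.Helper873.NT

set_option autoImplicit false
open MeasureTheory Finset
open scoped ComplexConjugate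

namespace Pool.Agent.W278.EM

open Pool.Agent.Helper873.OneVar Pool.Agent.Helper873.Product Pool.Agent.Helper873.Monomial
  Pool.Agent.Helper873.Alg Pool.Agent.Helper873.NT

/-- the infinite torus -/
abbrev TT : Type := ℕ → UnitAddCircle

/-- the `k`-th prime as a real number -/
noncomputable def pr (k : ℕ) : ℝ := (Nat.nth Nat.Prime k : ℝ)

/-- number of primes below `exp (2^l)` -/
noncomputable def nn (l : ℕ) : ℕ := NN (2 ^ l)

/-- the point of `ℂ^ℕ` attached to a point of the torus -/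
noncomputable def zz (z : TT) : ℕ → ℂ := fun k => zet (z k)

/-- truncation: all coordinates `≥ n` are replaced by `0` -/
noncomputable def tr (n : ℕ) (w : ℕ → ℂ) : ℕ → ℂ := fun k => if k < n then w k else 0

/-- `Φ` depends only on the first `n` coordinates -/
def DepC (n : ℕ) (Φ : (ℕ → ℂ) → ℂ) : Prop :=
  ∀ w w' : ℕ → ℂ, (∀ k < n, w k = w' k) → Φ w = Φ w'

/-- `W` depends only on the first `n` coordinates -/
def DepT (n : ℕ) (W : TT → ℝ) : Prop :=
  ∀ z z' : TT, (∀ k < n, z k = z' k) → W z = W z'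

/-- the conjugate Szegő kernel of the first `n` variables at the point `v` -/
noncomputable def kc (n : ℕ) (v : ℕ → ℂ) (z : TT) : ℂ :=
  ∏ k ∈ range n, (1 - v k * conj (zet (z k)))⁻¹

/-- sum of the reciprocals of the first `nn m` primes -/
noncomputable def Hm (m : ℕ) : ℝ := ∑ k ∈ range (nn m), 1 / pr k

/-- the point `1/2 + x/2^l + it` -/
noncomputable def pt (l : ℕ) (x t : ℝ) : ℂ :=
  ((1 / 2 + x / 2 ^ l : ℝ) : ℂ) + (t : ℂ) * Complex.I

/-- analytic bump at the dyadic scale `m` centred at the height `τ` -/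
noncomputable def gb (b : ℝ) (m : ℕ) (τ : ℝ) (w : ℕ → ℂ) : ℂ :=
  Complex.exp ((b : ℂ) *
    ((∑ k ∈ range (nn m), conj (vs (pt 0 0 τ) k) * w k) - ((Hm m : ℝ) : ℂ)))

/-- the part of the polynomial which involves the primes of the block `[nn l, nn (l+1))` and no
larger ones -/
noncomputable def dl (c : ℕ →₀ ℂ) (l : ℕ) (w : ℕ → ℂ) : ℂ :=
  poly c (tr (nn (l + 1)) w) - poly c (tr (nn l) w)

/-- all prime factors of `n` belong to the block `l` -/
def InBlock (l n : ℕ) : Prop :=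
  2 ≤ n ∧ ∀ q : ℕ, q.Prime → q ∣ n →
    Nat.nth Nat.Prime (nn l) ≤ q ∧ q < Nat.nth Nat.Prime (nn (l + 1))

/-- the `L^p` norm on the torus, to the power one -/
noncomputable def nrmP (p : ℝ) (c : ℕ →₀ ℂ) : ℝ := (∫ z, ‖poly c (zz z)‖ ^ p ∂tor) ^ (1 / p)

/-- the functional of the labelled coefficients which controls the pairing -/
noncomputable def RR (r : ℝ) (L : ℕ) (β : ℕ → ℕ → ℂ) (Sl : ℕ → ℕ → ℕ × ℕ)
    (Lab : Finset (ℕ × ℕ)) : ℝ :=
  ∑ S ∈ Lab, (2 : ℝ) ^ (-(S.1 : ℝ) * (1 - r / 2)) *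
    (∑ l ∈ Ico 3 L, ∑ j ∈ range (2 ^ l + 1), if Sl l j = S then ‖β l j‖ ^ 2 / 2 ^ l else 0) ^ (r / 2)

/-- average of the leaf values `d` (level `N`) over the dyadic interval `(m,i)`, `m ≤ N` -/
noncomputable def av (N : ℕ) (d : ℕ → ℂ) (m i : ℕ) : ℂ :=
  (∑ k ∈ range (2 ^ (N - m)), d (i * 2 ^ (N - m) + k)) / 2 ^ (N - m)

/-- Haar coefficient of the dyadic interval `(m,i)`, `m < N` -/
noncomputable def hb (N : ℕ) (d : ℕ → ℂ) (m i : ℕ) : ℂ :=
  (av N d (m + 1) (2 * i) - av N d (m + 1) (2 * i + 1)) / 2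

/-- the dyadic intervals of levels `< N` in `[0,1)` -/
def Lab (N : ℕ) : Finset (ℕ × ℕ) := ((range N) ×ˢ (range (2 ^ N))).filter fun S => S.2 < 2 ^ S.1

/-- stopping data for the Haar coefficients `β` of levels `< N` with total mass `≤ Λ`:
`Sf m i` is an ancestor of `(m,i)` -/
structure Stop (r : ℝ) (N : ℕ) (β : ℕ → ℕ → ℂ) (Sf : ℕ → ℕ → ℕ × ℕ) (lam : ℕ × ℕ → ℝ) (Λ : ℝ) :
    Prop where
  anc : ∀ m i, m < N → i < 2 ^ m → (Sf m i).1 ≤ m ∧ (Sf m i).2 = i / 2 ^ (m - (Sf m i).1)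
  nonneg : ∀ S, 0 ≤ lam S
  mass : ∀ S : ℕ × ℕ, (2 : ℝ) ^ (-(S.1 : ℝ) * (1 - r / 2)) *
    (∑ m ∈ range N, ∑ i ∈ range (2 ^ m), if Sf m i = S then ‖β m i‖ ^ 2 / 2 ^ m else 0) ^ (r / 2) ≤
      lam S
  total : ∑ S ∈ Lab N, lam S ≤ Λ

/-- the integral of the block `l` of the Dirichlet polynomial against the Haar function of the
dyadic interval `(m,i)` -/
noncomputable def HI (c : ℕ →₀ ℂ) (l m i : ℕ) : ℂ :=
  ∫ t in ((i : ℝ) / 2 ^ m)..((i : ℝ) / 2 ^ m + 1 / 2 ^ (m + 1)),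
    (dl c l (vs (pt 0 0 t)) - dl c l (vs (pt 0 0 (t + 1 / 2 ^ (m + 1)))))

end Pool.Agent.W278.EM
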