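import Pool.Agent.W278.EM.Basic

set_option autoImplicit false
open MeasureTheory Finset
open scoped ComplexConjugate

namespace Pool.Agent.W278.EM

open Pool.Agent.Helper873.OneVar Pool.Agent.Helper873.Product Pool.Agent.Helper873.Monomial
  Pool.Agent.Helper873.Alg Pool.Agent.Helper873.NT Pool.Agent.Helper873.Embed

/-- expansions in monomials of the block `l` with coefficients in smaller primes -/
def EAP (l : ℕ) (F : (ℕ → ℂ) → ℂ) : Prop := ∃ (T : Finset ℕ) (B : ℕ → (ℕ →₀ ℂ)),
  (∀ n ∈ T, InBlock l n) ∧ (∀ n, DepC (nn l) (poly (B n))) ∧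
  (∀ w, F w = ∑ n ∈ T, poly (B n) w * mon n w)

lemma depC_zero (n : ℕ) : DepC n (poly 0) := by
  intro w w' _
  rw [poly_zero, poly_zero]

lemma EAP.zero (l : ℕ) : EAP l (fun _ => 0) :=
  ⟨∅, fun _ => 0, by simp, fun _ => depC_zero _, by simp⟩

lemma EAP.add {l : ℕ} {F G : (ℕ → ℂ) → ℂ} (hF : EAP l F) (hG : EAP l G) :
    EAP l (fun w => F w + G w) := by
  classical
  obtain ⟨T1, B1, h1, h2, h3⟩ := hF
  obtain ⟨T2, B2, g1, g2, g3⟩ := hG
  refine ⟨T1 ∪ T2, fun n => (if n ∈ T1 then B1 n else 0) + (if n ∈ T2 then B2 n else 0), ?_, ?_, ?_⟩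
  · intro n hn
    rcases Finset.mem_union.1 hn with h | h
    · exact h1 n h
    · exact g1 n h
  · intro n w w' hw
    have e1 : poly (if n ∈ T1 then B1 n else 0) w = poly (if n ∈ T1 then B1 n else 0) w' := by
      split_ifs
      · exact h2 n w w' hw
      · rw [poly_zero, poly_zero]
    have e2 : poly (if n ∈ T2 then B2 n else 0) w = poly (if n ∈ T2 then B2 n else 0) w' := by
      split_ifs
      · exact g2 n w w' hw
      · rw [poly_zero, poly_zero]
    simp only [poly_add, e1, e2]
  · intro w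
    simp only [poly_add, h3, g3, add_mul]
    rw [Finset.sum_add_distrib]
    congr 1
    · rw [← Finset.sum_subset (Finset.subset_union_left (s₁ := T1) (s₂ := T2))]
      · exact Finset.sum_congr rfl fun n hn => by simp [hn]
      · intro n _ hn
        simp [hn, poly_zero]
    · rw [← Finset.sum_subset (Finset.subset_union_right (s₁ := T1) (s₂ := T2))]
      · exact Finset.sum_congr rfl fun n hn => by simp [hn]
      · intro n _ hn
        simp [hn, poly_zero]

lemma mon_tr_of (M n : ℕ) (h : ∀ k, n ≤ k → ex M k = 0) (w : ℕ → ℂ) :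
    mon M (tr n w) = mon M w := by
  unfold mon tr
  refine Finset.prod_congr rfl fun k _ => ?_
  by_cases hk : k < n
  · simp [hk]
  · rw [h k (by omega)]; simp

lemma mon_tr_zero (M n k : ℕ) (hk : n ≤ k) (h : ex M k ≠ 0) (w : ℕ → ℂ) :
    mon M (tr n w) = 0 := by
  unfold mon
  have hkM : k < M := by
    by_contra hcon
    exact h (ex_eq_zero M k (by omega))
  refine Finset.prod_eq_zero (Finset.mem_range.2 hkM) ?_
  unfold tr
  rw [if_neg (by omega), zero_pow h]

lemma EAP.single (l m : ℕ) (a : ℂ) : EAP l (fun w => poly (Finsupp.single m a) (tr (nn (l + 1)) w) -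
    poly (Finsupp.single m a) (tr (nn l) w)) := by
  classical
  have hNN : nn l ≤ nn (l + 1) := nn_mono (Nat.le_succ l)
  set N := nn l with hN
  set N' := nn (l + 1) with hN'
  set M := m + 1 with hM
  simp only [poly_single]
  by_cases c1 : ∃ k, N' ≤ k ∧ ex M k ≠ 0
  · obtain ⟨k, hk, hk2⟩ := c1
    have : (fun w : ℕ → ℂ => a * mon M (tr N' w) - a * mon M (tr N w)) = fun _ => 0 := by
      funext w
      rw [mon_tr_zero M N' k hk hk2, mon_tr_zero M N k (by omega) hk2]
      ring
    rw [this]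
    exact EAP.zero l
  push Not at c1
  by_cases c2 : ∃ k, N ≤ k ∧ ex M k ≠ 0
  swap
  · push Not at c2
    have : (fun w : ℕ → ℂ => a * mon M (tr N' w) - a * mon M (tr N w)) = fun _ => 0 := by
      funext w
      rw [mon_tr_of M N' c1, mon_tr_of M N c2]
      ring
    rw [this]
    exact EAP.zero l
  obtain ⟨k₀, hk₀, hk₀2⟩ := c2
  have hk₀N' : k₀ < N' := by
    by_contra hcon
    exact hk₀2 (c1 k₀ (by omega))
  set A : ℕ := ∏ k ∈ range N, (Nat.nth Nat.Prime k) ^ ex M k with hA
  set n : ℕ := ∏ k ∈ Ico N N', (Nat.nth Nat.Prime k) ^ ex M k with hn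
  have hpos : ∀ s : Finset ℕ, 0 < ∏ k ∈ s, (Nat.nth Nat.Prime k) ^ ex M k := fun s =>
    Finset.prod_pos fun k _ => pow_pos (Nat.prime_nth_prime k).pos _
  have hA0 : 0 < A := hpos _
  have hn0 : 0 < n := hpos _
  have hprod : A * n = M := by
    have e1 : A * n = ∏ k ∈ range N', (Nat.nth Nat.Prime k) ^ ex M k := by
      rw [hA, hn, Finset.prod_range_mul_prod_Ico _ hNN]
    have e2 : ∏ k ∈ range (max M N'), (Nat.nth Nat.Prime k) ^ ex M k = M :=
      prod_ex M (max M N') (by omega) (le_max_left _ _)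
    rw [← Finset.prod_range_mul_prod_Ico _ (le_max_right M N')] at e2
    have e3 : ∏ k ∈ Ico N' (max M N'), (Nat.nth Nat.Prime k) ^ ex M k = 1 :=
      Finset.prod_eq_one fun k hk => by rw [c1 k (Finset.mem_Ico.1 hk).1, pow_zero]
    rw [e3, mul_one] at e2
    rw [e1, e2]
  have hblock : InBlock l n := by
    constructor
    · have hd : Nat.nth Nat.Prime k₀ ∣ n := by
        have h1 : Nat.nth Nat.Prime k₀ ∣ (Nat.nth Nat.Prime k₀) ^ ex M k₀ := dvd_pow_self _ hk₀2
        exact h1.trans (Finset.dvd_prod_of_mem _ (Finset.mem_Ico.2 ⟨hk₀, hk₀N'⟩))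
      exact (Nat.prime_nth_prime k₀).two_le.trans (Nat.le_of_dvd hn0 hd)
    · intro q hq hqn
      rw [hn, Prime.dvd_finsetProd_iff hq.prime] at hqn
      obtain ⟨k, hk, hqk⟩ := hqn
      have h1 := hq.dvd_of_dvd_pow hqk
      have h2 : q = Nat.nth Nat.Prime k :=
        (Nat.prime_dvd_prime_iff_eq hq (Nat.prime_nth_prime k)).1 h1
      rw [Finset.mem_Ico] at hk
      rw [h2]
      exact ⟨Nat.nth_monotone Nat.infinite_setOfPred_prime hk.1,
        Nat.nth_strictMono Nat.infinite_setOfPred_prime hk.2⟩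
  have hAex : ∀ k, N ≤ k → ex A k = 0 := by
    intro k hk
    unfold ex
    refine Nat.factorization_eq_zero_of_not_dvd fun hd => ?_
    rw [hA, Prime.dvd_finsetProd_iff (Nat.prime_nth_prime k).prime] at hd
    obtain ⟨j, hj, hjk⟩ := hd
    have h1 := (Nat.prime_nth_prime k).dvd_of_dvd_pow hjk
    have h2 := (Nat.prime_dvd_prime_iff_eq (Nat.prime_nth_prime k) (Nat.prime_nth_prime j)).1 h1
    have h3 : k = j := Nat.nth_injective Nat.infinite_setOfPred_prime h2
    rw [Finset.mem_range] at hj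
    omega
  have hB : ∀ w, poly (Finsupp.single (A - 1) a) w = a * mon A w := fun w => by
    rw [poly_single, Nat.sub_add_cancel hA0]
  refine ⟨{n}, fun _ => Finsupp.single (A - 1) a, ?_, ?_, ?_⟩
  · intro n' hn'
    rw [Finset.mem_singleton.1 hn']
    exact hblock
  · intro _ w w' hw
    rw [hB, hB]
    congr 1
    unfold mon
    refine Finset.prod_congr rfl fun k _ => ?_
    by_cases hk : k < N
    · rw [hw k hk]
    · rw [hAex k (by omega), pow_zero, pow_zero]
  · intro w
    change a * mon M (tr N' w) - a * mon M (tr N w) = _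
    rw [Finset.sum_singleton, hB, mon_tr_of M N' c1, mon_tr_zero M N k₀ hk₀ hk₀2, mul_assoc,
      mon_mul A n hA0.ne' hn0.ne', hprod]
    ring

theorem sexpA : SExpA := by
  intro c l
  have h : EAP l (dl c l) := by
    have h1 : ∀ c : ℕ →₀ ℂ, EAP l (fun w => poly c (tr (nn (l + 1)) w) - poly c (tr (nn l) w)) := by
      intro c
      induction c using Finsupp.induction_linear with
      | zero =>
        simp only [poly_zero, sub_zero]
        exact EAP.zero l
      | add f g hf hg =>
        have := hf.add hg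
        refine (congrArg (EAP l) ?_).mp this
        funext w
        simp only [poly_add]
        ring
      | single m a => exact EAP.single l m a
    exact h1 c
  obtain ⟨T, B, h1, h2, h3⟩ := h
  exact ⟨T, B, h1, fun n _ => h2 n, h3⟩

end Pool.Agent.W278.EM
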