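import Pool.Agent.W278.EM.Basic

set_option autoImplicit false
open MeasureTheory Finset
open scoped ComplexConjugate

namespace Pool.Agent.W278.EM

open Pool.Agent.Helper873.OneVar Pool.Agent.Helper873.Product Pool.Agent.Helper873.Monomial
  Pool.Agent.Helper873.Alg Pool.Agent.Helper873.NT Pool.Agent.Helper873.Embed

lemma norm_mon_zz (n : ℕ) (z : TT) : ‖mon n (zz z)‖ = 1 := by
  unfold mon
  rw [norm_prod]
  refine Finset.prod_eq_one fun k _ => ?_
  rw [norm_pow, norm_zz, one_pow]

lemma continuous_mon_zz (n : ℕ) : Continuous fun z : TT => mon n (zz z) :=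
  (continuous_mon n).comp continuous_zz

/-- orthogonality of two monomials against a function not depending on a separating coordinate -/
lemma cross_zero (m n k : ℕ) (hk : ex m k ≠ ex n k) (f : TT → ℂ) (hf : Continuous f)
    (hfk : ∀ z w, f (Function.update z k w) = f z) :
    ∫ z, f z * (mon m (zz z) * conj (mon n (zz z))) ∂tor = 0 := by
  have hcc : Continuous fun z : TT => f z * (mon m (zz z) * conj (mon n (zz z))) :=
    hf.mul ((continuous_mon_zz m).mul (Complex.continuous_conj.comp (continuous_mon_zz n)))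
  obtain ⟨C, hC⟩ : ∃ C : ℝ, ∀ z : TT, ‖f z * (mon m (zz z) * conj (mon n (zz z)))‖ ≤ C := by
    obtain ⟨C, hC⟩ := (isCompact_range hcc).isBounded.exists_norm_le
    exact ⟨C, fun z => hC _ ⟨z, rfl⟩⟩
  rw [integral_resample k _ hcc C hC]
  set N := max (max m n) (k + 1) with hN
  have hmN : m ≤ N := le_trans (le_max_left _ _) (le_max_left _ _)
  have hnN : n ≤ N := le_trans (le_max_right _ _) (le_max_left _ _)
  have hkN : k ∈ Finset.range N := Finset.mem_range.2 (lt_of_lt_of_le (Nat.lt_succ_self k)
    (le_max_right _ _))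
  have hsplit : ∀ (r : ℕ), r ≤ N → ∀ (z : TT) (w : UnitAddCircle),
      mon r (zz (Function.update z k w)) = zet w ^ ex r k *
        ∏ j ∈ (Finset.range N).erase k, zet (z j) ^ ex r j := by
    intro r hr z w
    rw [mon_eq r N hr, ← Finset.mul_prod_erase _ _ hkN]
    unfold zz
    rw [Function.update_self]
    congr 1
    refine Finset.prod_congr rfl fun j hj => ?_
    rw [Function.update_of_ne (Finset.ne_of_mem_erase hj)]
  have hin : ∀ z : TT,
      ∫ w, f (Function.update z k w) * (mon m (zz (Function.update z k w)) *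
        conj (mon n (zz (Function.update z k w)))) ∂(AddCircle.haarAddCircle (T := 1)) = 0 := by
    intro z
    have e : ∀ w, f (Function.update z k w) * (mon m (zz (Function.update z k w)) *
        conj (mon n (zz (Function.update z k w)))) =
        (zet w ^ ex m k * conj (zet w ^ ex n k)) *
        (f z * ((∏ j ∈ (Finset.range N).erase k, zet (z j) ^ ex m j) *
          conj (∏ j ∈ (Finset.range N).erase k, zet (z j) ^ ex n j))) := by
      intro w
      rw [hsplit m hmN, hsplit n hnN, map_mul, hfk]
      ring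
    simp_rw [e]
    rw [integral_mul_const, integral_zet_pow _ _ hk, zero_mul]
  simp_rw [hin]
  simp

lemma ex_block {l n k : ℕ} (h : InBlock l n) (hk : k < nn l) : ex n k = 0 := by
  unfold ex
  refine Nat.factorization_eq_zero_of_not_dvd fun hd => ?_
  have h1 := (h.2 _ (Nat.prime_nth_prime k) hd).1
  have h2 : Nat.nth Nat.Prime k < Nat.nth Nat.Prime (nn l) :=
    Nat.nth_strictMono Nat.infinite_setOfPred_prime hk
  omega

theorem sorth : SOrth := by
  classical
  intro l T A B W hT hA hAd hB hW hWd
  -- the family with the index 1 added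
  set B' : ℕ → (ℕ → ℂ) → ℂ := fun n => if n = 1 then A else B n with hB'
  have h1T : (1 : ℕ) ∉ T := fun h => by have := (hT 1 h).1; omega
  set T' := insert 1 T with hT'
  have hBc : ∀ n ∈ T', Continuous (B' n) := by
    intro n hn
    simp only [hB']
    split_ifs with h
    · exact hA
    · rcases Finset.mem_insert.1 hn with h2 | h2
      · exact absurd h2 h
      · exact (hB n h2).1
  have hBd : ∀ n ∈ T', DepC (nn l) (B' n) := by
    intro n hn
    simp only [hB']
    split_ifs with h
    · exact hAd
    · rcases Finset.mem_insert.1 hn with h2 | h2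
      · exact absurd h2 h
      · exact (hB n h2).2
  have hsum : ∀ w : ℕ → ℂ, A w + ∑ n ∈ T, B n w * mon n w = ∑ n ∈ T', B' n w * mon n w := by
    intro w
    have e1 : B' 1 = A := by simp [hB']
    have e2 : ∀ n ∈ T, B' n = B n := fun n hn => by
      have : n ≠ 1 := fun h => h1T (h ▸ hn)
      simp [hB', this]
    rw [hT', Finset.sum_insert h1T, e1, mon_one, mul_one]
    exact congrArg (fun t => A w + t) (Finset.sum_congr rfl fun n hn => by rw [e2 n hn])
  have hsum2 : ∀ w : ℕ → ℂ, ‖A w‖ ^ 2 + ∑ n ∈ T, ‖B n w‖ ^ 2 = ∑ n ∈ T', ‖B' n w‖ ^ 2 := by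
    intro w
    have e1 : B' 1 = A := by simp [hB']
    have e2 : ∀ n ∈ T, B' n = B n := fun n hn => by
      have : n ≠ 1 := fun h => h1T (h ▸ hn)
      simp [hB', this]
    rw [hT', Finset.sum_insert h1T, e1]
    exact congrArg (fun t => ‖A w‖ ^ 2 + t) (Finset.sum_congr rfl fun n hn => by rw [e2 n hn])
  have hex : ∀ n ∈ T', ∀ k < nn l, ex n k = 0 := by
    intro n hn k hk
    rcases Finset.mem_insert.1 hn with h | h
    · subst h; unfold ex; simp
    · exact ex_block (hT n h) hk
  have hne : ∀ n ∈ T', n ≠ 0 := by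
    intro n hn
    rcases Finset.mem_insert.1 hn with h | h
    · omega
    · have := (hT n h).1; omega
  have hBz : ∀ n ∈ T', Continuous fun z : TT => B' n (zz z) := fun n hn =>
    (hBc n hn).comp continuous_zz
  -- both sides as complex integrals
  have hL : (∫ z, ((W z * ‖∑ n ∈ T', B' n (zz z) * mon n (zz z)‖ ^ 2 : ℝ) : ℂ) ∂tor) =
      ∫ z, ((W z * ∑ n ∈ T', ‖B' n (zz z)‖ ^ 2 : ℝ) : ℂ) ∂tor := by
    have e1 : ∀ z : TT, ((W z * ‖∑ n ∈ T', B' n (zz z) * mon n (zz z)‖ ^ 2 : ℝ) : ℂ) =
        ∑ n ∈ T', ∑ m ∈ T', ((W z : ℂ) * (B' n (zz z) * conj (B' m (zz z)))) *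
          (mon n (zz z) * conj (mon m (zz z))) := by
      intro z
      have : ((‖∑ n ∈ T', B' n (zz z) * mon n (zz z)‖ ^ 2 : ℝ) : ℂ) =
          (∑ n ∈ T', B' n (zz z) * mon n (zz z)) * conj (∑ n ∈ T', B' n (zz z) * mon n (zz z)) := by
        rw [Complex.mul_conj, Complex.normSq_eq_norm_sq]
      rw [Complex.ofReal_mul, this, map_sum, Finset.sum_mul_sum, Finset.mul_sum]
      refine Finset.sum_congr rfl fun n _ => ?_
      rw [Finset.mul_sum]
      refine Finset.sum_congr rfl fun m _ => ?_
      rw [map_mul]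
      ring
    have hc : ∀ n ∈ T', ∀ m ∈ T', Continuous fun z : TT =>
        ((W z : ℂ) * (B' n (zz z) * conj (B' m (zz z)))) :=
      fun n hn m hm => (Complex.continuous_ofReal.comp hW).mul
        ((hBz n hn).mul (Complex.continuous_conj.comp (hBz m hm)))
    have hc2 : ∀ n ∈ T', ∀ m ∈ T', Continuous fun z : TT =>
        ((W z : ℂ) * (B' n (zz z) * conj (B' m (zz z)))) *
          (mon n (zz z) * conj (mon m (zz z))) :=
      fun n hn m hm => (hc n hn m hm).mul
        ((continuous_mon_zz n).mul (Complex.continuous_conj.comp (continuous_mon_zz m)))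
    simp_rw [e1]
    rw [integral_finsetSum _ fun n hn => integrable_of_cont
      (continuous_finsetSum _ fun m hm => hc2 n hn m hm)]
    have e2 : ∀ n ∈ T', ∫ z, ∑ m ∈ T', ((W z : ℂ) * (B' n (zz z) * conj (B' m (zz z)))) *
          (mon n (zz z) * conj (mon m (zz z))) ∂tor =
        ∫ z, ((W z * ‖B' n (zz z)‖ ^ 2 : ℝ) : ℂ) ∂tor := by
      intro n hn
      rw [integral_finsetSum _ fun m hm => integrable_of_cont (hc2 n hn m hm)]
      rw [Finset.sum_eq_single_of_mem n hn]
      · refine integral_congr_ae (Filter.Eventually.of_forall fun z => ?_)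
        simp only
        rw [Complex.mul_conj, Complex.mul_conj, Complex.normSq_eq_norm_sq,
          Complex.normSq_eq_norm_sq, norm_mon_zz]
        push_cast
        ring
      · intro m hm hmn
        obtain ⟨k, hk⟩ : ∃ k, ex n k ≠ ex m k := by
          by_contra hcon
          push Not at hcon
          exact hmn (ex_injective n m (hne n hn) (hne m hm) hcon).symm
        have hkl : nn l ≤ k := by
          by_contra hlt
          push Not at hlt
          exact hk (by rw [hex n hn k hlt, hex m hm k hlt])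
        refine cross_zero n m k hk _ (hc n hn m hm) fun z w => ?_
        have hz : ∀ j < nn l, (Function.update z k w) j = z j := fun j hj =>
          Function.update_of_ne (by omega) _ _
        rw [hWd _ _ hz, hBd n hn _ _ (zz_congr hz), hBd m hm _ _ (zz_congr hz)]
    have hc3 : ∀ n ∈ T', Continuous fun z : TT => ((W z * ‖B' n (zz z)‖ ^ 2 : ℝ) : ℂ) :=
      fun n hn => Complex.continuous_ofReal.comp (hW.mul ((hBz n hn).norm.pow 2))
    rw [Finset.sum_congr rfl e2, ← integral_finsetSum _ fun n hn => integrable_of_cont (hc3 n hn)]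
    refine integral_congr_ae (Filter.Eventually.of_forall fun z => ?_)
    simp only
    rw [← Complex.ofReal_sum, ← Finset.mul_sum]
  rw [integral_complex_ofReal, integral_complex_ofReal, Complex.ofReal_inj] at hL
  have hA2 : Integrable (fun z : TT => W z * ‖A (zz z)‖ ^ 2) tor :=
    integrable_of_cont (hW.mul ((hA.comp continuous_zz).norm.pow 2))
  have hB2 : Integrable (fun z : TT => W z * ∑ n ∈ T, ‖B n (zz z)‖ ^ 2) tor :=
    integrable_of_cont (hW.mul (continuous_finsetSum _ fun n hn =>
      (((hB n hn).1.comp continuous_zz).norm.pow 2)))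
  rw [← integral_add hA2 hB2]
  simp_rw [hsum]
  rw [hL]
  refine integral_congr_ae (Filter.Eventually.of_forall fun z => ?_)
  simp only
  rw [← hsum2, mul_add]

end Pool.Agent.W278.EM
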