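import Pool.Agent.W278.EM.Basic

set_option autoImplicit false
open MeasureTheory Finset
open scoped ComplexConjugate

namespace Pool.Agent.W278.EM

open Pool.Agent.Helper873.OneVar Pool.Agent.Helper873.Product Pool.Agent.Helper873.Monomial
  Pool.Agent.Helper873.Alg Pool.Agent.Helper873.NT Pool.Agent.Helper873.Embed

/-- relabelled coefficients -/
noncomputable def bII (N D ε : ℕ) (β : ℕ → ℕ → ℂ) (l j : ℕ) : ℂ :=
  if D + 1 ≤ l ∧ l - (D + 1) < N ∧ ε * 2 ^ D ≤ j ∧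
        (j - ε * 2 ^ D) % 2 ^ (D + 1) = 0 ∧ (j - ε * 2 ^ D) / 2 ^ (D + 1) < 2 ^ (l - (D + 1))
      then β (l - (D + 1)) ((j - ε * 2 ^ D) / 2 ^ (D + 1)) else 0

lemma reindexII (l D ε N : ℕ) (hε : ε ≤ 2) (β : ℕ → ℕ → ℂ) (g : ℝ → ℂ) :
    ∑ j ∈ range (2 ^ l + 1), ((1 / 2 ^ l : ℝ) : ℂ) * bII N D ε β l j * g (0 + (j : ℝ) / 2 ^ l) =
    if D + 1 ≤ l ∧ l - (D + 1) < N then ∑ i ∈ range (2 ^ (l - (D + 1))),
      ((1 / 2 ^ l : ℝ) : ℂ) * β (l - (D + 1)) i *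
        g ((i : ℝ) / 2 ^ (l - (D + 1)) + (ε : ℝ) / 2 ^ (l - (D + 1) + 1)) else 0 := by
  by_cases hc : D + 1 ≤ l ∧ l - (D + 1) < N
  swap
  · rw [if_neg hc]
    refine Finset.sum_eq_zero fun j _ => ?_
    have : bII N D ε β l j = 0 := by
      unfold bII
      rw [if_neg fun h => hc ⟨h.1, h.2.1⟩]
    rw [this]; ring
  rw [if_pos hc]
  obtain ⟨m, rfl⟩ : ∃ m, l = m + (D + 1) := ⟨l - (D + 1), by omega⟩
  have hm : m + (D + 1) - (D + 1) = m := by omega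
  rw [hm]
  rw [hm] at hc
  symm
  refine Finset.sum_of_injOn (fun i : ℕ => i * 2 ^ (D + 1) + ε * 2 ^ D) ?_ ?_ ?_ ?_
  · intro i _ j _ hij
    simp only at hij
    have h2 : 0 < 2 ^ (D + 1) := by positivity
    have : i * 2 ^ (D + 1) = j * 2 ^ (D + 1) := by omega
    exact Nat.eq_of_mul_eq_mul_right h2 this
  · intro i hi
    rw [Finset.mem_coe, Finset.mem_range] at hi
    rw [Finset.mem_coe, Finset.mem_range]
    have h1 : (i + 1) * 2 ^ (D + 1) ≤ 2 ^ m * 2 ^ (D + 1) := Nat.mul_le_mul_right _ hi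
    have h2 : ε * 2 ^ D ≤ 2 ^ (D + 1) := by
      rw [pow_succ, mul_comm (2 ^ D) 2]; exact Nat.mul_le_mul_right _ hε
    have h3 : 2 ^ (m + (D + 1)) = 2 ^ m * 2 ^ (D + 1) := pow_add _ _ _
    have h4 : (i + 1) * 2 ^ (D + 1) = i * 2 ^ (D + 1) + 2 ^ (D + 1) := by ring
    simp only
    omega
  · intro j _ hj
    have : bII N D ε β (m + (D + 1)) j = 0 := by
      unfold bII
      rw [if_neg]
      rintro ⟨_, _, h3, h4, h5⟩
      rw [hm] at h5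
      refine hj ⟨(j - ε * 2 ^ D) / 2 ^ (D + 1), by simpa using h5, ?_⟩
      simp only
      have := Nat.div_add_mod (j - ε * 2 ^ D) (2 ^ (D + 1))
      rw [h4, add_zero, mul_comm] at this
      rw [this]
      omega
    rw [this]; ring
  · intro i hi
    rw [Finset.mem_range] at hi
    have h2 : 0 < 2 ^ (D + 1) := by positivity
    have e1 : i * 2 ^ (D + 1) + ε * 2 ^ D - ε * 2 ^ D = i * 2 ^ (D + 1) := by omega
    have e2 : bII N D ε β (m + (D + 1)) (i * 2 ^ (D + 1) + ε * 2 ^ D) = β m i := by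
      unfold bII
      rw [e1, hm, Nat.mul_div_cancel _ h2, if_pos]
      refine ⟨by omega, hc.2, by omega, Nat.mul_mod_left _ _, hi⟩
    rw [e2]
    have hp : (2 : ℝ) ^ (m + (D + 1)) = 2 ^ m * (2 ^ D * 2) := by rw [pow_add, pow_succ]
    have e3 : (i : ℝ) / 2 ^ m + (ε : ℝ) / 2 ^ (m + 1) =
        0 + ((i * 2 ^ (D + 1) + ε * 2 ^ D : ℕ) : ℝ) / 2 ^ (m + (D + 1)) := by
      push_cast
      rw [hp, pow_succ (2 : ℝ) D, pow_succ (2 : ℝ) m]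
      field_simp
      ring
    rw [e3]

/-- an ancestor contains the interval -/
lemma anc_mem {m i s u : ℕ} (hs : s ≤ m) (hu : u = i / 2 ^ (m - s)) :
    (u : ℝ) / 2 ^ s ≤ (i : ℝ) / 2 ^ m ∧ ((i : ℝ) + 1) / 2 ^ m ≤ ((u : ℝ) + 1) / 2 ^ s := by
  obtain ⟨k, rfl⟩ : ∃ k, m = s + k := ⟨m - s, by omega⟩
  have hk : s + k - s = k := by omega
  rw [hk] at hu
  have h1 : u * 2 ^ k ≤ i := by rw [hu]; exact Nat.div_mul_le_self _ _
  have h2 : i + 1 ≤ (u + 1) * 2 ^ k := by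
    rw [hu]
    have h3 := Nat.div_add_mod i (2 ^ k)
    have h4 : i % 2 ^ k < 2 ^ k := Nat.mod_lt _ (by positivity)
    nlinarith
  have h1' : (u : ℝ) * 2 ^ k ≤ i := by exact_mod_cast h1
  have h2' : (i : ℝ) + 1 ≤ (u + 1) * 2 ^ k := by exact_mod_cast h2
  constructor
  · rw [div_le_div_iff₀ (by positivity) (by positivity), pow_add]
    nlinarith [pow_pos (two_pos : (0 : ℝ) < 2) s]
  · rw [div_le_div_iff₀ (by positivity) (by positivity), pow_add]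
    nlinarith [pow_pos (two_pos : (0 : ℝ) < 2) s]

lemma anc_lab {N m i : ℕ} {S : ℕ × ℕ} (hmN : m < N) (hi : i < 2 ^ m) (hs : S.1 ≤ m)
    (hu : S.2 = i / 2 ^ (m - S.1)) : S ∈ Lab N := by
  have h1 : S.2 < 2 ^ S.1 := by
    rw [hu]
    refine Nat.div_lt_of_lt_mul ?_
    rw [← pow_add]
    have : m - S.1 + S.1 = m := by omega
    rwa [this]
  unfold Lab
  rw [Finset.mem_filter, Finset.mem_product, Finset.mem_range, Finset.mem_range]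
  refine ⟨⟨by omega, lt_of_lt_of_le h1 ?_⟩, h1⟩
  exact Nat.pow_le_pow_right (by norm_num) (by omega)

lemma Stop.nonneg_mass {r : ℝ} {N : ℕ} {β : ℕ → ℕ → ℂ} {Sf : ℕ → ℕ → ℕ × ℕ} {lam : ℕ × ℕ → ℝ}
    {Λ : ℝ} (h : Stop r N β Sf lam Λ) : 0 ≤ Λ :=
  (Finset.sum_nonneg fun S _ => h.nonneg S).trans h.total

lemma RR_nonneg (r : ℝ) (L : ℕ) (β : ℕ → ℕ → ℂ) (Sl : ℕ → ℕ → ℕ × ℕ) (La : Finset (ℕ × ℕ)) :
    0 ≤ RR r L β Sl La := by
  unfold RR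
  refine Finset.sum_nonneg fun S _ => mul_nonneg (by positivity) (Real.rpow_nonneg ?_ _)
  refine Finset.sum_nonneg fun l _ => Finset.sum_nonneg fun j _ => ?_
  split_ifs <;> positivity

lemma nrmP_nonneg (p : ℝ) (c : ℕ →₀ ℂ) : 0 ≤ nrmP p c :=
  Real.rpow_nonneg (integral_nonneg fun z => Real.rpow_nonneg (norm_nonneg _) _) _

lemma core_II {r : ℝ} (hr : 1 < r) {C1 C2 : ℝ} (hC1 : 0 < C1) (hC2 : 0 < C2)
    (h1 : ∀ (c : ℕ →₀ ℂ) (L : ℕ), (∀ w, poly c (tr (nn L) w) = poly c w) →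
      ∀ x : ℝ, -(1 / 4) ≤ x →
      ∀ (θ : ℕ → ℝ) (β : ℕ → ℕ → ℂ) (Sl : ℕ → ℕ → ℕ × ℕ) (La : Finset (ℕ × ℕ)),
      (∀ l j, β l j ≠ 0 → Sl l j ∈ La ∧ (Sl l j).1 ≤ l ∧
        |θ l + (j : ℝ) / 2 ^ l - ((Sl l j).2 : ℝ) / 2 ^ (Sl l j).1| ≤ 2 / 2 ^ (Sl l j).1) →
      ‖∑ l ∈ Ico 3 L, ∑ j ∈ range (2 ^ l + 1),
          ((1 / 2 ^ l : ℝ) : ℂ) * β l j * dl c l (vs (pt l x (θ l + (j : ℝ) / 2 ^ l)))‖ ≤
        C1 * Real.exp (-x / 4) * nrmP (r / (r - 1)) c * (RR r L β Sl La) ^ (1 / r))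
    (h2 : ∀ (N L D ε : ℕ) (β : ℕ → ℕ → ℂ) (Sf : ℕ → ℕ → ℕ × ℕ) (lam : ℕ × ℕ → ℝ) (Λ : ℝ),
      Stop r N β Sf lam Λ → ε ≤ 2 →
      RR r L (fun l j => if D + 1 ≤ l ∧ l - (D + 1) < N ∧ ε * 2 ^ D ≤ j ∧
            (j - ε * 2 ^ D) % 2 ^ (D + 1) = 0 ∧ (j - ε * 2 ^ D) / 2 ^ (D + 1) < 2 ^ (l - (D + 1))
          then β (l - (D + 1)) ((j - ε * 2 ^ D) / 2 ^ (D + 1)) else 0)
        (fun l j => Sf (l - (D + 1)) ((j - ε * 2 ^ D) / 2 ^ (D + 1))) (Lab N) ≤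
          C2 * (2 : ℝ) ^ (-(D : ℝ) * (r / 2)) * Λ)
    (c : ℕ →₀ ℂ) (L : ℕ) (hL : ∀ w, poly c (tr (nn L) w) = poly c w) (N D ε : ℕ) (hε : ε ≤ 2)
    (β : ℕ → ℕ → ℂ) (Sf : ℕ → ℕ → ℕ × ℕ) (lam : ℕ × ℕ → ℝ) (Λ : ℝ) (hst : Stop r N β Sf lam Λ)
    (x : ℝ) (hx : -(1 / 4) ≤ x) :
    ‖∑ l ∈ Ico 3 L, if D + 1 ≤ l ∧ l - (D + 1) < N then ∑ i ∈ range (2 ^ (l - (D + 1))),
      ((1 / 2 ^ l : ℝ) : ℂ) * β (l - (D + 1)) i *
        dl c l (vs (pt l x ((i : ℝ) / 2 ^ (l - (D + 1)) + (ε : ℝ) / 2 ^ (l - (D + 1) + 1)))) else 0‖ ≤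
      Real.exp (-x / 4) * (C1 * C2 ^ (1 / r) * ((2 : ℝ) ^ (-(D : ℝ) / 2) *
        nrmP (r / (r - 1)) c * Λ ^ (1 / r))) := by
  have hr0 : 0 < r := by linarith
  have hΛ := hst.nonneg_mass
  have e : ∀ l, (if D + 1 ≤ l ∧ l - (D + 1) < N then ∑ i ∈ range (2 ^ (l - (D + 1))),
      ((1 / 2 ^ l : ℝ) : ℂ) * β (l - (D + 1)) i *
        dl c l (vs (pt l x ((i : ℝ) / 2 ^ (l - (D + 1)) + (ε : ℝ) / 2 ^ (l - (D + 1) + 1)))) else 0) =
      ∑ j ∈ range (2 ^ l + 1), ((1 / 2 ^ l : ℝ) : ℂ) * bII N D ε β l j *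
        dl c l (vs (pt l x ((fun _ : ℕ => (0 : ℝ)) l + (j : ℝ) / 2 ^ l))) := fun l =>
    (reindexII l D ε N hε β (fun t => dl c l (vs (pt l x t)))).symm
  simp_rw [e]
  refine (h1 c L hL x hx (fun _ => 0) (bII N D ε β)
    (fun l j => Sf (l - (D + 1)) ((j - ε * 2 ^ D) / 2 ^ (D + 1))) (Lab N) ?_).trans ?_
  · intro l j hb
    unfold bII at hb
    by_cases hcond : D + 1 ≤ l ∧ l - (D + 1) < N ∧ ε * 2 ^ D ≤ j ∧
        (j - ε * 2 ^ D) % 2 ^ (D + 1) = 0 ∧ (j - ε * 2 ^ D) / 2 ^ (D + 1) < 2 ^ (l - (D + 1))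
    swap
    · rw [if_neg hcond] at hb; exact absurd rfl hb
    obtain ⟨g1, g2, g3, g4, g5⟩ := hcond
    obtain ⟨m, rfl⟩ : ∃ m, l = m + (D + 1) := ⟨l - (D + 1), by omega⟩
    have hm : m + (D + 1) - (D + 1) = m := by omega
    rw [hm] at g2 g5
    simp only [hm]
    set i := (j - ε * 2 ^ D) / 2 ^ (D + 1) with hi
    have hj : j = i * 2 ^ (D + 1) + ε * 2 ^ D := by
      have := Nat.div_add_mod (j - ε * 2 ^ D) (2 ^ (D + 1))
      rw [g4, add_zero, mul_comm, ← hi] at this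
      omega
    obtain ⟨a1, a2⟩ := hst.anc m i g2 g5
    refine ⟨anc_lab g2 g5 a1 a2, by omega, ?_⟩
    obtain ⟨b1, b2⟩ := anc_mem a1 a2
    have hje : (j : ℝ) / 2 ^ (m + (D + 1)) = (i : ℝ) / 2 ^ m + (ε : ℝ) / 2 / 2 ^ m := by
      have hj' : (j : ℝ) = i * 2 ^ (D + 1) + ε * 2 ^ D := by rw [hj]; push_cast; ring
      have hp : (2 : ℝ) ^ (m + (D + 1)) = 2 ^ m * (2 ^ D * 2) := by rw [pow_add, pow_succ]
      rw [hj', hp, pow_succ]
      field_simp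
    have hε0 : (0 : ℝ) ≤ (ε : ℝ) / 2 / 2 ^ m := by positivity
    have hε1 : (ε : ℝ) / 2 / 2 ^ m ≤ 1 / 2 ^ m := by
      have : (ε : ℝ) ≤ 2 := by exact_mod_cast hε
      exact div_le_div_of_nonneg_right (by linarith) (by positivity)
    have b3 : ((i : ℝ) + 1) / 2 ^ m = (i : ℝ) / 2 ^ m + 1 / 2 ^ m := by ring
    have b4 : (((Sf m i).2 : ℝ) + 1) / 2 ^ (Sf m i).1 =
      ((Sf m i).2 : ℝ) / 2 ^ (Sf m i).1 + 1 / 2 ^ (Sf m i).1 := by ring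
    have b5 : (2 : ℝ) / 2 ^ (Sf m i).1 = 1 / 2 ^ (Sf m i).1 + 1 / 2 ^ (Sf m i).1 := by ring
    have b6 : (0 : ℝ) ≤ 1 / 2 ^ (Sf m i).1 := by positivity
    rw [hje, abs_le]
    constructor <;> linarith
  · have hRR := h2 N L D ε β Sf lam Λ hst hε
    have hRR' : RR r L (bII N D ε β) (fun l j => Sf (l - (D + 1)) ((j - ε * 2 ^ D) / 2 ^ (D + 1)))
        (Lab N) ^ (1 / r) ≤ (C2 * (2 : ℝ) ^ (-(D : ℝ) * (r / 2)) * Λ) ^ (1 / r) :=
      Real.rpow_le_rpow (RR_nonneg _ _ _ _ _) hRR (by positivity)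
    have e3 : (C2 * (2 : ℝ) ^ (-(D : ℝ) * (r / 2)) * Λ) ^ (1 / r) =
        C2 ^ (1 / r) * (2 : ℝ) ^ (-(D : ℝ) / 2) * Λ ^ (1 / r) := by
      rw [Real.mul_rpow (by positivity) hΛ, Real.mul_rpow hC2.le (by positivity),
        ← Real.rpow_mul (by norm_num)]
      congr 3
      field_simp
    rw [e3] at hRR'
    refine (mul_le_mul_of_nonneg_left hRR' ?_).trans (le_of_eq (by ring))
    have := nrmP_nonneg (r / (r - 1)) c
    positivity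

theorem spii_of (h1 : SCore) (h2 : SSumII) (h3 : STII) : SPII := by
  intro r hr1 hr2
  obtain ⟨C1, hC1, g1⟩ := h1 r hr1 hr2
  obtain ⟨C2, hC2, g2⟩ := h2 r hr1 hr2
  refine ⟨16 * (C1 * C2 ^ (1 / r)), by positivity, ?_⟩
  intro c L hL N D β Sf lam Λ hst
  have hΛ := hst.nonneg_mass
  set Q : ℕ → ℝ → ℂ := fun ε x => ∑ l ∈ Ico 3 L, if D + 1 ≤ l ∧ l - (D + 1) < N then
    ∑ i ∈ range (2 ^ (l - (D + 1))), ((1 / 2 ^ l : ℝ) : ℂ) * β (l - (D + 1)) i *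
      dl c l (vs (pt l x ((i : ℝ) / 2 ^ (l - (D + 1)) + (ε : ℝ) / 2 ^ (l - (D + 1) + 1)))) else 0
    with hQ
  have hQi : ∀ ε, IntegrableOn (Q ε) (Set.Ioi 0) := by
    intro ε
    refine integrable_finsetSum _ fun l _ => ?_
    split_ifs
    · refine integrable_finsetSum _ fun i _ => ?_
      exact ((h3 c l 0 0).1 _).const_mul _
    · exact integrable_zero _ _ _
  have hQb : ∀ ε, ε ≤ 2 → ∀ x ∈ Set.Ioi (0 : ℝ), ‖Q ε x‖ ≤ Real.exp (-x / 4) *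
      (C1 * C2 ^ (1 / r) * ((2 : ℝ) ^ (-(D : ℝ) / 2) * nrmP (r / (r - 1)) c * Λ ^ (1 / r))) :=
    fun ε hε x hx => core_II hr1 hC1 hC2 g1 g2 c L hL N D ε hε β Sf lam Λ hst x
      (by have := Set.mem_Ioi.1 hx; linarith)
  set K := C1 * C2 ^ (1 / r) * ((2 : ℝ) ^ (-(D : ℝ) / 2) * nrmP (r / (r - 1)) c * Λ ^ (1 / r))
    with hK
  have hrep : (∑ l ∈ Ico 3 L, if D + 1 ≤ l ∧ l - (D + 1) < N then
      ∑ i ∈ range (2 ^ (l - (D + 1))), β (l - (D + 1)) i * HI c l (l - (D + 1)) i else 0) =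
      Complex.I * ∫ x in Set.Ioi (0 : ℝ), (2 * Q 1 x - Q 0 x - Q 2 x) := by
    have hin : ∀ l, IntegrableOn (fun x : ℝ => if D + 1 ≤ l ∧ l - (D + 1) < N then
        ∑ i ∈ range (2 ^ (l - (D + 1))), ((1 / 2 ^ l : ℝ) : ℂ) * β (l - (D + 1)) i *
        (2 * dl c l (vs (pt l x ((i : ℝ) / 2 ^ (l - (D + 1)) + 1 / 2 ^ (l - (D + 1) + 1)))) -
        dl c l (vs (pt l x ((i : ℝ) / 2 ^ (l - (D + 1))))) -
        dl c l (vs (pt l x (((i : ℝ) + 1) / 2 ^ (l - (D + 1)))))) else 0) (Set.Ioi 0) := by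
      intro l
      split_ifs
      · refine integrable_finsetSum _ fun i _ => ?_
        exact (((((h3 c l 0 0).1 _).const_mul 2).sub ((h3 c l 0 0).1 _)).sub
          ((h3 c l 0 0).1 _)).const_mul _
      · exact integrable_zero _ _ _
    have e1 : ∀ l, (if D + 1 ≤ l ∧ l - (D + 1) < N then
        ∑ i ∈ range (2 ^ (l - (D + 1))), β (l - (D + 1)) i * HI c l (l - (D + 1)) i else 0) =
        Complex.I * ∫ x in Set.Ioi (0 : ℝ), if D + 1 ≤ l ∧ l - (D + 1) < N then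
        ∑ i ∈ range (2 ^ (l - (D + 1))), ((1 / 2 ^ l : ℝ) : ℂ) * β (l - (D + 1)) i *
        (2 * dl c l (vs (pt l x ((i : ℝ) / 2 ^ (l - (D + 1)) + 1 / 2 ^ (l - (D + 1) + 1)))) -
        dl c l (vs (pt l x ((i : ℝ) / 2 ^ (l - (D + 1))))) -
        dl c l (vs (pt l x (((i : ℝ) + 1) / 2 ^ (l - (D + 1)))))) else 0 := by
      intro l
      by_cases hc : D + 1 ≤ l ∧ l - (D + 1) < N
      · simp only [if_pos hc]
        have hii : ∀ i : ℕ, Integrable (fun x : ℝ => ((1 / 2 ^ l : ℝ) : ℂ) * β (l - (D + 1)) i *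
            (2 * dl c l (vs (pt l x ((i : ℝ) / 2 ^ (l - (D + 1)) + 1 / 2 ^ (l - (D + 1) + 1)))) -
            dl c l (vs (pt l x ((i : ℝ) / 2 ^ (l - (D + 1))))) -
            dl c l (vs (pt l x (((i : ℝ) + 1) / 2 ^ (l - (D + 1)))))))
            (volume.restrict (Set.Ioi 0)) := fun i =>
          (((((h3 c l 0 0).1 _).const_mul 2).sub ((h3 c l 0 0).1 _)).sub
            ((h3 c l 0 0).1 _)).const_mul _
        rw [integral_finsetSum _ fun i _ => hii i, Finset.mul_sum]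
        refine Finset.sum_congr rfl fun i _ => ?_
        rw [integral_const_mul, (h3 c l (l - (D + 1)) i).2]
        ring
      · simp only [if_neg hc]
        simp
    rw [Finset.sum_congr rfl fun l _ => e1 l, ← Finset.mul_sum,
      ← integral_finsetSum _ fun l _ => hin l]
    congr 1
    refine setIntegral_congr_fun measurableSet_Ioi fun x _ => ?_
    simp only [hQ]
    rw [Finset.mul_sum, ← Finset.sum_sub_distrib, ← Finset.sum_sub_distrib]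
    refine Finset.sum_congr rfl fun l _ => ?_
    by_cases hc : D + 1 ≤ l ∧ l - (D + 1) < N
    · simp only [if_pos hc]
      rw [Finset.mul_sum, ← Finset.sum_sub_distrib, ← Finset.sum_sub_distrib]
      refine Finset.sum_congr rfl fun i _ => ?_
      have t0 : (i : ℝ) / 2 ^ (l - (D + 1)) + ((0 : ℕ) : ℝ) / 2 ^ (l - (D + 1) + 1) =
        (i : ℝ) / 2 ^ (l - (D + 1)) := by simp
      have t1 : (i : ℝ) / 2 ^ (l - (D + 1)) + ((1 : ℕ) : ℝ) / 2 ^ (l - (D + 1) + 1) =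
        (i : ℝ) / 2 ^ (l - (D + 1)) + 1 / 2 ^ (l - (D + 1) + 1) := by simp
      have t2 : (i : ℝ) / 2 ^ (l - (D + 1)) + ((2 : ℕ) : ℝ) / 2 ^ (l - (D + 1) + 1) =
        ((i : ℝ) + 1) / 2 ^ (l - (D + 1)) := by
        rw [pow_succ]; push_cast; field_simp
      rw [t0, t1, t2]
      ring
    · simp only [if_neg hc]
      simp
  rw [hrep, norm_mul, Complex.norm_I, one_mul]
  refine (norm_integral_le_integral_norm _).trans ?_
  have hint : ∫ x in Set.Ioi (0 : ℝ), 4 * (Real.exp (-x / 4) * K) = 16 * K := by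
    rw [integral_const_mul, integral_mul_const]
    have := integral_exp_mul_Ioi (a := -(1 / 4 : ℝ)) (by norm_num) 0
    have e : ∀ x : ℝ, Real.exp (-x / 4) = Real.exp (-(1 / 4) * x) := fun x => by congr 1; ring
    simp_rw [e]
    rw [this]
    simp
    ring
  have hexpi : IntegrableOn (fun x : ℝ => Real.exp (-x / 4)) (Set.Ioi 0) := by
    have := integrableOn_exp_mul_Ioi (a := -(1 / 4 : ℝ)) (by norm_num) 0
    refine this.congr_fun (fun x _ => ?_) measurableSet_Ioi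
    simp only
    congr 1; ring
  calc ∫ x in Set.Ioi (0 : ℝ), ‖2 * Q 1 x - Q 0 x - Q 2 x‖
      ≤ ∫ x in Set.Ioi (0 : ℝ), 4 * (Real.exp (-x / 4) * K) := by
        refine setIntegral_mono_on ?_ ((hexpi.mul_const K).const_mul 4) measurableSet_Ioi
          fun x hx => ?_
        · exact ((((hQi 1).const_mul 2).sub (hQi 0)).sub (hQi 2)).norm
        · have a0 := hQb 0 (by norm_num) x hx
          have a1 := hQb 1 (by norm_num) x hx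
          have a2 := hQb 2 (by norm_num) x hx
          calc ‖2 * Q 1 x - Q 0 x - Q 2 x‖ ≤ ‖2 * Q 1 x - Q 0 x‖ + ‖Q 2 x‖ := norm_sub_le _ _
            _ ≤ (‖2 * Q 1 x‖ + ‖Q 0 x‖) + ‖Q 2 x‖ := by gcongr; exact norm_sub_le _ _
            _ = (2 * ‖Q 1 x‖ + ‖Q 0 x‖) + ‖Q 2 x‖ := by rw [norm_mul]; simp
            _ ≤ 4 * (Real.exp (-x / 4) * K) := by linarith
    _ = 16 * K := hint
    _ = 16 * (C1 * C2 ^ (1 / r)) * (2 : ℝ) ^ (-(D : ℝ) / 2) * nrmP (r / (r - 1)) c *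
        Λ ^ (1 / r) := by rw [hK]; ring

end Pool.Agent.W278.EM
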