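import Pool.Agent.W278.EM.Core

set_option autoImplicit false
open MeasureTheory Finset
open scoped ComplexConjugate

namespace Pool.Agent.W278.EM

open Pool.Agent.Helper873.OneVar Pool.Agent.Helper873.Product Pool.Agent.Helper873.Monomial
  Pool.Agent.Helper873.Alg Pool.Agent.Helper873.NT Pool.Agent.Helper873.Embed

lemma continuous_tr (c : ℕ →₀ ℂ) (n : ℕ) : Continuous fun z : TT => poly c (tr n (zz z)) := by
  refine (continuous_poly c).comp (continuous_pi fun k => ?_)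
  unfold tr
  by_cases hk : k < n
  · simp only [hk, if_true]; exact (continuous_apply k).comp continuous_zz
  · simp only [hk, if_false]; exact continuous_const

/-- telescoping of the weighted square functions -/
lemma telescope (c : ℕ →₀ ℂ) (T : ℕ → Finset ℕ) (B : ℕ → ℕ → (ℕ →₀ ℂ))
    (hE : ∀ l, ∀ W : TT → ℝ, Continuous W → DepT (nn l) W →
    ∫ z, W z * ‖poly c (tr (nn (l + 1)) (zz z))‖ ^ 2 ∂tor =
      ∫ z, W z * ‖poly c (tr (nn l) (zz z))‖ ^ 2 ∂tor +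
        ∫ z, W z * ∑ n ∈ T l, ‖poly (B l n) (zz z)‖ ^ 2 ∂tor)
    (a : ℕ) (τ : ℕ → TT → ℝ) (hτ : ∀ l, Continuous (τ l)) (hd : ∀ l, DepT (nn l) (τ l))
    (φ : ℝ → ℝ) (hφ : Continuous φ) (hmono : Monotone φ) (h0 : ∀ y, 0 ≤ φ y) (L : ℕ) :
    ∑ l ∈ Ico a L, ∫ z, φ (∑ i ∈ Ico a (l + 1), τ i z ^ 2) *
        Real.sqrt (∑ n ∈ T l, ‖poly (B l n) (zz z)‖ ^ 2) ^ 2 ∂tor ≤
      ∫ z, φ (∑ i ∈ Ico a L, τ i z ^ 2) * ‖poly c (tr (nn L) (zz z))‖ ^ 2 ∂tor := by
  induction L with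
  | zero =>
    rw [Finset.Ico_eq_empty (by omega), Finset.sum_empty]
    exact integral_nonneg fun z => mul_nonneg (h0 _) (by positivity)
  | succ L ih =>
    by_cases hL : a ≤ L
    · rw [Finset.sum_Ico_succ_top hL]
      set W : TT → ℝ := fun z => φ (∑ i ∈ Ico a (L + 1), τ i z ^ 2) with hW
      have hWc : Continuous W := hφ.comp (continuous_finsetSum _ fun i _ => (hτ i).pow 2)
      have hWd : DepT (nn L) W := by
        intro z z' hz
        simp only [hW]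
        congr 1
        refine Finset.sum_congr rfl fun i hi => ?_
        rw [hd i z z' fun k hk => hz k (lt_of_lt_of_le hk (nn_mono (by
          have := (Finset.mem_Ico.1 hi).2; omega)))]
      have h1 := hE L W hWc hWd
      have h2 : ∀ z : TT, Real.sqrt (∑ n ∈ T L, ‖poly (B L n) (zz z)‖ ^ 2) ^ 2 =
          ∑ n ∈ T L, ‖poly (B L n) (zz z)‖ ^ 2 := fun z =>
        Real.sq_sqrt (Finset.sum_nonneg fun _ _ => by positivity)
      have h3 : ∫ z, φ (∑ i ∈ Ico a L, τ i z ^ 2) * ‖poly c (tr (nn L) (zz z))‖ ^ 2 ∂tor ≤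
          ∫ z, W z * ‖poly c (tr (nn L) (zz z))‖ ^ 2 ∂tor := by
        refine integral_mono ?_ ?_ fun z => ?_
        · exact integrable_of_cont ((hφ.comp (continuous_finsetSum _ fun i _ =>
            (hτ i).pow 2)).mul ((continuous_tr c _).norm.pow 2))
        · exact integrable_of_cont (hWc.mul ((continuous_tr c _).norm.pow 2))
        · refine mul_le_mul_of_nonneg_right (hmono ?_) (by positivity)
          rw [Finset.sum_Ico_succ_top hL]
          have := sq_nonneg (τ L z)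
          linarith
      simp_rw [h2]
      have h4 : ∫ z, φ (∑ i ∈ Ico a (L + 1), τ i z ^ 2) *
          ∑ n ∈ T L, ‖poly (B L n) (zz z)‖ ^ 2 ∂tor =
          ∫ z, W z * ∑ n ∈ T L, ‖poly (B L n) (zz z)‖ ^ 2 ∂tor := rfl
      rw [h4]
      have h5 : ∫ z, φ (∑ i ∈ Ico a (L + 1), τ i z ^ 2) *
          ‖poly c (tr (nn (L + 1)) (zz z))‖ ^ 2 ∂tor =
          ∫ z, W z * ‖poly c (tr (nn (L + 1)) (zz z))‖ ^ 2 ∂tor := rfl
      rw [h5, h1]
      linarith
    · rw [Finset.Ico_eq_empty (by omega), Finset.sum_empty]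
      exact integral_nonneg fun z => mul_nonneg (h0 _) (by positivity)

theorem score_of (hLS : SLS) (hRep : SRep) (hK : SK2) (hN1 : SN1) (hG1 : SG1) (hG2 : SG2)
    (hE : SExp) (hWL : SWL) (hML : SML) : SCore := by
  intro r hr1 hr2
  set b : ℝ := (2 - r) / r with hb
  have hb0 : 0 < b := div_pos (by linarith) (by linarith)
  have h2b : 2 / b = 2 * r / (2 - r) := by rw [hb]; field_simp
  obtain ⟨C0, hC0, hblk⟩ := block_bound hLS hRep
  obtain ⟨CK, hCK, hK⟩ := hK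
  obtain ⟨CN, hCN, hN1⟩ := hN1
  obtain ⟨CG, hCG, hG2⟩ := hG2 b hb0
  obtain ⟨CW, hCW, hWL⟩ := hWL r hr1 hr2
  -- constants
  set A1 : ℝ := CN ^ (1 - r / 2) with hA1
  set A2 : ℝ := C0 * CK * CG ^ 2 with hA2
  have hA1p : 0 < A1 := Real.rpow_pos_of_pos hCN _
  have hA2p : 0 < A2 := by positivity
  refine ⟨CW * (A1 * A2 ^ (r / 2)) ^ (1 / r) * Real.exp (1 / 32), by positivity, ?_⟩
  intro c L hL x hx θ β Sl La hyp
  choose T B hT1 hT2 hT3 hT4 using fun l => hE c l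
  -- square functions
  set s : ℕ → ℕ → ℂ := fun l j => pt l x (θ l + (j : ℝ) / 2 ^ l) with hs
  have hsre : ∀ l j, 0 < (s l j).re := fun l j => pt_re_pos _ _ _ hx
  set g : ℕ × ℕ → TT → ℝ := fun S z => ‖gb b S.1 (S.2 / 2 ^ S.1) (zz z)‖ with hg
  set β' : ℕ → ℕ → ℂ := fun l j => β l j with hβ'
  set q : ℕ → ℕ → TT → ℝ := fun l j z => C0 * Real.exp (-x) * (1 / 2 ^ l) ^ 2 * ‖β l j‖ ^ 2 *
    (‖kc (nn l) (vs (s l j)) z‖ ^ 2 *
      (‖gb b (Sl l j).1 ((Sl l j).2 / 2 ^ (Sl l j).1) (zz z)‖ ^ 2 /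
        ‖gb b (Sl l j).1 ((Sl l j).2 / 2 ^ (Sl l j).1) (vs (s l j))‖ ^ 2)) with hq
  have hqc : ∀ l j, Continuous (q l j) := fun l j => by
    refine continuous_const.mul ?_
    exact ((continuous_kc _ _ (norm_vs_lt _ (hsre l j))).norm.pow 2).mul
      ((((continuous_gb _ _ _).comp continuous_zz).norm.pow 2).div_const _)
  have hq0 : ∀ l j z, 0 ≤ q l j z := fun l j z => by simp only [hq]; positivity
  set τ : ℕ → TT → ℝ := fun l z => Real.sqrt (∑ j ∈ range (2 ^ l + 1), q l j z) with hτ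
  have hτc : ∀ l, Continuous (τ l) := fun l =>
    Real.continuous_sqrt.comp (continuous_finsetSum _ fun j _ => hqc l j)
  have hτsq : ∀ l z, τ l z ^ 2 = ∑ j ∈ range (2 ^ l + 1), q l j z := fun l z =>
    Real.sq_sqrt (Finset.sum_nonneg fun j _ => hq0 l j z)
  have hτd : ∀ l, DepT (nn l) (τ l) := by
    intro l z z' hz
    simp only [hτ]
    congr 1
    refine Finset.sum_congr rfl fun j _ => ?_
    simp only [hq]
    by_cases hβ : β l j = 0
    · simp [hβ]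
    · rw [dep_kc _ hz, dep_gb b _ (hyp l j hβ).2.1 _ _ (zz_congr hz)]
  set D : ℕ → TT → ℝ := fun l z => Real.sqrt (∑ n ∈ T l, ‖poly (B l n) (zz z)‖ ^ 2) with hD
  have hDc : ∀ l, Continuous (D l) := fun l =>
    Real.continuous_sqrt.comp (continuous_finsetSum _ fun n _ =>
      (((continuous_poly _).comp continuous_zz).norm.pow 2))
  set G : TT → ℝ := fun z => ‖poly c (zz z)‖ with hG
  have hGc : Continuous G := ((continuous_poly c).comp continuous_zz).norm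
  -- the blocks
  have hstep1 : ‖∑ l ∈ Ico 3 L, ∑ j ∈ range (2 ^ l + 1),
      ((1 / 2 ^ l : ℝ) : ℂ) * β l j * dl c l (vs (pt l x (θ l + (j : ℝ) / 2 ^ l)))‖ ≤
      ∑ l ∈ Ico 3 L, ∫ z, D l z * τ l z ∂tor := by
    refine (norm_sum_le _ _).trans (Finset.sum_le_sum fun l hl => ?_)
    exact hblk c l (T l) (B l) (Finset.mem_Ico.1 hl).1 (hT1 l) (hT2 l) (hT3 l) b x (θ l) (β l)
      (Sl l) hx fun j hj => (hyp l j hj).2.1
  have hstep2 := hWL 3 L D τ G hDc hτc hGc (fun _ _ => Real.sqrt_nonneg _)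
    (fun _ _ => Real.sqrt_nonneg _) (fun _ => norm_nonneg _) (by
      intro φ hφ hm h0
      have := telescope c T B hT4 3 τ hτc hτd φ hφ hm h0 L
      simp_rw [hL] at this
      exact this)
  -- the moment
  set I : Finset (ℕ × ℕ) := ((Ico 3 L) ×ˢ (range (2 ^ L + 1))).filter
    fun i => i.2 < 2 ^ i.1 + 1 ∧ β i.1 i.2 ≠ 0 with hI
  set K : ℕ × ℕ → TT → ℝ := fun i z => C0 * Real.exp (-x) * (1 / 2 ^ i.1) ^ 2 * ‖β i.1 i.2‖ ^ 2 *
    (‖kc (nn i.1) (vs (s i.1 i.2)) z‖ ^ 2 /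
      ‖gb b (Sl i.1 i.2).1 ((Sl i.1 i.2).2 / 2 ^ (Sl i.1 i.2).1) (vs (s i.1 i.2))‖ ^ 2) with hKd
  have hconv : ∀ f : ℕ → ℕ → ℝ, (∀ l j, β l j = 0 → f l j = 0) →
      ∑ l ∈ Ico 3 L, ∑ j ∈ range (2 ^ l + 1), f l j = ∑ i ∈ I, f i.1 i.2 := by
    intro f hf
    have h1 : ∀ l ∈ Ico 3 L, ∑ j ∈ range (2 ^ l + 1), f l j =
        ∑ j ∈ range (2 ^ L + 1), if j < 2 ^ l + 1 ∧ β l j ≠ 0 then f l j else 0 := by
      intro l hl
      have hlL : l < L := (Finset.mem_Ico.1 hl).2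
      have hsub : range (2 ^ l + 1) ⊆ range (2 ^ L + 1) := by
        refine Finset.range_mono ?_
        have := Nat.pow_le_pow_right (show 0 < 2 by norm_num) hlL.le
        omega
      rw [← Finset.sum_subset hsub]
      · refine Finset.sum_congr rfl fun j hj => ?_
        by_cases hβ : β l j = 0
        · simp [hβ, hf l j hβ]
        · rw [if_pos ⟨Finset.mem_range.1 hj, hβ⟩]
      · intro j _ hj
        rw [if_neg]
        rintro ⟨h, -⟩
        exact hj (Finset.mem_range.2 h)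
    rw [Finset.sum_congr rfl h1, hI, Finset.sum_filter, Finset.sum_product]
  have hstep3 : ∀ z, ∑ i ∈ Ico 3 L, τ i z ^ 2 = ∑ i ∈ I, g (Sl i.1 i.2) z ^ 2 * K i z := by
    intro z
    simp_rw [hτsq]
    rw [hconv (fun l j => q l j z) (fun l j h => by simp [hq, h])]
    refine Finset.sum_congr rfl fun i _ => ?_
    simp only [hq, hg, hKd]
    ring
  have hKc : ∀ i, Continuous (K i) := fun i =>
    continuous_const.mul (((continuous_kc _ _ (norm_vs_lt _ (hsre _ _))).norm.pow 2).div_const _)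
  have hK0 : ∀ i z, 0 ≤ K i z := fun i z => by simp only [hKd]; positivity
  have hmem : ∀ i ∈ I, β i.1 i.2 ≠ 0 := fun i hi => (Finset.mem_filter.1 hi).2.2
  have hstep4 := hML r hr1 hr2 I La (fun i => Sl i.1 i.2) g K
    (fun S => ((continuous_gb _ _ _).comp continuous_zz).norm) hKc (fun _ _ => norm_nonneg _) hK0
    (fun i hi => (hyp _ _ (hmem i hi)).1)
  -- bounds of the pieces
  have hb1 : ∀ S ∈ La, (∫ z, g S z ^ (2 * r / (2 - r)) ∂tor) ^ (1 - r / 2) ≤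
      A1 * (2 : ℝ) ^ (-(S.1 : ℝ) * (1 - r / 2)) := by
    intro S _
    have h1 := hG1 b S.1 (S.2 / 2 ^ S.1) hb0
    rw [h2b] at h1
    have h2 : ∫ z, g S z ^ (2 * r / (2 - r)) ∂tor ≤ CN / 2 ^ S.1 := h1.trans (hN1 S.1)
    have h3 : 0 ≤ ∫ z, g S z ^ (2 * r / (2 - r)) ∂tor :=
      integral_nonneg fun z => Real.rpow_nonneg (norm_nonneg _) _
    refine (Real.rpow_le_rpow h3 h2 (by linarith)).trans (le_of_eq ?_)
    rw [Real.div_rpow hCN.le (by positivity), ← Real.rpow_natCast, ← Real.rpow_mul (by norm_num),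
      div_eq_mul_inv, ← Real.rpow_neg (by norm_num)]
    congr 2
    ring
  have hexp : Real.exp (-x) * Real.exp (x / 8) ^ 2 = Real.exp (-3 * x / 4) := by
    rw [sq, ← Real.exp_add, ← Real.exp_add]; congr 1; ring
  have hb2 : ∀ i ∈ I, ∫ z, K i z ∂tor ≤ A2 * Real.exp (-3 * x / 4) * (‖β i.1 i.2‖ ^ 2 / 2 ^ i.1) := by
    intro i hi
    obtain ⟨-, hle, hd⟩ := hyp _ _ (hmem i hi)
    have h1 := hK i.1 x (θ i.1 + (i.2 : ℝ) / 2 ^ i.1) hx
    have h2 := hG2 i.1 (Sl i.1 i.2).1 x (θ i.1 + (i.2 : ℝ) / 2 ^ i.1)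
      ((Sl i.1 i.2).2 / 2 ^ (Sl i.1 i.2).1) hle hx hd
    have hsi : s i.1 i.2 = pt i.1 x (θ i.1 + (i.2 : ℝ) / 2 ^ i.1) := rfl
    simp only [hKd]
    rw [integral_const_mul, integral_div, hsi]
    set γ : ℝ := ‖gb b (Sl i.1 i.2).1 ((Sl i.1 i.2).2 / 2 ^ (Sl i.1 i.2).1)
      (vs (pt i.1 x (θ i.1 + (i.2 : ℝ) / 2 ^ i.1)))‖ with hγ
    have hγ0 : 0 < γ := norm_pos_iff.2 (gb_ne_zero _ _ _ _)
    set κ : ℝ := ∫ z, ‖kc (nn i.1) (vs (pt i.1 x (θ i.1 + (i.2 : ℝ) / 2 ^ i.1))) z‖ ^ 2 ∂tor with hκ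
    have h3 : κ / γ ^ 2 ≤ CK * 2 ^ i.1 * (CG * Real.exp (x / 8)) ^ 2 := by
      rw [div_le_iff₀ (by positivity)]
      have h4 : 1 ≤ (CG * Real.exp (x / 8) * γ) ^ 2 := one_le_pow₀ h2
      calc κ ≤ CK * 2 ^ i.1 * 1 := by linarith
        _ ≤ CK * 2 ^ i.1 * (CG * Real.exp (x / 8) * γ) ^ 2 := by
            refine mul_le_mul_of_nonneg_left h4 (by positivity)
        _ = _ := by ring
    calc C0 * Real.exp (-x) * (1 / 2 ^ i.1) ^ 2 * ‖β i.1 i.2‖ ^ 2 * (κ / γ ^ 2)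
        ≤ C0 * Real.exp (-x) * (1 / 2 ^ i.1) ^ 2 * ‖β i.1 i.2‖ ^ 2 *
          (CK * 2 ^ i.1 * (CG * Real.exp (x / 8)) ^ 2) :=
          mul_le_mul_of_nonneg_left h3 (by positivity)
      _ = C0 * CK * CG ^ 2 * (Real.exp (-x) * Real.exp (x / 8) ^ 2) *
          (‖β i.1 i.2‖ ^ 2 / 2 ^ i.1) := by
          field_simp
      _ = _ := by rw [hexp]
  have hsumS : ∀ S : ℕ × ℕ, ∑ i ∈ I.filter (fun i => Sl i.1 i.2 = S), ‖β i.1 i.2‖ ^ 2 / 2 ^ i.1 =
      ∑ l ∈ Ico 3 L, ∑ j ∈ range (2 ^ l + 1), if Sl l j = S then ‖β l j‖ ^ 2 / 2 ^ l else 0 := by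
    intro S
    rw [hconv (fun l j => if Sl l j = S then ‖β l j‖ ^ 2 / 2 ^ l else 0)
      (fun l j h => by simp [h]), Finset.sum_filter]
  have hmoment : ∫ z, (∑ i ∈ Ico 3 L, τ i z ^ 2) ^ (r / 2) ∂tor ≤
      A1 * (A2 * Real.exp (-3 * x / 4)) ^ (r / 2) * RR r L β Sl La := by
    simp_rw [hstep3]
    refine hstep4.trans ?_
    unfold RR
    rw [Finset.mul_sum]
    refine Finset.sum_le_sum fun S hS => ?_
    have h1 : ∑ i ∈ I.filter (fun i => Sl i.1 i.2 = S), ∫ z, K i z ∂tor ≤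
        A2 * Real.exp (-3 * x / 4) *
          ∑ l ∈ Ico 3 L, ∑ j ∈ range (2 ^ l + 1),
            if Sl l j = S then ‖β l j‖ ^ 2 / 2 ^ l else 0 := by
      rw [← hsumS, Finset.mul_sum]
      exact Finset.sum_le_sum fun i hi => hb2 i (Finset.mem_filter.1 hi).1
    have h0 : 0 ≤ ∑ i ∈ I.filter (fun i => Sl i.1 i.2 = S), ∫ z, K i z ∂tor :=
      Finset.sum_nonneg fun i _ => integral_nonneg (hK0 i)
    have h2 := Real.rpow_le_rpow h0 h1 (show 0 ≤ r / 2 by linarith)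
    rw [Real.mul_rpow (by positivity) (Finset.sum_nonneg fun l _ => Finset.sum_nonneg fun j _ => by
      split_ifs <;> positivity)] at h2
    calc (∫ z, g S z ^ (2 * r / (2 - r)) ∂tor) ^ (1 - r / 2) *
          (∑ i ∈ I.filter (fun i => Sl i.1 i.2 = S), ∫ z, K i z ∂tor) ^ (r / 2)
        ≤ (A1 * (2 : ℝ) ^ (-(S.1 : ℝ) * (1 - r / 2))) *
          ((A2 * Real.exp (-3 * x / 4)) ^ (r / 2) *
          (∑ l ∈ Ico 3 L, ∑ j ∈ range (2 ^ l + 1),
            if Sl l j = S then ‖β l j‖ ^ 2 / 2 ^ l else 0) ^ (r / 2)) :=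
          mul_le_mul (hb1 S hS) h2 (Real.rpow_nonneg h0 _) (by positivity)
      _ = _ := by ring
  -- conclusion
  have hRR0 : 0 ≤ RR r L β Sl La := by
    unfold RR
    refine Finset.sum_nonneg fun S _ => mul_nonneg (by positivity) (Real.rpow_nonneg ?_ _)
    exact Finset.sum_nonneg fun l _ => Finset.sum_nonneg fun j _ => by
      split_ifs <;> positivity
  have hm0 : 0 ≤ ∫ z, (∑ i ∈ Ico 3 L, τ i z ^ 2) ^ (r / 2) ∂tor :=
    integral_nonneg fun z => Real.rpow_nonneg (Finset.sum_nonneg fun _ _ => by positivity) _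
  have hfin : (∫ z, (∑ i ∈ Ico 3 L, τ i z ^ 2) ^ (r / 2) ∂tor) ^ (1 / r) ≤
      (A1 * A2 ^ (r / 2)) ^ (1 / r) * Real.exp (1 / 32) * Real.exp (-x / 4) *
        RR r L β Sl La ^ (1 / r) := by
    have h1 := Real.rpow_le_rpow hm0 hmoment (show 0 ≤ 1 / r by positivity)
    refine h1.trans ?_
    rw [Real.mul_rpow (by positivity) hRR0]
    refine mul_le_mul_of_nonneg_right ?_ (Real.rpow_nonneg hRR0 _)
    rw [Real.mul_rpow hA2p.le (Real.exp_pos _).le, ← mul_assoc,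
      Real.mul_rpow (by positivity) (by positivity), mul_assoc]
    refine mul_le_mul_of_nonneg_left ?_ (by positivity)
    rw [← Real.exp_mul, ← Real.exp_mul, ← Real.exp_add]
    refine Real.exp_le_exp.2 ?_
    have hr0 : r ≠ 0 := by linarith
    have h5 : -3 * x / 4 * (r / 2) * (1 / r) = -3 * x / 8 := by field_simp; ring
    rw [h5]
    linarith
  have hnrm : (∫ z, G z ^ (r / (r - 1)) ∂tor) ^ ((r - 1) / r) = nrmP (r / (r - 1)) c := by
    unfold nrmP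
    rw [one_div_div]
  have hn0 : 0 ≤ nrmP (r / (r - 1)) c := by
    unfold nrmP
    exact Real.rpow_nonneg (integral_nonneg fun z => Real.rpow_nonneg (norm_nonneg _) _) _
  rw [hnrm] at hstep2
  calc _ ≤ ∑ l ∈ Ico 3 L, ∫ z, D l z * τ l z ∂tor := hstep1
    _ ≤ _ := hstep2
    _ ≤ CW * nrmP (r / (r - 1)) c * ((A1 * A2 ^ (r / 2)) ^ (1 / r) * Real.exp (1 / 32) *
        Real.exp (-x / 4) * RR r L β Sl La ^ (1 / r)) :=
        mul_le_mul_of_nonneg_left hfin (by positivity)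
    _ = _ := by ring

end Pool.Agent.W278.EM
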