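import Pool.Agent.W278.EM.ML

set_option autoImplicit false
open MeasureTheory Finset
open scoped ComplexConjugate

namespace Pool.Agent.W278.EM

open Pool.Agent.Helper873.OneVar Pool.Agent.Helper873.Product Pool.Agent.Helper873.Monomial
  Pool.Agent.Helper873.Alg Pool.Agent.Helper873.NT Pool.Agent.Helper873.Embed

/-- concavity of a power -/
lemma pow_concave (q s t : ℝ) (h0 : 0 < q) (h1 : q < 1) (hs : 0 < s) (ht : 0 ≤ t) :
    q * ((s + t) ^ (q - 1) * t) ≤ (s + t) ^ q - s ^ q := by
  have hst : 0 < s + t := by linarith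
  -- Bernoulli: (s/(s+t))^q ≤ 1 + q (s/(s+t) - 1)
  have h2 : (s / (s + t)) ^ q ≤ 1 + q * (s / (s + t) - 1) := by
    have := rpow_one_add_le_one_add_mul_self (s := s / (s + t) - 1) (by
      have : 0 ≤ s / (s + t) := by positivity
      linarith) h0.le h1.le
    rw [add_sub_cancel] at this
    exact this
  rw [Real.div_rpow hs.le hst.le, div_le_iff₀ (Real.rpow_pos_of_pos hst _)] at h2
  have h3 : (s + t) ^ q = (s + t) ^ (q - 1) * (s + t) := by
    rw [Real.rpow_sub_one hst.ne']; field_simp
  have h4 : (1 + q * (s / (s + t) - 1)) * (s + t) ^ q =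
      (s + t) ^ q - q * ((s + t) ^ (q - 1) * t) := by
    rw [h3]; field_simp; ring
  rw [h4] at h2
  linarith

lemma telescope_pow (q η : ℝ) (h0 : 0 < q) (h1 : q < 1) (hη : 0 < η) (a L : ℕ) (u : ℕ → ℝ)
    (hu : ∀ i, 0 ≤ u i) :
    ∑ l ∈ Ico a L, (∑ i ∈ Ico a (l + 1), u i + η) ^ (q - 1) * u l ≤
      1 / q * (∑ i ∈ Ico a L, u i + η) ^ q := by
  induction L with
  | zero =>
    rw [Finset.Ico_eq_empty (by omega)]
    simp only [Finset.sum_empty, zero_add]
    positivity
  | succ L ih =>
    by_cases hL : a ≤ L
    · rw [Finset.sum_Ico_succ_top hL]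
      have hs : 0 < ∑ i ∈ Ico a L, u i + η := by
        have := Finset.sum_nonneg fun i (_ : i ∈ Ico a L) => hu i
        linarith
      have h2 := pow_concave q _ (u L) h0 h1 hs (hu L)
      have h3 : ∑ i ∈ Ico a (L + 1), u i + η = ∑ i ∈ Ico a L, u i + η + u L := by
        rw [Finset.sum_Ico_succ_top hL]; ring
      rw [h3]
      have h4 : (∑ i ∈ Ico a L, u i + η + u L) ^ (q - 1) * u L ≤
          1 / q * ((∑ i ∈ Ico a L, u i + η + u L) ^ q - (∑ i ∈ Ico a L, u i + η) ^ q) := by
        rw [one_div, le_inv_mul_iff₀ h0]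
        exact h2
      have h5 : 1 / q * ((∑ i ∈ Ico a L, u i + η + u L) ^ q - (∑ i ∈ Ico a L, u i + η) ^ q) =
        1 / q * (∑ i ∈ Ico a L, u i + η + u L) ^ q - 1 / q * (∑ i ∈ Ico a L, u i + η) ^ q := by ring
      linarith
    · rw [Finset.Ico_eq_empty (by omega)]
      simp only [Finset.sum_empty, zero_add]
      positivity

theorem swl : SWL := by
  intro r hr1 hr2
  refine ⟨Real.sqrt (2 / r), Real.sqrt_pos.2 (by positivity), ?_⟩
  intro a L D τ G hD hτ hG hD0 hτ0 hG0 hyp
  have hr0 : 0 < r := by linarith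
  set y : ℕ → TT → ℝ := fun l z => ∑ i ∈ Ico a l, τ i z ^ 2 with hy
  have hyc : ∀ l, Continuous (y l) := fun l => continuous_finsetSum _ fun i _ => (hτ i).pow 2
  have hy0 : ∀ l z, 0 ≤ y l z := fun l z => Finset.sum_nonneg fun _ _ => by positivity
  set p : ℝ := r / (r - 1) with hp
  have hp0 : 0 < p := div_pos hr0 (by linarith)
  set P : ℝ := (∫ z, G z ^ p ∂tor) ^ ((r - 1) / r) with hP
  have hP0 : 0 ≤ P := Real.rpow_nonneg (integral_nonneg fun z => Real.rpow_nonneg (hG0 z) _) _
  set A : ℝ := ∫ z, y L z ^ (r / 2) ∂tor with hA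
  have hA0 : 0 ≤ A := integral_nonneg fun z => Real.rpow_nonneg (hy0 L z) _
  -- the estimate with η
  have main : ∀ η : ℝ, 0 < η → ∑ l ∈ Ico a L, ∫ z, D l z * τ l z ∂tor ≤
      Real.sqrt (2 / r) * P * (A + η ^ (r / 2)) ^ (1 / r) := by
    intro η hη
    set φ : ℝ → ℝ := fun t => (max t 0 + η) ^ (1 - r / 2) with hφ
    have hφc : Continuous φ := by
      refine Continuous.rpow_const ((continuous_id.max continuous_const).add continuous_const) ?_
      intro t; right; linarith
    have hφm : Monotone φ := by
      intro s t hst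
      refine Real.rpow_le_rpow (by positivity) ?_ (by linarith)
      have := max_le_max_right (0 : ℝ) hst
      linarith
    have hφ0 : ∀ t, 0 < φ t := fun t => Real.rpow_pos_of_pos (by positivity) _
    have h1 := hyp φ hφc hφm fun t => (hφ0 t).le
    -- integral of the power with η
    set Aη : ℝ := ∫ z, (y L z + η) ^ (r / 2) ∂tor with hAη
    have hAη0 : 0 < Aη := by
      have h2 : ∫ _ : TT, η ^ (r / 2) ∂tor ≤ Aη := by
        refine integral_mono (integrable_const _) ?_ fun z => ?_
        · exact integrable_of_cont (((hyc L).add continuous_const).rpow_const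
            fun z => Or.inr (by linarith))
        · exact Real.rpow_le_rpow hη.le (by have := hy0 L z; linarith) (by linarith)
      have h3 : ∫ _ : TT, η ^ (r / 2) ∂tor = η ^ (r / 2) := by simp
      have h4 : 0 < η ^ (r / 2) := Real.rpow_pos_of_pos hη _
      linarith
    have hAηle : Aη ≤ A + η ^ (r / 2) := by
      have h2 : Aη ≤ ∫ z, (y L z ^ (r / 2) + η ^ (r / 2)) ∂tor := by
        refine integral_mono ?_ ?_ fun z => ?_
        · exact integrable_of_cont (((hyc L).add continuous_const).rpow_const
            fun z => Or.inr (by linarith))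
        · exact integrable_of_cont (((hyc L).rpow_const fun z => Or.inr (by linarith)).add
            continuous_const)
        · exact Real.rpow_add_le_add_rpow (hy0 L z) hη.le (by linarith) (by linarith)
      rw [integral_add (integrable_of_cont ((hyc L).rpow_const fun z => Or.inr (by linarith)))
        (integrable_const _)] at h2
      simpa using h2
    -- first factor
    have hF : ∑ l ∈ Ico a L, ∫ z, φ (y (l + 1) z) * D l z ^ 2 ∂tor ≤
        P ^ 2 * Aη ^ ((2 - r) / r) := by
      refine h1.trans ?_
      have hpq : (r / (2 * (r - 1))).HolderConjugate (r / (2 - r)) := by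
        rw [Real.holderConjugate_iff]
        constructor
        · rw [lt_div_iff₀ (by linarith)]; linarith
        · rw [inv_div, inv_div]; field_simp; ring
      have h2 := holder_cont _ _ hpq (fun z => G z ^ 2) (fun z => φ (y L z)) (hG.pow 2)
        (hφc.comp (hyc L)) (fun z => by positivity) (fun z => (hφ0 _).le)
      have e1 : ∀ z, (G z ^ 2) ^ (r / (2 * (r - 1))) = G z ^ p := by
        intro z
        rw [← Real.rpow_natCast, ← Real.rpow_mul (hG0 z)]
        congr 1
        rw [hp]
        push_cast
        have : r - 1 ≠ 0 := by linarith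
        field_simp
      have e2 : ∀ z, φ (y L z) ^ (r / (2 - r)) = (y L z + η) ^ (r / 2) := by
        intro z
        simp only [hφ]
        rw [max_eq_left (hy0 L z), ← Real.rpow_mul (by have := hy0 L z; linarith)]
        congr 1
        have : 2 - r ≠ 0 := by linarith
        field_simp
      simp_rw [e1, e2] at h2
      have e3 : 1 / (r / (2 * (r - 1))) = (r - 1) / r * 2 := by rw [one_div_div]; ring
      have e4 : 1 / (r / (2 - r)) = (2 - r) / r := by rw [one_div_div]
      rw [e3, e4, Real.rpow_mul (integral_nonneg fun z => Real.rpow_nonneg (hG0 z) _)] at h2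
      have e5 : P ^ (2 : ℝ) = P ^ 2 := by norm_num
      rw [← hP, e5] at h2
      refine le_trans (le_of_eq ?_) h2
      refine integral_congr_ae (Filter.Eventually.of_forall fun z => ?_)
      simp only
      ring
    -- second factor
    have hS : ∑ l ∈ Ico a L, ∫ z, (φ (y (l + 1) z))⁻¹ * τ l z ^ 2 ∂tor ≤ 2 / r * Aη := by
      rw [← integral_finsetSum (Ico a L) (f := fun l z => (φ (y (l + 1) z))⁻¹ * τ l z ^ 2)
        fun l _ => integrable_of_cont
        (((hφc.comp (hyc (l + 1))).inv₀ fun z => (hφ0 _).ne').mul ((hτ l).pow 2)), hAη,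
        ← integral_const_mul]
      refine integral_mono ?_ ?_ fun z => ?_
      · exact integrable_of_cont (continuous_finsetSum _ fun l _ =>
          ((hφc.comp (hyc (l + 1))).inv₀ fun z => (hφ0 _).ne').mul ((hτ l).pow 2))
      · exact integrable_of_cont (continuous_const.mul
          (((hyc L).add continuous_const).rpow_const fun z => Or.inr (by linarith)))
      · have h2 := telescope_pow (r / 2) η (by linarith) (by linarith) hη a L
          (fun i => τ i z ^ 2) (fun i => by positivity)
        have e1 : 1 / (r / 2) = 2 / r := by rw [one_div_div]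
        rw [e1] at h2
        refine le_trans (le_of_eq ?_) h2
        refine Finset.sum_congr rfl fun l _ => ?_
        congr 1
        simp only [hφ]
        rw [max_eq_left (hy0 _ z), ← Real.rpow_neg (by have := hy0 (l + 1) z; linarith)]
        congr 1
        ring
    -- Cauchy-Schwarz in the form of the arithmetic-geometric inequality
    have hAM : ∀ lam : ℝ, 0 < lam → ∑ l ∈ Ico a L, ∫ z, D l z * τ l z ∂tor ≤
        (lam * (P ^ 2 * Aη ^ ((2 - r) / r)) + lam⁻¹ * (2 / r * Aη)) / 2 := by
      intro lam hlam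
      have h2 : ∀ l ∈ Ico a L, ∫ z, D l z * τ l z ∂tor ≤
          (lam * ∫ z, φ (y (l + 1) z) * D l z ^ 2 ∂tor +
            lam⁻¹ * ∫ z, (φ (y (l + 1) z))⁻¹ * τ l z ^ 2 ∂tor) / 2 := by
        intro l _
        rw [← integral_const_mul, ← integral_const_mul, ← integral_add, ← integral_div]
        · refine integral_mono ?_ ?_ fun z => ?_
          · exact integrable_of_cont ((hD l).mul (hτ l))
          · refine integrable_of_cont (Continuous.div_const (Continuous.add ?_ ?_) _)
            · exact continuous_const.mul ((hφc.comp (hyc (l + 1))).mul ((hD l).pow 2))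
            · exact continuous_const.mul
                (((hφc.comp (hyc (l + 1))).inv₀ fun z => (hφ0 _).ne').mul ((hτ l).pow 2))
          · simp only
            set f := φ (y (l + 1) z) with hf
            have hf0 : 0 < f := hφ0 _
            have h3 : 0 < lam * f := by positivity
            have h4 : lam * (f * D l z ^ 2) + lam⁻¹ * (f⁻¹ * τ l z ^ 2) - 2 * (D l z * τ l z) =
                (lam * f) * (D l z - (lam * f)⁻¹ * τ l z) ^ 2 := by
              field_simp
              ring
            have h5 : 0 ≤ (lam * f) * (D l z - (lam * f)⁻¹ * τ l z) ^ 2 := by positivity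
            linarith
        · exact integrable_of_cont (continuous_const.mul ((hφc.comp (hyc (l + 1))).mul
            ((hD l).pow 2)))
        · exact integrable_of_cont (continuous_const.mul
            (((hφc.comp (hyc (l + 1))).inv₀ fun z => (hφ0 _).ne').mul ((hτ l).pow 2)))
      refine (Finset.sum_le_sum h2).trans ?_
      rw [← Finset.sum_div, Finset.sum_add_distrib, ← Finset.mul_sum, ← Finset.mul_sum]
      have h3 := mul_le_mul_of_nonneg_left hF hlam.le
      have h4 := mul_le_mul_of_nonneg_left hS (inv_pos.2 hlam).le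
      linarith
    -- optimise
    have hX : ∑ l ∈ Ico a L, ∫ z, D l z * τ l z ∂tor ≤
        Real.sqrt ((P ^ 2 * Aη ^ ((2 - r) / r)) * (2 / r * Aη)) := by
      set X := P ^ 2 * Aη ^ ((2 - r) / r) with hXd
      set Y := 2 / r * Aη with hYd
      have hX0 : 0 ≤ X := by positivity
      have hY0 : 0 < Y := by positivity
      refine le_of_forall_pos_le_add fun ε hε => ?_
      -- take lam = sqrt (Y/(X+δ))
      obtain ⟨δ, hδ, hδ2⟩ : ∃ δ : ℝ, 0 < δ ∧ Real.sqrt ((X + δ) * Y) ≤ Real.sqrt (X * Y) + ε := by
        refine ⟨ε ^ 2 / Y, by positivity, ?_⟩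
        have h2 : (X + ε ^ 2 / Y) * Y = X * Y + ε ^ 2 := by field_simp
        rw [h2]
        refine (Real.sqrt_le_sqrt (show X * Y + ε ^ 2 ≤ (Real.sqrt (X * Y) + ε) ^ 2 by
          have h3 := Real.sq_sqrt (show 0 ≤ X * Y by positivity)
          have h4 := Real.sqrt_nonneg (X * Y)
          nlinarith)).trans (le_of_eq ?_)
        exact Real.sqrt_sq (by positivity)
      have hXδ : 0 < X + δ := by linarith
      have h2 := hAM (Real.sqrt Y / Real.sqrt (X + δ))
        (div_pos (Real.sqrt_pos.2 hY0) (Real.sqrt_pos.2 hXδ))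
      refine h2.trans (le_trans ?_ hδ2)
      set u := Real.sqrt Y with hu
      set v := Real.sqrt (X + δ) with hv
      have hu0 : 0 < u := Real.sqrt_pos.2 hY0
      have hv0 : 0 < v := Real.sqrt_pos.2 hXδ
      have hu2 : u ^ 2 = Y := Real.sq_sqrt hY0.le
      have hv2 : v ^ 2 = X + δ := Real.sq_sqrt hXδ.le
      have h3 : Real.sqrt ((X + δ) * Y) = v * u := Real.sqrt_mul hXδ.le Y
      rw [h3, inv_div, ← hu2]
      have h4 : v / u * u ^ 2 = v * u := by field_simp
      have h5 : u / v * X ≤ v * u := by
        rw [div_mul_eq_mul_div, div_le_iff₀ hv0]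
        have : X ≤ v ^ 2 := by rw [hv2]; linarith
        nlinarith
      rw [h4]
      linarith
    refine hX.trans ?_
    have h2 : (P ^ 2 * Aη ^ ((2 - r) / r)) * (2 / r * Aη) =
        (2 / r) * (P * Aη ^ (1 / r)) ^ 2 := by
      have h3 : (Aη ^ (1 / r)) ^ 2 = Aη ^ ((2 - r) / r) * Aη := by
        rw [← Real.rpow_natCast, ← Real.rpow_mul hAη0.le, ← Real.rpow_add_one hAη0.ne']
        congr 1
        push_cast
        field_simp
        ring
      rw [mul_pow, h3]; ring
    rw [h2, Real.sqrt_mul (by positivity), Real.sqrt_sq (by positivity), mul_assoc]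
    refine mul_le_mul_of_nonneg_left (mul_le_mul_of_nonneg_left ?_ hP0) (Real.sqrt_nonneg _)
    exact Real.rpow_le_rpow hAη0.le hAηle (by positivity)
  -- limit η → 0
  have hlim : Filter.Tendsto (fun η : ℝ => Real.sqrt (2 / r) * P * (A + η ^ (r / 2)) ^ (1 / r))
      (nhdsWithin 0 (Set.Ioi 0)) (nhds (Real.sqrt (2 / r) * P * A ^ (1 / r))) := by
    have h1 : Continuous fun η : ℝ => Real.sqrt (2 / r) * P * (A + η ^ (r / 2)) ^ (1 / r) := by
      refine continuous_const.mul (Continuous.rpow_const (continuous_const.add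
        (continuous_id.rpow_const fun t => Or.inr (by linarith))) fun t => Or.inr (by positivity))
    have h2 := (h1.tendsto 0).mono_left (nhdsWithin_le_nhds (s := Set.Ioi 0))
    rwa [Real.zero_rpow (by linarith : r / 2 ≠ 0), add_zero] at h2
  exact ge_of_tendsto hlim (Filter.eventually_of_mem self_mem_nhdsWithin fun η hη => main η hη)

end Pool.Agent.W278.EM
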