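/-
Local embedding for Hardy spaces of Dirichlet series: the statements of the parts.
-/
import Pool.Agent.W278.EM.Defs

set_option autoImplicit false
open MeasureTheory Finset
open scoped ComplexConjugate

namespace Pool.Agent.W278.EM

open Pool.Agent.Helper873.OneVar Pool.Agent.Helper873.Product Pool.Agent.Helper873.Monomial
  Pool.Agent.Helper873.Alg Pool.Agent.Helper873.NT

/-! ### number theory -/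

def SN1 : Prop := ∃ C : ℝ, 0 < C ∧ ∀ m : ℕ, Real.exp (-Hm m) ≤ C / 2 ^ m

def SN2 : Prop := ∃ C : ℝ, 0 < C ∧ ∀ (Y : ℝ) (n : ℕ), 1 ≤ Y → (∀ k < n, Real.log (pr k) ≤ Y) →
  ∑ k ∈ range n, Real.log (pr k) / pr k ≤ C * Y

def SN4 : Prop := ∃ C : ℝ, 0 < C ∧ ∀ (l : ℕ) (x : ℝ), -(1 / 4) ≤ x →
  ∏ k ∈ range (nn l), (1 - pr k ^ (-(1 + 2 * x / 2 ^ l)))⁻¹ ≤ C * 2 ^ l

def SN5 : Prop := ∃ C : ℝ, 0 < C ∧ ∀ (y : ℝ) (K : Finset ℕ), 1 ≤ y →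
  (∀ k ∈ K, y ≤ Real.log (pr k) ∧ Real.log (pr k) ≤ y + 2) → ∑ k ∈ K, 1 / pr k ≤ C / y

/-- density of the block numbers in short intervals -/
def SLD : Prop := ∃ C : ℝ, 0 < C ∧ ∀ (l : ℕ), 3 ≤ l → ∀ (T : Finset ℕ), (∀ n ∈ T, InBlock l n) →
  ∀ y : ℝ, (∀ n ∈ T, y ≤ Real.log n ∧ Real.log n ≤ y + 1) →
  ∑ n ∈ T, (n : ℝ) ^ (-(1 - 1 / (2 * 2 ^ l)) : ℝ) ≤ C / 2 ^ l * Real.exp (-y / (2 * 2 ^ l))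

/-- large sieve for one block -/
def SLS : Prop := ∃ C : ℝ, 0 < C ∧ ∀ (l : ℕ), 3 ≤ l → ∀ (T : Finset ℕ), (∀ n ∈ T, InBlock l n) →
  ∀ (ν : ℕ → ℂ) (x θ : ℝ), -(1 / 4) ≤ x →
  ∑ n ∈ T, ‖∑ j ∈ range (2 ^ l + 1), ν j * (n : ℂ) ^ (-(pt l x (θ + j / 2 ^ l)))‖ ^ 2 ≤
    C * Real.exp (-x) * ∑ j ∈ range (2 ^ l + 1), ‖ν j‖ ^ 2

/-! ### analysis on the torus -/

/-- reproducing property of the kernel -/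
def SRep : Prop := ∀ (n : ℕ) (Φ : (ℕ → ℂ) → ℂ), Continuous Φ → DepC n Φ →
  (∀ (w : ℕ → ℂ) (i : ℕ), Differentiable ℂ fun u => Φ (Function.update w i u)) →
  ∀ v : ℕ → ℂ, (∀ k, ‖v k‖ < 1) → ∫ z, Φ (zz z) * kc n v z ∂tor = Φ v

/-- `L²` norm of the kernel -/
def SK2 : Prop := ∃ C : ℝ, 0 < C ∧ ∀ (l : ℕ) (x t : ℝ), -(1 / 4) ≤ x →
  ∫ z, ‖kc (nn l) (vs (pt l x t)) z‖ ^ 2 ∂tor ≤ C * 2 ^ l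

/-- moment of the bump -/
def SG1 : Prop := ∀ (b : ℝ) (m : ℕ) (τ : ℝ), 0 < b →
  ∫ z, ‖gb b m τ (zz z)‖ ^ (2 / b) ∂tor ≤ Real.exp (-Hm m)

/-- lower bound of the bump -/
def SG2 : Prop := ∀ b : ℝ, 0 < b → ∃ C : ℝ, 0 < C ∧ ∀ (l m : ℕ) (x t τ : ℝ), m ≤ l →
  -(1 / 4) ≤ x → |t - τ| ≤ 2 / 2 ^ m →
  1 ≤ C * Real.exp (x / 8) * ‖gb b m τ (vs (pt l x t))‖

/-- expansion of a block -/
def SExp : Prop := ∀ (c : ℕ →₀ ℂ) (l : ℕ), ∃ (T : Finset ℕ) (B : ℕ → (ℕ →₀ ℂ)),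
  (∀ n ∈ T, InBlock l n) ∧ (∀ n ∈ T, DepC (nn l) (poly (B n))) ∧
  (∀ w, dl c l w = ∑ n ∈ T, poly (B n) w * mon n w) ∧
  (∀ W : TT → ℝ, Continuous W → DepT (nn l) W →
    ∫ z, W z * ‖poly c (tr (nn (l + 1)) (zz z))‖ ^ 2 ∂tor =
      ∫ z, W z * ‖poly c (tr (nn l) (zz z))‖ ^ 2 ∂tor +
        ∫ z, W z * ∑ n ∈ T, ‖poly (B n) (zz z)‖ ^ 2 ∂tor)

/-- algebraic part of the expansion of a block -/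
def SExpA : Prop := ∀ (c : ℕ →₀ ℂ) (l : ℕ), ∃ (T : Finset ℕ) (B : ℕ → (ℕ →₀ ℂ)),
  (∀ n ∈ T, InBlock l n) ∧ (∀ n ∈ T, DepC (nn l) (poly (B n))) ∧
  (∀ w, dl c l w = ∑ n ∈ T, poly (B n) w * mon n w)

/-- orthogonality with weights -/
def SOrth : Prop := ∀ (l : ℕ) (T : Finset ℕ) (A : (ℕ → ℂ) → ℂ) (B : ℕ → (ℕ → ℂ) → ℂ)
  (W : TT → ℝ), (∀ n ∈ T, InBlock l n) → Continuous A → DepC (nn l) A →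
  (∀ n ∈ T, Continuous (B n) ∧ DepC (nn l) (B n)) → Continuous W → DepT (nn l) W →
  ∫ z, W z * ‖A (zz z) + ∑ n ∈ T, B n (zz z) * mon n (zz z)‖ ^ 2 ∂tor =
    ∫ z, W z * ‖A (zz z)‖ ^ 2 ∂tor + ∫ z, W z * ∑ n ∈ T, ‖B n (zz z)‖ ^ 2 ∂tor

/-- weighted duality -/
def SWL : Prop := ∀ r : ℝ, 1 < r → r < 2 → ∃ C : ℝ, 0 < C ∧
  ∀ (a L : ℕ) (D τ : ℕ → TT → ℝ) (G : TT → ℝ), (∀ l, Continuous (D l)) →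
  (∀ l, Continuous (τ l)) → Continuous G → (∀ l z, 0 ≤ D l z) → (∀ l z, 0 ≤ τ l z) →
  (∀ z, 0 ≤ G z) →
  (∀ φ : ℝ → ℝ, Continuous φ → Monotone φ → (∀ y, 0 ≤ φ y) →
    ∑ l ∈ Ico a L, ∫ z, φ (∑ i ∈ Ico a (l + 1), τ i z ^ 2) * D l z ^ 2 ∂tor ≤
      ∫ z, φ (∑ i ∈ Ico a L, τ i z ^ 2) * G z ^ 2 ∂tor) →
  ∑ l ∈ Ico a L, ∫ z, D l z * τ l z ∂tor ≤
    C * (∫ z, G z ^ (r / (r - 1)) ∂tor) ^ ((r - 1) / r) *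
      (∫ z, (∑ i ∈ Ico a L, τ i z ^ 2) ^ (r / 2) ∂tor) ^ (1 / r)

/-- moment bound with bumps -/
def SML : Prop := ∀ r : ℝ, 1 < r → r < 2 →
  ∀ (I La : Finset (ℕ × ℕ)) (S : ℕ × ℕ → ℕ × ℕ) (g K : ℕ × ℕ → TT → ℝ),
  (∀ s, Continuous (g s)) → (∀ i, Continuous (K i)) → (∀ s z, 0 ≤ g s z) → (∀ i z, 0 ≤ K i z) →
  (∀ i ∈ I, S i ∈ La) →
  ∫ z, (∑ i ∈ I, g (S i) z ^ 2 * K i z) ^ (r / 2) ∂tor ≤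
    ∑ s ∈ La, (∫ z, g s z ^ (2 * r / (2 - r)) ∂tor) ^ (1 - r / 2) *
      (∑ i ∈ I.filter (fun i => S i = s), ∫ z, K i z ∂tor) ^ (r / 2)

/-- the core estimate -/
def SCore : Prop := ∀ r : ℝ, 1 < r → r < 2 → ∃ C : ℝ, 0 < C ∧
  ∀ (c : ℕ →₀ ℂ) (L : ℕ), (∀ w, poly c (tr (nn L) w) = poly c w) →
  ∀ x : ℝ, -(1 / 4) ≤ x →
  ∀ (θ : ℕ → ℝ) (β : ℕ → ℕ → ℂ) (Sl : ℕ → ℕ → ℕ × ℕ) (La : Finset (ℕ × ℕ)),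
  (∀ l j, β l j ≠ 0 → Sl l j ∈ La ∧ (Sl l j).1 ≤ l ∧
    |θ l + (j : ℝ) / 2 ^ l - ((Sl l j).2 : ℝ) / 2 ^ (Sl l j).1| ≤ 2 / 2 ^ (Sl l j).1) →
  ‖∑ l ∈ Ico 3 L, ∑ j ∈ range (2 ^ l + 1),
      ((1 / 2 ^ l : ℝ) : ℂ) * β l j * dl c l (vs (pt l x (θ l + (j : ℝ) / 2 ^ l)))‖ ≤
    C * Real.exp (-x / 4) * nrmP (r / (r - 1)) c * (RR r L β Sl La) ^ (1 / r)

/-! ### dyadic combinatorics -/

/-- Calderón-Zygmund stopping -/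
def SCZ : Prop := ∀ r : ℝ, 1 < r → r < 2 → ∃ C : ℝ, 0 < C ∧ ∀ (N : ℕ) (d : ℕ → ℂ),
  ∃ (Sf : ℕ → ℕ → ℕ × ℕ) (lam : ℕ × ℕ → ℝ),
    Stop r N (hb N d) Sf lam (C * (∑ i ∈ range (2 ^ N), ‖d i‖ ^ r) / 2 ^ N)

/-- relabelled coefficients at the offset `D ≥ 0` (blocks coarser than the intervals) -/
def SSumI : Prop := ∀ r : ℝ, 1 < r → r < 2 → ∃ C : ℝ, 0 < C ∧
  ∀ (N L D e : ℕ) (β : ℕ → ℕ → ℂ) (Sf : ℕ → ℕ → ℕ × ℕ) (lam : ℕ × ℕ → ℝ) (Λ : ℝ),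
  Stop r N β Sf lam Λ → e < 2 ^ D →
  RR r L (fun l j => if l + D < N ∧ j < 2 ^ l then β (l + D) (j * 2 ^ D + e) else 0)
    (fun l j => if (Sf (l + D) (j * 2 ^ D + e)).1 ≤ l then Sf (l + D) (j * 2 ^ D + e) else (l, j))
    (Lab N) ≤ C * (D + 1) * 2 ^ D * Λ

/-- relabelled coefficients at the offset `D + 1` (blocks finer than the intervals); `ε = 0, 1, 2`
are the left end, the middle and the right end of the interval -/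
def SSumII : Prop := ∀ r : ℝ, 1 < r → r < 2 → ∃ C : ℝ, 0 < C ∧
  ∀ (N L D ε : ℕ) (β : ℕ → ℕ → ℂ) (Sf : ℕ → ℕ → ℕ × ℕ) (lam : ℕ × ℕ → ℝ) (Λ : ℝ),
  Stop r N β Sf lam Λ → ε ≤ 2 →
  RR r L (fun l j => if D + 1 ≤ l ∧ l - (D + 1) < N ∧ ε * 2 ^ D ≤ j ∧
        (j - ε * 2 ^ D) % 2 ^ (D + 1) = 0 ∧ (j - ε * 2 ^ D) / 2 ^ (D + 1) < 2 ^ (l - (D + 1))
      then β (l - (D + 1)) ((j - ε * 2 ^ D) / 2 ^ (D + 1)) else 0)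
    (fun l j => Sf (l - (D + 1)) ((j - ε * 2 ^ D) / 2 ^ (D + 1))) (Lab N) ≤
      C * (2 : ℝ) ^ (-(D : ℝ) * (r / 2)) * Λ

/-! ### the time variable -/

/-- first representation of the Haar integrals: `l ≤ m = l + D` -/
def STI : Prop := ∀ (c : ℕ →₀ ℂ) (l D i : ℕ),
  HI c l (l + D) i = -Complex.I * ((2 / Real.pi / 2 ^ l : ℝ) : ℂ) *
    ∫ v in (0 : ℝ)..(1 / 2 ^ (D + 1)), ∫ w in (0 : ℝ)..(1 / 2 ^ (D + 1)),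
      ∫ φ in (0 : ℝ)..(2 * Real.pi), Complex.exp (-(φ : ℂ) * Complex.I) *
        dl c l (vs (pt l (Real.cos φ / 4)
          ((i : ℝ) / 2 ^ (l + D) + (v + w + Real.sin φ / 4) / 2 ^ l)))

/-- second representation of the Haar integrals -/
def STII : Prop := ∀ (c : ℕ →₀ ℂ) (l m i : ℕ),
  (∀ τ : ℝ, IntegrableOn (fun x : ℝ => dl c l (vs (pt l x τ))) (Set.Ioi 0)) ∧
  HI c l m i = Complex.I * ((1 / 2 ^ l : ℝ) : ℂ) *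
    ∫ x in Set.Ioi (0 : ℝ),
      (2 * dl c l (vs (pt l x ((i : ℝ) / 2 ^ m + 1 / 2 ^ (m + 1)))) -
        dl c l (vs (pt l x ((i : ℝ) / 2 ^ m))) - dl c l (vs (pt l x (((i : ℝ) + 1) / 2 ^ m))))

/-- the sum of the pairings at the offset `D` -/
def SPI : Prop := ∀ r : ℝ, 1 < r → r < 2 → ∃ C : ℝ, 0 < C ∧
  ∀ (c : ℕ →₀ ℂ) (L : ℕ), (∀ w, poly c (tr (nn L) w) = poly c w) →
  ∀ (N D : ℕ) (β : ℕ → ℕ → ℂ) (Sf : ℕ → ℕ → ℕ × ℕ) (lam : ℕ × ℕ → ℝ) (Λ : ℝ),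
  Stop r N β Sf lam Λ →
  ‖∑ l ∈ Ico 3 L, if l + D < N then ∑ i ∈ range (2 ^ (l + D)), β (l + D) i * HI c l (l + D) i
    else 0‖ ≤ C * ((D : ℝ) + 1) * (2 : ℝ) ^ (-(D : ℝ) * (1 - 1 / r)) *
      nrmP (r / (r - 1)) c * Λ ^ (1 / r)

def SPII : Prop := ∀ r : ℝ, 1 < r → r < 2 → ∃ C : ℝ, 0 < C ∧
  ∀ (c : ℕ →₀ ℂ) (L : ℕ), (∀ w, poly c (tr (nn L) w) = poly c w) →
  ∀ (N D : ℕ) (β : ℕ → ℕ → ℂ) (Sf : ℕ → ℕ → ℕ × ℕ) (lam : ℕ × ℕ → ℝ) (Λ : ℝ),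
  Stop r N β Sf lam Λ →
  ‖∑ l ∈ Ico 3 L, if D + 1 ≤ l ∧ l - (D + 1) < N then
      ∑ i ∈ range (2 ^ (l - (D + 1))), β (l - (D + 1)) i * HI c l (l - (D + 1)) i
    else 0‖ ≤ C * (2 : ℝ) ^ (-(D : ℝ) / 2) * nrmP (r / (r - 1)) c * Λ ^ (1 / r)

/-- the bilinear estimate -/
def SPair : Prop := ∀ r : ℝ, 1 < r → r < 2 → ∃ C : ℝ, 0 < C ∧
  ∀ (c : ℕ →₀ ℂ) (N : ℕ) (d : ℕ → ℂ),
  ‖∑ i ∈ range (2 ^ N), d i * ∫ t in ((i : ℝ) / 2 ^ N)..(((i : ℝ) + 1) / 2 ^ N),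
      poly c (vs (pt 0 0 t))‖ ≤
    C * nrmP (r / (r - 1)) c * ((∑ i ∈ range (2 ^ N), ‖d i‖ ^ r) / 2 ^ N) ^ (1 / r)

/-- the local embedding for `p > 2` on the unit interval -/
def SPos : Prop := ∀ p : ℝ, 2 < p → ∃ C : ℝ, 0 < C ∧ ∀ c : ℕ →₀ ℂ,
  ∫ t in (0 : ℝ)..1, ‖poly c (vs (pt 0 0 t))‖ ^ p ≤ C * ∫ z, ‖poly c (zz z)‖ ^ p ∂tor

/-- the local embedding for `p = 2` on the unit interval -/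
def SL2 : Prop := ∃ C : ℝ, 0 < C ∧ ∀ c : ℕ →₀ ℂ,
  ∫ t in (0 : ℝ)..1, ‖poly c (vs (pt 0 0 t))‖ ^ 2 ≤ C * ∫ z, ‖poly c (zz z)‖ ^ 2 ∂tor

/-- failure of the local embedding for `1 ≤ p < 2` on the unit interval -/
def SNeg : Prop := ∀ p : ℝ, 1 ≤ p → p < 2 → ∀ A : ℝ, ∃ c : ℕ →₀ ℂ,
  A * ∫ z, ‖poly c (zz z)‖ ^ p ∂tor < ∫ t in (0 : ℝ)..1, ‖poly c (vs (pt 0 0 t))‖ ^ p

/-- mean values -/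
def SMean : Prop := ∀ p : ℝ, 0 < p → ∀ c : ℕ →₀ ℂ,
  Filter.Tendsto (fun T : ℝ => (1 / (2 * T)) * ∫ t in (-T)..T,
    ‖poly c (vs ((t : ℂ) * Complex.I))‖ ^ p) Filter.atTop (nhds (∫ z, ‖poly c (zz z)‖ ^ p ∂tor))

end Pool.Agent.W278.EM
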