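import Pool.Agent.W278.EM.Pos
import Pool.Agent.W278.EM.Score
import Pool.Agent.W278.EM.ExpA
import Pool.Agent.W278.EM.Orth
import Pool.Agent.W278.EM.WL
import Pool.Agent.W278.EM.PII
import Pool.Agent.W196.EM.N
import Pool.Agent.W196.EM.G2
import Pool.Agent.W462.EM.LS
import Pool.Agent.W74.EM.G1
import Pool.Agent.W368.EM.P1
import Pool.Agent.W698.EM.L2
import Pool.Agent.W918.EM.Neg
import Pool.Agent.W465.EM.MV
import Pool.Agent.W704.EM.CZ
import Pool.Agent.W704.EM.Sums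
import Pool.Agent.W82.EM.Time

set_option autoImplicit false
open MeasureTheory Finset
open scoped ComplexConjugate

namespace Pool.Agent.W278.EM

open Pool.Agent.Helper873.OneVar Pool.Agent.Helper873.Product Pool.Agent.Helper873.Monomial
  Pool.Agent.Helper873.Alg Pool.Agent.Helper873.NT Pool.Agent.Helper873.Embed

theorem score_all (hLD : SLD) : SCore :=
  score_of (Pool.Agent.W462.EM.sls_of hLD) srep (Pool.Agent.W74.EM.G1.sk2_of Pool.Agent.W196.EMN.sn4)
    Pool.Agent.W196.EMN.sn1 Pool.Agent.W74.EM.G1.sg1 (Pool.Agent.W196.EMG2.sg2_of Pool.Agent.W196.EMN.sn2)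
    (sexp_of sexpA sorth) swl sml

theorem spos_all (hLD : SLD) : SPos :=
  spos_of (spair_of
    (Pool.Agent.W368.EM.P1.spi_of (score_all hLD) Pool.Agent.W704.EMS.ssumI Pool.Agent.W82.EM.sti)
    (spii_of (score_all hLD) Pool.Agent.W704.EMS.ssumII Pool.Agent.W82.EM.stii)
    Pool.Agent.W704.EMCZ.scz Pool.Agent.W698.EM.sl2)

lemma pt_zero (t : ℝ) : pt 0 0 t = 1 / 2 + (t : ℂ) * Complex.I := by
  unfold pt; simp

lemma cont_f (c : ℕ →₀ ℂ) (p : ℝ) (hp : 0 < p) : Continuous fun t : ℝ => ‖poly c (vs (pt 0 0 t))‖ ^ p :=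
  (((continuous_poly c).comp continuous_vs_pt).norm).rpow_const fun _ => Or.inr hp.le

/-- covering an interval by `n` translates of an interval of length `L` -/
lemma cover_int (g : ℝ → ℝ) (hg : Continuous g) (g0 : ∀ t, 0 ≤ g t) (L : ℝ) (hL : 0 < L) (B : ℝ)
    (hB : ∀ τ, ∫ t in τ..(τ + L), g t ≤ B) (τ L' : ℝ) (hL' : 0 ≤ L') (n : ℕ) (hn : L' ≤ n * L) :
    ∫ t in τ..(τ + L'), g t ≤ n * B := by
  have h1 : ∫ t in τ..(τ + L'), g t ≤ ∫ t in τ..(τ + n * L), g t := by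
    refine intervalIntegral.integral_mono_interval le_rfl (by linarith) (by linarith)
      (Filter.Eventually.of_forall g0) (hg.intervalIntegrable _ _)
  refine h1.trans ?_
  clear h1 hn
  induction n with
  | zero => simp
  | succ n ih =>
    have h2 : ∫ t in τ..(τ + (n + 1 : ℕ) * L), g t = (∫ t in τ..(τ + n * L), g t) +
        ∫ t in (τ + n * L)..(τ + n * L + L), g t := by
      rw [intervalIntegral.integral_add_adjacent_intervals (hg.intervalIntegrable _ _)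
        (hg.intervalIntegrable _ _)]
      congr 1
      push_cast; ring
    rw [h2]
    have := hB (τ + n * L)
    push_cast
    linarith

theorem final_of (hPos : SPos) (p : ℝ) (hp : 1 ≤ p) (L : ℝ) (hL : 0 < L) :
    (∃ C : ℝ, ∀ c : ℕ →₀ ℂ, ∀ τ : ℝ, ∫ t in τ..(τ + L), ‖poly c (vs (pt 0 0 t))‖ ^ p ≤
      C * ∫ z, ‖poly c (zz z)‖ ^ p ∂tor) ↔ 2 ≤ p := by
  have hp0 : 0 < p := by linarith
  constructor
  · rintro ⟨C, hC⟩
    by_contra hlt
    push Not at hlt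
    obtain ⟨n, hn⟩ := exists_nat_ge (1 / L)
    obtain ⟨c, hc⟩ := Pool.Agent.W918.EM.Neg.sneg p hp hlt (n * C)
    have h1 := cover_int _ (cont_f c p hp0) (fun t => by positivity) L hL _ (hC c) 0 1
      (by norm_num) n (by rwa [div_le_iff₀ hL] at hn)
    rw [zero_add] at h1
    linarith
  · intro hp2
    obtain ⟨K, hK⟩ : ∃ K : ℝ, ∀ c : ℕ →₀ ℂ, ∫ t in (0 : ℝ)..1, ‖poly c (vs (pt 0 0 t))‖ ^ p ≤
        K * ∫ z, ‖poly c (zz z)‖ ^ p ∂tor := by
      rcases hp2.eq_or_lt with h | h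
      · obtain ⟨K, _, hK⟩ := Pool.Agent.W698.EM.sl2
        refine ⟨K, fun c => ?_⟩
        subst h
        simpa using hK c
      · obtain ⟨K, _, hK⟩ := hPos p h
        exact ⟨K, hK⟩
    obtain ⟨n, hn⟩ := exists_nat_ge L
    refine ⟨n * K, fun c τ => ?_⟩
    have hB : ∀ τ : ℝ, ∫ t in τ..(τ + 1), ‖poly c (vs (pt 0 0 t))‖ ^ p ≤
        K * ∫ z, ‖poly c (zz z)‖ ^ p ∂tor := by
      intro τ
      obtain ⟨c', h1, h2⟩ := Pool.Agent.W465.EM.rot p c τ
      have h3 := hK c'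
      rw [h2] at h3
      simp_rw [h1] at h3
      rw [intervalIntegral.integral_comp_add_right (fun t => ‖poly c (vs (pt 0 0 t))‖ ^ p)] at h3
      rwa [zero_add, add_comm (1 : ℝ) τ] at h3
    have h4 := cover_int _ (cont_f c p hp0) (fun t => by positivity) 1 one_pos _ hB τ L hL.le n
      (by linarith)
    linarith

/-- the Dirichlet polynomial `∑_{1 ≤ n ≤ N} a n n^{-s}` -/
noncomputable def DP (N : ℕ) (a : ℕ → ℂ) (s : ℂ) : ℂ := ∑ n ∈ Finset.Icc 1 N, a n * (n : ℂ) ^ (-s)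

lemma DP_to_poly (N : ℕ) (a : ℕ → ℂ) : ∃ c : ℕ →₀ ℂ, ∀ s, DP N a s = poly c (vs s) := by
  classical
  set c : ℕ →₀ ℂ := Finsupp.onFinset (range N) (fun n => if n < N then a (n + 1) else 0) (by
    intro n hn
    rw [Finset.mem_range]
    by_contra h
    exact hn (if_neg h)) with hc
  have hcn : ∀ n, c n = if n < N then a (n + 1) else 0 := fun n => rfl
  refine ⟨c, fun s => ?_⟩
  rw [poly_vs]
  unfold DP
  have h1 : ∑ n ∈ c.support, c n * ((n : ℂ) + 1) ^ (-s) =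
      ∑ n ∈ range N, c n * ((n : ℂ) + 1) ^ (-s) := by
    refine Finset.sum_subset (fun n hn => ?_) fun n _ hn => ?_
    · exact (Finsupp.support_onFinset_subset) hn
    · rw [Finsupp.notMem_support_iff.1 hn, zero_mul]
  rw [h1, ← Finset.Ico_add_one_right_eq_Icc, Finset.sum_Ico_eq_sum_range]
  refine Finset.sum_congr (by simp) fun n hn => ?_
  rw [Finset.mem_range] at hn
  rw [hcn, if_pos (by omega), add_comm 1 n]
  push_cast
  ring

lemma poly_to_DP (c : ℕ →₀ ℂ) : ∃ (N : ℕ) (a : ℕ → ℂ), ∀ s, poly c (vs s) = DP N a s := by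
  obtain ⟨N, hN⟩ := exists_bound c
  refine ⟨N, fun n => c (n - 1), fun s => ?_⟩
  rw [poly_vs]
  unfold DP
  rw [← Finset.Ico_add_one_right_eq_Icc, Finset.sum_Ico_eq_sum_range]
  rw [Finset.sum_subset (s₂ := range (N + 1 - 1))]
  · refine Finset.sum_congr rfl fun n _ => ?_
    have e : 1 + n - 1 = n := by omega
    simp only [e]
    push_cast
    ring_nf
  · intro n hn
    have := hN n hn
    rw [Finset.mem_range]; omega
  · intro n _ hn
    rw [Finsupp.notMem_support_iff.1 hn, zero_mul]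

/-- `M` is the mean value of `g` over the real line -/
def IsMean (g : ℝ → ℝ) (M : ℝ) : Prop :=
  Filter.Tendsto (fun T : ℝ => (1 / (2 * T)) * ∫ t in (-T)..T, g t) Filter.atTop (nhds M)

theorem mean_exists (p : ℝ) (hp : 0 < p) (c : ℕ →₀ ℂ) :
    IsMean (fun t : ℝ => ‖poly c (vs ((t : ℂ) * Complex.I))‖ ^ p) (∫ z, ‖poly c (zz z)‖ ^ p ∂tor) :=
  Pool.Agent.W465.EM.smean p hp c

theorem final_DP (hPos : SPos) (p : ℝ) (hp : 1 ≤ p) (L : ℝ) (hL : 0 < L) :
    (∀ (N : ℕ) (a : ℕ → ℂ), ∃ M : ℝ, IsMean (fun t : ℝ => ‖DP N a ((t : ℂ) * Complex.I)‖ ^ p) M) ∧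
    ((∃ C : ℝ, ∀ (N : ℕ) (a : ℕ → ℂ) (M : ℝ),
        IsMean (fun t : ℝ => ‖DP N a ((t : ℂ) * Complex.I)‖ ^ p) M → ∀ τ : ℝ,
        ∫ t in τ..(τ + L), ‖DP N a (1 / 2 + (t : ℂ) * Complex.I)‖ ^ p ≤ C * M) ↔ 2 ≤ p) := by
  have hp0 : 0 < p := by linarith
  constructor
  · intro N a
    obtain ⟨c, hc⟩ := DP_to_poly N a
    simp_rw [hc]
    exact ⟨_, mean_exists p hp0 c⟩
  · rw [← final_of hPos p hp L hL]
    constructor
    · rintro ⟨C, hC⟩
      refine ⟨C, fun c τ => ?_⟩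
      obtain ⟨N, a, ha⟩ := poly_to_DP c
      have h1 := mean_exists p hp0 c
      simp_rw [ha] at h1
      have h2 := hC N a _ h1 τ
      simp_rw [pt_zero, ha]
      exact h2
    · rintro ⟨C, hC⟩
      refine ⟨C, fun N a M hM τ => ?_⟩
      obtain ⟨c, hc⟩ := DP_to_poly N a
      simp_rw [hc] at hM
      have h1 := tendsto_nhds_unique hM (mean_exists p hp0 c)
      have h2 := hC c τ
      simp_rw [pt_zero, ← hc] at h2
      rw [h1]
      exact h2

end Pool.Agent.W278.EM
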