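import Pool.Agent.W278.EM.Basic

set_option autoImplicit false
open MeasureTheory Finset
open scoped ComplexConjugate

namespace Pool.Agent.W278.EM

open Pool.Agent.Helper873.OneVar Pool.Agent.Helper873.Product Pool.Agent.Helper873.Monomial
  Pool.Agent.Helper873.Alg Pool.Agent.Helper873.NT Pool.Agent.Helper873.Embed

/-- integral over a dyadic interval -/
noncomputable def JJ (f : ℝ → ℂ) (m i : ℕ) : ℂ := ∫ t in ((i : ℝ) / 2 ^ m)..(((i : ℝ) + 1) / 2 ^ m), f t

lemma sum_range_two {E : Type*} [AddCommMonoid E] (g : ℕ → E) (n : ℕ) :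
    ∑ j ∈ range (2 * n), g j = ∑ i ∈ range n, (g (2 * i) + g (2 * i + 1)) := by
  induction n with
  | zero => simp
  | succ n ih =>
    rw [show 2 * (n + 1) = 2 * n + 1 + 1 by ring, Finset.sum_range_succ, Finset.sum_range_succ, ih,
      Finset.sum_range_succ, add_assoc]

lemma JJ_split (f : ℝ → ℂ) (hf : Continuous f) (m i : ℕ) :
    JJ f m i = JJ f (m + 1) (2 * i) + JJ f (m + 1) (2 * i + 1) := by
  unfold JJ
  have e1 : ((2 * i : ℕ) : ℝ) / 2 ^ (m + 1) = (i : ℝ) / 2 ^ m := by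
    rw [pow_succ]; push_cast; field_simp
  have e2 : (((2 * i + 1 : ℕ) : ℝ) + 1) / 2 ^ (m + 1) = ((i : ℝ) + 1) / 2 ^ m := by
    rw [pow_succ]; push_cast; field_simp; ring
  have e3 : (((2 * i : ℕ) : ℝ) + 1) / 2 ^ (m + 1) = ((2 * i + 1 : ℕ) : ℝ) / 2 ^ (m + 1) := by
    push_cast; ring
  rw [e1, e2, e3, intervalIntegral.integral_add_adjacent_intervals] <;>
    exact hf.intervalIntegrable _ _

lemma JJ_haar (f : ℝ → ℂ) (hf : Continuous f) (m i : ℕ) :
    JJ f (m + 1) (2 * i) - JJ f (m + 1) (2 * i + 1) =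
      ∫ t in ((i : ℝ) / 2 ^ m)..((i : ℝ) / 2 ^ m + 1 / 2 ^ (m + 1)),
        (f t - f (t + 1 / 2 ^ (m + 1))) := by
  have hf2 : Continuous fun t => f (t + 1 / 2 ^ (m + 1)) := by fun_prop
  rw [intervalIntegral.integral_sub (hf.intervalIntegrable _ _) (hf2.intervalIntegrable _ _),
    intervalIntegral.integral_comp_add_right]
  unfold JJ
  have e1 : ((2 * i : ℕ) : ℝ) / 2 ^ (m + 1) = (i : ℝ) / 2 ^ m := by
    rw [pow_succ]; push_cast; field_simp
  have e2 : (((2 * i + 1 : ℕ) : ℝ) + 1) / 2 ^ (m + 1) =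
      (i : ℝ) / 2 ^ m + 1 / 2 ^ (m + 1) + 1 / 2 ^ (m + 1) := by
    rw [pow_succ]; push_cast; field_simp
    try ring
  have e3 : (((2 * i : ℕ) : ℝ) + 1) / 2 ^ (m + 1) = (i : ℝ) / 2 ^ m + 1 / 2 ^ (m + 1) := by
    rw [pow_succ]; push_cast; field_simp
  have e4 : ((2 * i + 1 : ℕ) : ℝ) / 2 ^ (m + 1) = (i : ℝ) / 2 ^ m + 1 / 2 ^ (m + 1) := by
    rw [pow_succ]; push_cast; field_simp
  rw [e1, e2, e3, e4]

lemma av_split (N : ℕ) (d : ℕ → ℂ) (m i : ℕ) (hm : m < N) :
    av N d m i = (av N d (m + 1) (2 * i) + av N d (m + 1) (2 * i + 1)) / 2 := by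
  unfold av
  obtain ⟨M, rfl⟩ : ∃ M, N = m + 1 + M := ⟨N - (m + 1), by omega⟩
  have e1 : m + 1 + M - m = M + 1 := by omega
  have e2 : m + 1 + M - (m + 1) = M := by omega
  rw [e1, e2, show (2 : ℕ) ^ (M + 1) = 2 ^ M + 2 ^ M by ring, Finset.sum_range_add]
  have h1 : ∑ x ∈ range (2 ^ M), d (i * (2 ^ M + 2 ^ M) + x) =
      ∑ x ∈ range (2 ^ M), d (2 * i * 2 ^ M + x) :=
    Finset.sum_congr rfl fun x _ => by congr 1; ring
  have h2 : ∑ x ∈ range (2 ^ M), d (i * (2 ^ M + 2 ^ M) + (2 ^ M + x)) =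
      ∑ x ∈ range (2 ^ M), d ((2 * i + 1) * 2 ^ M + x) :=
    Finset.sum_congr rfl fun x _ => by congr 1; ring
  rw [h1, h2, pow_succ]
  field_simp

lemma av_leaf (N : ℕ) (d : ℕ → ℂ) (i : ℕ) : av N d N i = d i := by
  unfold av
  simp

lemma haar_exp (f : ℝ → ℂ) (hf : Continuous f) (N : ℕ) (d : ℕ → ℂ) :
    ∑ i ∈ range (2 ^ N), d i * JJ f N i = av N d 0 0 * JJ f 0 0 +
      ∑ m ∈ range N, ∑ i ∈ range (2 ^ m), hb N d m i *
        (JJ f (m + 1) (2 * i) - JJ f (m + 1) (2 * i + 1)) := by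
  have key : ∀ M, M ≤ N → ∑ i ∈ range (2 ^ M), av N d M i * JJ f M i = av N d 0 0 * JJ f 0 0 +
      ∑ m ∈ range M, ∑ i ∈ range (2 ^ m), hb N d m i *
        (JJ f (m + 1) (2 * i) - JJ f (m + 1) (2 * i + 1)) := by
    intro M
    induction M with
    | zero => intro _; simp
    | succ M ih =>
      intro hM
      rw [Finset.sum_range_succ, ← add_assoc, ← ih (by omega), pow_succ, mul_comm (2 ^ M) 2,
        sum_range_two, ← Finset.sum_add_distrib]
      refine Finset.sum_congr rfl fun i _ => ?_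
      rw [av_split N d M i (by omega), JJ_split f hf M i]
      unfold hb
      ring
  have := key N le_rfl
  simp only [av_leaf] at this
  exact this

/-- splitting the levels relative to the level `l` -/
lemma split_levels {E : Type*} [AddCommMonoid E] (N L l : ℕ) (hl : l < L) (G : ℕ → E) :
    ∑ m ∈ range N, G m = (∑ D ∈ range N, if l + D < N then G (l + D) else 0) +
      ∑ D ∈ range L, if D + 1 ≤ l ∧ l - (D + 1) < N then G (l - (D + 1)) else 0 := by
  rw [← Finset.sum_filter_add_sum_filter_not (range N) (fun m => l ≤ m), ← Finset.sum_filter,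
    ← Finset.sum_filter]
  congr 1
  · refine Finset.sum_nbij' (fun m => m - l) (fun D => l + D) ?_ ?_ ?_ ?_ ?_
    · intro m hm
      rw [Finset.mem_filter, Finset.mem_range] at hm ⊢
      omega
    · intro D hD
      rw [Finset.mem_filter, Finset.mem_range] at hD ⊢
      omega
    · intro m hm
      rw [Finset.mem_filter] at hm
      omega
    · intro D _
      simp
    · intro m hm
      rw [Finset.mem_filter] at hm
      congr 1
      omega
  · refine Finset.sum_nbij' (fun m => l - (m + 1)) (fun D => l - (D + 1)) ?_ ?_ ?_ ?_ ?_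
    · intro m hm
      rw [Finset.mem_filter, Finset.mem_range] at hm ⊢
      omega
    · intro D hD
      rw [Finset.mem_filter, Finset.mem_range] at hD ⊢
      omega
    · intro m hm
      rw [Finset.mem_filter] at hm
      omega
    · intro D hD
      rw [Finset.mem_filter] at hD
      omega
    · intro m hm
      rw [Finset.mem_filter] at hm
      congr 1
      omega

/-- power means -/
lemma sum_pow_mean (n : ℕ) (hn : 0 < n) (a : ℕ → ℝ) (ha : ∀ i, 0 ≤ a i) (r : ℝ) (hr : 1 ≤ r) :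
    (∑ i ∈ range n, a i) / n ≤ ((∑ i ∈ range n, a i ^ r) / n) ^ (1 / r) := by
  have hr0 : 0 < r := by linarith
  have hn0 : (0 : ℝ) < n := by exact_mod_cast hn
  have h1 : ((∑ i ∈ range n, a i) / n) ^ r ≤ (∑ i ∈ range n, a i ^ r) / n := by
    have := Real.rpow_arith_mean_le_arith_mean_rpow (range n) (fun _ => (1 : ℝ) / n) a
      (fun _ _ => by positivity) (by rw [Finset.sum_const, card_range, nsmul_eq_mul]; field_simp)
      (fun i _ => ha i) hr
    rw [← Finset.mul_sum, ← Finset.mul_sum] at this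
    rw [div_eq_inv_mul, div_eq_inv_mul]
    simpa [one_div] using this
  have h0 : 0 ≤ (∑ i ∈ range n, a i) / n := div_nonneg (Finset.sum_nonneg fun i _ => ha i) hn0.le
  calc (∑ i ∈ range n, a i) / n = (((∑ i ∈ range n, a i) / n) ^ r) ^ (1 / r) := by
        rw [← Real.rpow_mul h0, mul_one_div_cancel hr0.ne', Real.rpow_one]
    _ ≤ _ := Real.rpow_le_rpow (by positivity) h1 (by positivity)

end Pool.Agent.W278.EM
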