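import Pool.Agent.W278.EM.Basic

set_option autoImplicit false
open MeasureTheory Finset
open scoped ComplexConjugate

namespace Pool.Agent.W278.EM

open Pool.Agent.Helper873.OneVar Pool.Agent.Helper873.Product Pool.Agent.Helper873.Monomial
  Pool.Agent.Helper873.Alg Pool.Agent.Helper873.NT Pool.Agent.Helper873.Embed

lemma sum_rpow_le {ι : Type*} (S : Finset ι) (a : ι → ℝ) (ha : ∀ i ∈ S, 0 ≤ a i) (q : ℝ)
    (h0 : 0 < q) (h1 : q ≤ 1) : (∑ i ∈ S, a i) ^ q ≤ ∑ i ∈ S, a i ^ q := by
  classical
  induction S using Finset.induction_on with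
  | empty => simp [h0.ne']
  | insert i S hi ih =>
    rw [Finset.sum_insert hi, Finset.sum_insert hi]
    have hb : ∀ j ∈ S, 0 ≤ a j := fun j hj => ha j (Finset.mem_insert_of_mem hj)
    refine (Real.rpow_add_le_add_rpow (ha i (Finset.mem_insert_self _ _))
      (Finset.sum_nonneg hb) h0.le h1).trans ?_
    have := ih hb
    linarith

/-- Hölder for continuous functions on the torus -/
lemma holder_cont (p q : ℝ) (hpq : p.HolderConjugate q) (f g : TT → ℝ) (hf : Continuous f)
    (hg : Continuous g) (hf0 : ∀ z, 0 ≤ f z) (hg0 : ∀ z, 0 ≤ g z) :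
    ∫ z, f z * g z ∂tor ≤ (∫ z, f z ^ p ∂tor) ^ (1 / p) * (∫ z, g z ^ q ∂tor) ^ (1 / q) := by
  have hmem : ∀ (h : TT → ℝ) (s : ENNReal), Continuous h → MemLp h s tor := fun h s hh =>
    hh.memLp_of_hasCompactSupport (HasCompactSupport.of_compactSpace h)
  have := integral_mul_le_Lp_mul_Lq_of_nonneg hpq (μ := tor) (f := f) (g := g)
    (Filter.Eventually.of_forall hf0) (Filter.Eventually.of_forall hg0) (hmem f _ hf) (hmem g _ hg)
  exact this

theorem sml : SML := by
  intro r hr1 hr2 I La S g K hg hK hg0 hK0 hmem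
  have hr0 : 0 < r := by linarith
  set A : ℕ × ℕ → TT → ℝ := fun s z => ∑ i ∈ I.filter (fun i => S i = s), K i z with hA
  have hAc : ∀ s, Continuous (A s) := fun s => continuous_finsetSum _ fun i _ => hK i
  have hA0 : ∀ s z, 0 ≤ A s z := fun s z => Finset.sum_nonneg fun i _ => hK0 i z
  have h1 : ∀ z, ∑ i ∈ I, g (S i) z ^ 2 * K i z = ∑ s ∈ La, g s z ^ 2 * A s z := by
    intro z
    rw [← Finset.sum_fiberwise_of_maps_to hmem]
    refine Finset.sum_congr rfl fun s _ => ?_
    simp only [hA]
    rw [Finset.mul_sum]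
    refine Finset.sum_congr rfl fun i hi => ?_
    rw [(Finset.mem_filter.1 hi).2]
  have h2 : ∀ z, (∑ i ∈ I, g (S i) z ^ 2 * K i z) ^ (r / 2) ≤
      ∑ s ∈ La, g s z ^ r * A s z ^ (r / 2) := by
    intro z
    rw [h1]
    refine (sum_rpow_le La _ (fun s _ => mul_nonneg (by positivity) (hA0 s z)) (r / 2)
      (by linarith) (by linarith)).trans (le_of_eq ?_)
    refine Finset.sum_congr rfl fun s _ => ?_
    rw [Real.mul_rpow (by positivity) (hA0 s z), ← Real.rpow_natCast, ← Real.rpow_mul (hg0 s z)]
    congr 2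
    push_cast
    ring
  have hc1 : ∀ s, Continuous fun z => g s z ^ r := fun s => (hg s).rpow_const fun z => Or.inr hr0.le
  have hc2 : ∀ s, Continuous fun z => A s z ^ (r / 2) := fun s =>
    (hAc s).rpow_const fun z => Or.inr (by linarith)
  calc ∫ z, (∑ i ∈ I, g (S i) z ^ 2 * K i z) ^ (r / 2) ∂tor
      ≤ ∫ z, ∑ s ∈ La, g s z ^ r * A s z ^ (r / 2) ∂tor := by
        refine integral_mono ?_ ?_ h2
        · refine integrable_of_cont (Continuous.rpow_const ?_ fun z => Or.inr (by linarith))
          exact continuous_finsetSum _ fun i _ => ((hg _).pow 2).mul (hK i)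
        · exact integrable_of_cont (continuous_finsetSum _ fun s _ => (hc1 s).mul (hc2 s))
    _ = ∑ s ∈ La, ∫ z, g s z ^ r * A s z ^ (r / 2) ∂tor :=
        integral_finsetSum _ fun s _ => integrable_of_cont ((hc1 s).mul (hc2 s))
    _ ≤ _ := by
        refine Finset.sum_le_sum fun s _ => ?_
        have hpq : (2 / (2 - r)).HolderConjugate (2 / r) := by
          rw [Real.holderConjugate_iff]
          constructor
          · rw [lt_div_iff₀ (by linarith)]; linarith
          · rw [inv_div, inv_div]; ring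
        have h3 := holder_cont _ _ hpq _ _ (hc1 s) (hc2 s) (fun z => Real.rpow_nonneg (hg0 s z) _)
          (fun z => Real.rpow_nonneg (hA0 s z) _)
        have e1 : ∀ z, (g s z ^ r) ^ (2 / (2 - r)) = g s z ^ (2 * r / (2 - r)) := by
          intro z
          rw [← Real.rpow_mul (hg0 s z)]
          congr 1
          ring
        have e2 : ∀ z, (A s z ^ (r / 2)) ^ (2 / r) = A s z := by
          intro z
          rw [← Real.rpow_mul (hA0 s z)]
          have : r / 2 * (2 / r) = 1 := by field_simp
          rw [this, Real.rpow_one]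
        simp_rw [e1, e2] at h3
        have e3 : 1 / (2 / (2 - r)) = 1 - r / 2 := by rw [one_div_div]; ring
        have e4 : 1 / (2 / r) = r / 2 := by rw [one_div_div]
        rw [e3, e4] at h3
        have e5 : ∫ z, A s z ∂tor = ∑ i ∈ I.filter (fun i => S i = s), ∫ z, K i z ∂tor :=
          integral_finsetSum _ fun i _ => integrable_of_cont (hK i)
        rw [e5] at h3
        exact h3

end Pool.Agent.W278.EM
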