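import Pool.Agent.W278.EM.Basic

set_option autoImplicit false
open MeasureTheory Finset
open scoped ComplexConjugate

namespace Pool.Agent.W278.EM

open Pool.Agent.Helper873.OneVar Pool.Agent.Helper873.Product Pool.Agent.Helper873.Monomial
  Pool.Agent.Helper873.Alg Pool.Agent.Helper873.NT Pool.Agent.Helper873.Embed

/-- Cauchy formula in one variable -/
lemma cauchy_one (φ : ℂ → ℂ) (hφ : Differentiable ℂ φ) (v : ℂ) (hv : ‖v‖ < 1) :
    ∫ t : UnitAddCircle, φ (zet t) * (1 - v * conj (zet t))⁻¹ ∂AddCircle.haarAddCircle = φ v := by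
  have h1 := DiffContOnCl.circleAverage_smul_div (c := 0) (R := 1) (w := v) (f := φ)
    (by simpa using hφ.diffContOnCl) (by simpa using hv)
  rw [← h1, ← integral_zet]
  refine integral_congr_ae (Filter.Eventually.of_forall fun t => ?_)
  simp only [smul_eq_mul, sub_zero]
  have hz : zet t ≠ 0 := by
    rw [← norm_pos_iff, norm_zet]; norm_num
  have hc : conj (zet t) = (zet t)⁻¹ := by
    rw [Complex.inv_def, Complex.normSq_eq_norm_sq, norm_zet]; simp
  have hne : zet t - v ≠ 0 := by
    intro h
    have : ‖zet t‖ = ‖v‖ := by rw [sub_eq_zero.1 h]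
    rw [norm_zet] at this
    linarith
  rw [hc]
  have : 1 - v * (zet t)⁻¹ = (zet t - v) / zet t := by field_simp
  rw [this, inv_div]
  ring

/-- mixed point -/
noncomputable def mix (v : ℕ → ℂ) (j : ℕ) (z : TT) : ℕ → ℂ := fun k => if k < j then v k else zz z k

lemma continuous_mix (v : ℕ → ℂ) (j : ℕ) : Continuous (mix v j) := by
  refine continuous_pi fun k => ?_
  unfold mix
  by_cases hk : k < j
  · simp only [hk, if_true]; exact continuous_const
  · simp only [hk, if_false]; exact (continuous_apply k).comp continuous_zz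

lemma continuous_fac (v : ℕ → ℂ) (hv : ∀ k, ‖v k‖ < 1) (k : ℕ) :
    Continuous fun z : TT => (1 - v k * conj (zet (z k)))⁻¹ := by
  refine Continuous.inv₀ ?_ ?_
  · exact continuous_const.sub (continuous_const.mul
      (Complex.continuous_conj.comp (continuous_zet.comp (continuous_apply k))))
  · intro z h
    have h1 : ‖v k * conj (zet (z k))‖ = 1 := by
      have : v k * conj (zet (z k)) = 1 := by linear_combination -h
      rw [this]; simp
    rw [norm_mul, RCLike.norm_conj, norm_zet, mul_one] at h1
    exact absurd h1 (hv k).ne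

theorem srep : SRep := by
  intro n Φ hΦ hdep hent v hv
  have key : ∀ j, j ≤ n → ∫ z, Φ (zz z) * kc n v z ∂tor =
      ∫ z, Φ (mix v j z) * ∏ k ∈ Ico j n, (1 - v k * conj (zet (z k)))⁻¹ ∂tor := by
    intro j
    induction j with
    | zero =>
      intro _
      refine integral_congr_ae (Filter.Eventually.of_forall fun z => ?_)
      simp only
      unfold kc
      rw [Finset.range_eq_Ico]
      congr 2
    | succ j ih =>
      intro hj
      rw [ih (by omega)]
      have hcont : Continuous fun z : TT => Φ (mix v j z) *
          ∏ k ∈ Ico j n, (1 - v k * conj (zet (z k)))⁻¹ :=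
        (hΦ.comp (continuous_mix v j)).mul (continuous_finsetProd _ fun k _ => continuous_fac v hv k)
      obtain ⟨C, hC⟩ : ∃ C : ℝ, ∀ z : TT, ‖Φ (mix v j z) *
          ∏ k ∈ Ico j n, (1 - v k * conj (zet (z k)))⁻¹‖ ≤ C := by
        obtain ⟨C, hC⟩ := (isCompact_range hcont.norm).bddAbove
        exact ⟨C, fun z => hC ⟨z, rfl⟩⟩
      rw [integral_resample j _ hcont C hC]
      refine integral_congr_ae (Filter.Eventually.of_forall fun z => ?_)
      simp only
      have e1 : ∀ t : UnitAddCircle, mix v j (Function.update z j t) =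
          Function.update (mix v (j + 1) z) j (zet t) := by
        intro t
        funext k
        unfold mix zz
        by_cases hk : k = j
        · subst hk; simp
        · rw [Function.update_of_ne hk, Function.update_of_ne hk]
          by_cases h1 : k < j
          · simp [h1, Nat.lt_succ_of_lt h1]
          · have h2 : ¬ k < j + 1 := by omega
            simp [h1, h2]
      have e2 : ∀ t : UnitAddCircle,
          ∏ k ∈ Ico j n, (1 - v k * conj (zet (Function.update z j t k)))⁻¹ =
          (1 - v j * conj (zet t))⁻¹ * ∏ k ∈ Ico (j + 1) n, (1 - v k * conj (zet (z k)))⁻¹ := by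
        intro t
        rw [Finset.prod_eq_prod_Ico_succ_bot (by omega), Function.update_self]
        congr 1
        refine Finset.prod_congr rfl fun k hk => ?_
        rw [Function.update_of_ne (by have := (Finset.mem_Ico.1 hk).1; omega)]
      simp_rw [e1, e2]
      have e3 : ∀ t : UnitAddCircle, Φ (Function.update (mix v (j + 1) z) j (zet t)) *
          ((1 - v j * conj (zet t))⁻¹ * ∏ k ∈ Ico (j + 1) n, (1 - v k * conj (zet (z k)))⁻¹) =
          (Φ (Function.update (mix v (j + 1) z) j (zet t)) * (1 - v j * conj (zet t))⁻¹) *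
          ∏ k ∈ Ico (j + 1) n, (1 - v k * conj (zet (z k)))⁻¹ := fun t => by ring
      simp_rw [e3]
      rw [integral_mul_const, cauchy_one _ (hent _ j) (v j) (hv j)]
      congr 2
      funext k
      by_cases hk : k = j
      · subst hk; simp [mix]
      · rw [Function.update_of_ne hk]
  rw [key n le_rfl]
  simp only [Finset.Ico_self, Finset.prod_empty, mul_one]
  have : ∀ z : TT, Φ (mix v n z) = Φ v := fun z => hdep _ _ fun k hk => by simp [mix, hk]
  simp_rw [this]
  simp

end Pool.Agent.W278.EM
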