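import Pool.Agent.W278.EM.Haar
import Pool.Agent.W278.EM.ML
import Pool.Agent.W278.EM.Rep
import Pool.Agent.W278.EM.PII

set_option autoImplicit false
open MeasureTheory Finset
open scoped ComplexConjugate

namespace Pool.Agent.W278.EM

open Pool.Agent.Helper873.OneVar Pool.Agent.Helper873.Product Pool.Agent.Helper873.Monomial
  Pool.Agent.Helper873.Alg Pool.Agent.Helper873.NT Pool.Agent.Helper873.Embed

lemma continuous_vs_pt : Continuous fun t : ℝ => vs (pt 0 0 t) := by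
  refine continuous_pi fun k => ?_
  unfold vs
  have h1 : Continuous fun t : ℝ => -(pt 0 0 t) := by unfold pt; fun_prop
  refine h1.const_cpow (Or.inl ?_)
  exact_mod_cast (Nat.prime_nth_prime k).ne_zero

lemma continuous_trm (n : ℕ) : Continuous (tr n) := by
  refine continuous_pi fun k => ?_
  unfold tr
  by_cases hk : k < n
  · simp only [hk, if_true]; exact continuous_apply k
  · simp only [hk, if_false]; exact continuous_const

lemma continuous_dl (c : ℕ →₀ ℂ) (l : ℕ) : Continuous (dl c l) := by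
  unfold dl
  exact ((continuous_poly c).comp (continuous_trm _)).sub ((continuous_poly c).comp (continuous_trm _))

lemma exists_L (c : ℕ →₀ ℂ) : ∃ L, 3 ≤ L ∧ ∀ w, poly c (tr (nn L) w) = poly c w := by
  obtain ⟨N₀, hN₀⟩ := exists_bound c
  have h1 : Filter.Tendsto (fun l : ℕ => nn l) Filter.atTop Filter.atTop :=
    NN_tendsto.comp (tendsto_pow_atTop_atTop_of_one_lt (by norm_num : (1 : ℕ) < 2))
  obtain ⟨L, hL3, hL⟩ := ((Filter.eventually_ge_atTop 3).and (h1.eventually_ge_atTop N₀)).exists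
  refine ⟨L, hL3, fun w => poly_dep c N₀ hN₀ _ _ fun j hj => ?_⟩
  unfold tr
  rw [if_pos (by omega)]

lemma depC_of_tr {c : ℕ →₀ ℂ} {n : ℕ} (h : ∀ w, poly c (tr n w) = poly c w) : DepC n (poly c) := by
  intro w w' hw
  rw [← h w, ← h w']
  have : tr n w = tr n w' := by
    funext k
    unfold tr
    by_cases hk : k < n
    · simp [hk, hw k hk]
    · simp [hk]
  rw [this]

lemma sum_dl (c : ℕ →₀ ℂ) (L : ℕ) (hL3 : 3 ≤ L) (hL : ∀ w, poly c (tr (nn L) w) = poly c w)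
    (w : ℕ → ℂ) : poly c w = poly c (tr (nn 3) w) + ∑ l ∈ Ico 3 L, dl c l w := by
  unfold dl
  rw [Finset.sum_Ico_sub (fun l => poly c (tr (nn l) w)) hL3, hL]
  ring

/-- norm comparison on the torus -/
lemma pow_mean_torus (f : TT → ℝ) (hf : Continuous f) (hf0 : ∀ z, 0 ≤ f z) (a b : ℝ) (ha : 0 < a)
    (hab : a < b) : (∫ z, f z ^ a ∂tor) ^ (1 / a) ≤ (∫ z, f z ^ b ∂tor) ^ (1 / b) := by
  have hb : 0 < b := ha.trans hab
  have hc : Continuous fun z => f z ^ a := hf.rpow_const fun z => Or.inr ha.le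
  have hpq : (b / a).HolderConjugate (b / (b - a)) := by
    rw [Real.holderConjugate_iff]
    refine ⟨(one_lt_div ha).2 hab, ?_⟩
    have : b - a ≠ 0 := by linarith
    field_simp
    ring
  have h := holder_cont (b / a) (b / (b - a)) hpq (fun z => f z ^ a) (fun _ => 1) hc
    continuous_const (fun z => Real.rpow_nonneg (hf0 z) _) (fun _ => by norm_num)
  simp only [mul_one, Real.one_rpow, integral_const, probReal_univ, smul_eq_mul] at h
  have e : ∀ z, (f z ^ a) ^ (b / a) = f z ^ b := fun z => by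
    rw [← Real.rpow_mul (hf0 z)]; congr 1; field_simp
  simp_rw [e] at h
  have h0 : 0 ≤ ∫ z, f z ^ b ∂tor := integral_nonneg fun z => Real.rpow_nonneg (hf0 z) _
  calc (∫ z, f z ^ a ∂tor) ^ (1 / a) ≤ ((∫ z, f z ^ b ∂tor) ^ (1 / (b / a))) ^ (1 / a) :=
        Real.rpow_le_rpow (integral_nonneg fun z => Real.rpow_nonneg (hf0 z) _) h (by positivity)
    _ = _ := by
        rw [← Real.rpow_mul h0]; congr 1; field_simp

lemma low_bound : ∃ K : ℝ, 0 < K ∧ ∀ (c : ℕ →₀ ℂ) (L : ℕ), 3 ≤ L →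
    (∀ w, poly c (tr (nn L) w) = poly c w) →
    ∀ t : ℝ, ‖poly c (tr (nn 3) (vs (pt 0 0 t)))‖ ≤ K * ∫ z, ‖poly c (zz z)‖ ∂tor := by
  have hs2 : (2 : ℝ) ^ (-(1 / 2) : ℝ) < 1 :=
    Real.rpow_lt_one_of_one_lt_of_neg (by norm_num) (by norm_num)
  refine ⟨∏ _k ∈ range (nn 3), (1 - (2 : ℝ) ^ (-(1 / 2) : ℝ))⁻¹,
    Finset.prod_pos fun _ _ => inv_pos.2 (by linarith), ?_⟩
  intro c L hL3 hL t
  set v : ℕ → ℂ := tr (nn 3) (vs (pt 0 0 t)) with hv
  have hvs : ∀ k, ‖vs (pt 0 0 t) k‖ ≤ (2 : ℝ) ^ (-(1 / 2) : ℝ) := by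
    intro k
    rw [norm_vs, pt_re]
    have h2 := two_le_pr k
    have e : -(1 / 2 + (0 : ℝ) / 2 ^ 0) = -(1 / 2) := by norm_num
    rw [e]
    exact Real.rpow_le_rpow_of_nonpos (by norm_num) h2 (by norm_num)
  have hv1 : ∀ k, ‖v k‖ < 1 := by
    intro k
    rw [hv]
    unfold tr
    split_ifs
    · exact (hvs k).trans_lt hs2
    · simp
  have h := srep (nn L) (poly c) (continuous_poly c) (depC_of_tr hL) (entire_poly c) v hv1
  rw [← h]
  refine (norm_integral_le_integral_norm _).trans ?_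
  rw [← integral_const_mul]
  refine integral_mono (integrable_of_cont ?_) (integrable_of_cont ?_) fun z => ?_
  · exact ((((continuous_poly c).comp continuous_zz).mul (continuous_kc _ _ hv1)).norm)
  · exact continuous_const.mul (((continuous_poly c).comp continuous_zz).norm)
  · simp only
    rw [norm_mul, mul_comm]
    refine mul_le_mul_of_nonneg_right ?_ (norm_nonneg _)
    have hkc : kc (nn L) v z = ∏ k ∈ range (nn 3), (1 - v k * conj (zet (z k)))⁻¹ := by
      unfold kc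
      symm
      refine Finset.prod_subset (Finset.range_mono (nn_mono hL3)) fun k _ hk => ?_
      have : v k = 0 := by
        rw [hv]; unfold tr; rw [if_neg (by simpa using hk)]
      rw [this]; simp
    rw [hkc, norm_prod]
    refine Finset.prod_le_prod (fun k _ => norm_nonneg _) fun k hk => ?_
    have hvk : ‖v k‖ ≤ (2 : ℝ) ^ (-(1 / 2) : ℝ) := by
      rw [hv]; unfold tr; rw [if_pos (Finset.mem_range.1 hk)]; exact hvs k
    rw [norm_inv]
    refine inv_anti₀ (by linarith) ?_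
    have h1 : ‖v k * conj (zet (z k))‖ = ‖v k‖ := by
      rw [norm_mul, RCLike.norm_conj, norm_zet, mul_one]
    calc 1 - (2 : ℝ) ^ (-(1 / 2) : ℝ) ≤ ‖(1 : ℂ)‖ - ‖v k * conj (zet (z k))‖ := by
          rw [h1, norm_one]; linarith
      _ ≤ _ := norm_sub_norm_le _ _

lemma nrm_one_le (c : ℕ →₀ ℂ) (p : ℝ) (hp : 1 < p) :
    ∫ z, ‖poly c (zz z)‖ ∂tor ≤ nrmP p c := by
  have h := pow_mean_torus (fun z => ‖poly c (zz z)‖) (((continuous_poly c).comp continuous_zz).norm)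
    (fun z => norm_nonneg _) 1 p one_pos hp
  unfold nrmP
  simpa using h

lemma nrm_two_le (c : ℕ →₀ ℂ) (p : ℝ) (hp : 2 < p) :
    Real.sqrt (∫ z, ‖poly c (zz z)‖ ^ 2 ∂tor) ≤ nrmP p c := by
  have h := pow_mean_torus (fun z => ‖poly c (zz z)‖) (((continuous_poly c).comp continuous_zz).norm)
    (fun z => norm_nonneg _) 2 p two_pos hp
  rw [Real.sqrt_eq_rpow]
  unfold nrmP
  simpa using h

lemma sum_geom_bound (q : ℝ) (hq0 : 0 ≤ q) (hq1 : q < 1) : ∃ K : ℝ, 0 < K ∧ ∀ N : ℕ,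
    ∑ D ∈ range N, ((D : ℝ) + 1) * q ^ D ≤ K := by
  have hs : Summable fun D : ℕ => ((D : ℝ) + 1) * q ^ D := by
    have h1 := summable_pow_mul_geometric_of_norm_lt_one 1 (r := q)
      (by rwa [Real.norm_of_nonneg hq0])
    have h2 := summable_geometric_of_lt_one hq0 hq1
    refine (h1.add h2).congr fun D => ?_
    ring
  refine ⟨∑' D : ℕ, ((D : ℝ) + 1) * q ^ D, ?_, fun N => hs.sum_le_tsum _ fun D _ => by positivity⟩
  refine hs.tsum_pos (fun D => by positivity) 0 (by norm_num)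

theorem spair_of (h1 : SPI) (h2 : SPII) (hCZ : SCZ) (hL2 : SL2) : SPair := by
  intro r hr1 hr2
  have hr0 : 0 < r := by linarith
  obtain ⟨C1, hC1, g1⟩ := h1 r hr1 hr2
  obtain ⟨C2, hC2, g2⟩ := h2 r hr1 hr2
  obtain ⟨C3, hC3, g3⟩ := hCZ r hr1 hr2
  obtain ⟨C4, hC4, g4⟩ := hL2
  obtain ⟨K0, hK0, g5⟩ := low_bound
  have hq1 : (2 : ℝ) ^ (-(1 - 1 / r)) < 1 := by
    refine Real.rpow_lt_one_of_one_lt_of_neg (by norm_num) ?_
    have : 1 / r < 1 := (div_lt_one hr0).2 hr1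
    linarith
  have hq2 : (2 : ℝ) ^ (-(1 / 2) : ℝ) < 1 :=
    Real.rpow_lt_one_of_one_lt_of_neg (by norm_num) (by norm_num)
  obtain ⟨K1, hK1, s1⟩ := sum_geom_bound _ (by positivity) hq1
  obtain ⟨K2, hK2, s2⟩ := sum_geom_bound _ (by positivity) hq2
  set p := r / (r - 1) with hp
  have hp2 : 2 < p := by
    rw [hp, lt_div_iff₀ (by linarith)]; linarith
  refine ⟨2 * K0 + Real.sqrt C4 + (C1 * K1 + C2 * K2) * C3 ^ (1 / r), by positivity, ?_⟩
  intro c N d
  obtain ⟨L, hL3, hL⟩ := exists_L c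
  obtain ⟨Sf, lam, hst⟩ := g3 N d
  set M : ℝ := (∑ i ∈ range (2 ^ N), ‖d i‖ ^ r) / 2 ^ N with hM
  have hM0 : 0 ≤ M := div_nonneg (Finset.sum_nonneg fun i _ => by positivity) (by positivity)
  have hΛ : C3 * (∑ i ∈ range (2 ^ N), ‖d i‖ ^ r) / 2 ^ N = C3 * M := by rw [hM]; ring
  rw [hΛ] at hst
  have hmean : (∑ i ∈ range (2 ^ N), ‖d i‖) / 2 ^ N ≤ M ^ (1 / r) := by
    have := sum_pow_mean (2 ^ N) (by positivity) (fun i => ‖d i‖) (fun i => norm_nonneg _) r hr1.le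
    simpa [hM] using this
  have hnrm := nrmP_nonneg p c
  set f : ℝ → ℂ := fun t => poly c (vs (pt 0 0 t)) with hf
  set f0 : ℝ → ℂ := fun t => poly c (tr (nn 3) (vs (pt 0 0 t))) with hf0
  set F : ℕ → ℝ → ℂ := fun l t => dl c l (vs (pt 0 0 t)) with hF
  have hfc : Continuous f := (continuous_poly c).comp continuous_vs_pt
  have hf0c : Continuous f0 := (continuous_poly c).comp ((continuous_trm _).comp continuous_vs_pt)
  have hFc : ∀ l, Continuous (F l) := fun l => (continuous_dl c l).comp continuous_vs_pt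
  have hdec : ∀ t, f t = f0 t + ∑ l ∈ Ico 3 L, F l t := fun t => sum_dl c L hL3 hL _
  have hf0b : ∀ t, ‖f0 t‖ ≤ K0 * nrmP p c := fun t =>
    (g5 c L hL3 hL t).trans (mul_le_mul_of_nonneg_left (nrm_one_le c p (by linarith)) hK0.le)
  have hJ0 : ∀ m i, ‖JJ f0 m i‖ ≤ K0 * nrmP p c / 2 ^ m := by
    intro m i
    unfold JJ
    refine (intervalIntegral.norm_integral_le_of_norm_le_const fun t _ => hf0b t).trans
      (le_of_eq ?_)
    have : ((i : ℝ) + 1) / 2 ^ m - (i : ℝ) / 2 ^ m = 1 / 2 ^ m := by ring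
    rw [this, abs_of_nonneg (by positivity)]
    ring
  have hJf : ∀ m i, JJ f m i = JJ f0 m i + ∑ l ∈ Ico 3 L, JJ (F l) m i := by
    intro m i
    unfold JJ
    simp_rw [hdec]
    rw [intervalIntegral.integral_add (hf0c.intervalIntegrable _ _)
      ((continuous_finsetSum _ fun l _ => hFc l).intervalIntegrable _ _),
      intervalIntegral.integral_finsetSum fun l _ => (hFc l).intervalIntegrable _ _]
  -- the expansion
  have hexp : ∑ i ∈ range (2 ^ N), d i * JJ f N i = ∑ i ∈ range (2 ^ N), d i * JJ f0 N i +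
      av N d 0 0 * (JJ f 0 0 - JJ f0 0 0) + ∑ l ∈ Ico 3 L, ∑ m ∈ range N, ∑ i ∈ range (2 ^ m),
        hb N d m i * HI c l m i := by
    have e1 := haar_exp f hfc N d
    have e2 := haar_exp f0 hf0c N d
    rw [e1, e2, Finset.sum_comm]
    have e3 : ∀ m ∈ range N, ∑ l ∈ Ico 3 L, ∑ i ∈ range (2 ^ m), hb N d m i * HI c l m i =
        ∑ i ∈ range (2 ^ m), hb N d m i * (JJ f (m + 1) (2 * i) - JJ f (m + 1) (2 * i + 1)) -
        ∑ i ∈ range (2 ^ m), hb N d m i * (JJ f0 (m + 1) (2 * i) - JJ f0 (m + 1) (2 * i + 1)) := by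
      intro m _
      rw [Finset.sum_comm, ← Finset.sum_sub_distrib]
      refine Finset.sum_congr rfl fun i _ => ?_
      rw [← Finset.mul_sum, ← mul_sub, hJf, hJf]
      congr 1
      have : ∀ l ∈ Ico 3 L, HI c l m i = JJ (F l) (m + 1) (2 * i) - JJ (F l) (m + 1) (2 * i + 1) :=
        fun l _ => (JJ_haar (F l) (hFc l) m i).symm
      rw [Finset.sum_congr rfl this, Finset.sum_sub_distrib]
      ring
    rw [Finset.sum_congr rfl e3, Finset.sum_sub_distrib]
    ring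
  -- first part
  have hdm : ∑ i ∈ range (2 ^ N), ‖d i‖ * (1 / 2 ^ N) ≤ M ^ (1 / r) := by
    rw [← Finset.sum_mul]
    refine le_trans (le_of_eq ?_) hmean
    ring
  have b1 : ‖∑ i ∈ range (2 ^ N), d i * JJ f0 N i‖ ≤ K0 * nrmP p c * M ^ (1 / r) := by
    refine (norm_sum_le _ _).trans ?_
    refine le_trans ?_ (mul_le_mul_of_nonneg_left hdm (by positivity))
    rw [Finset.mul_sum]
    refine Finset.sum_le_sum fun i _ => ?_
    rw [norm_mul]
    refine (mul_le_mul_of_nonneg_left (hJ0 N i) (norm_nonneg _)).trans (le_of_eq ?_)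
    ring
  -- second part
  have hav : ‖av N d 0 0‖ ≤ M ^ (1 / r) := by
    unfold av
    rw [norm_div, norm_pow, Complex.norm_two]
    refine le_trans ?_ hmean
    simp only [Nat.sub_zero, zero_mul, zero_add]
    exact div_le_div_of_nonneg_right (norm_sum_le _ _) (by positivity)
  have hJf0 : ‖JJ f 0 0‖ ≤ Real.sqrt C4 * nrmP p c := by
    have e : JJ f 0 0 = ∫ t in (0 : ℝ)..1, f t := by
      unfold JJ; simp
    rw [e]
    have h3 : ‖∫ t in (0 : ℝ)..1, f t‖ ≤ ∫ t in (0 : ℝ)..1, ‖f t‖ :=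
      intervalIntegral.norm_integral_le_integral_norm (by norm_num)
    have h4 : (∫ t in (0 : ℝ)..1, ‖f t‖) ^ 2 ≤ ∫ t in (0 : ℝ)..1, ‖f t‖ ^ 2 := by
      set A := ∫ t in (0 : ℝ)..1, ‖f t‖ with hA
      have h5 : 0 ≤ ∫ t in (0 : ℝ)..1, (‖f t‖ - A) ^ 2 :=
        intervalIntegral.integral_nonneg (by norm_num) fun t _ => by positivity
      have e5 : ∫ t in (0 : ℝ)..1, (‖f t‖ - A) ^ 2 = (∫ t in (0 : ℝ)..1, ‖f t‖ ^ 2) - A ^ 2 := by
        have e6 : ∀ t, (‖f t‖ - A) ^ 2 = ‖f t‖ ^ 2 - 2 * A * ‖f t‖ + A ^ 2 := fun t => by ring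
        simp_rw [e6]
        rw [intervalIntegral.integral_add, intervalIntegral.integral_sub,
          intervalIntegral.integral_const_mul, ← hA]
        · simp; ring
        · exact (hfc.norm.pow 2).intervalIntegrable _ _
        · exact (continuous_const.mul hfc.norm).intervalIntegrable _ _
        · exact ((hfc.norm.pow 2).sub (continuous_const.mul hfc.norm)).intervalIntegrable _ _
        · exact continuous_const.intervalIntegrable _ _
      linarith
    have h6 := g4 c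
    have h7 : 0 ≤ ∫ t in (0 : ℝ)..1, ‖f t‖ :=
      intervalIntegral.integral_nonneg (by norm_num) fun t _ => norm_nonneg _
    calc ‖∫ t in (0 : ℝ)..1, f t‖ ≤ ∫ t in (0 : ℝ)..1, ‖f t‖ := h3
      _ ≤ Real.sqrt (C4 * ∫ z, ‖poly c (zz z)‖ ^ 2 ∂tor) := Real.le_sqrt_of_sq_le (h4.trans h6)
      _ = Real.sqrt C4 * Real.sqrt (∫ z, ‖poly c (zz z)‖ ^ 2 ∂tor) := Real.sqrt_mul hC4.le _
      _ ≤ _ := mul_le_mul_of_nonneg_left (nrm_two_le c p hp2) (Real.sqrt_nonneg _)
  have b2 : ‖av N d 0 0 * (JJ f 0 0 - JJ f0 0 0)‖ ≤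
      (Real.sqrt C4 + K0) * nrmP p c * M ^ (1 / r) := by
    rw [norm_mul]
    have h8 : ‖JJ f 0 0 - JJ f0 0 0‖ ≤ (Real.sqrt C4 + K0) * nrmP p c := by
      refine (norm_sub_le _ _).trans ?_
      have := hJ0 0 0
      rw [pow_zero, div_one] at this
      linarith
    rw [mul_comm]
    exact mul_le_mul h8 hav (norm_nonneg _) (by positivity)
  -- third part
  have hsplit : ∑ l ∈ Ico 3 L, ∑ m ∈ range N, ∑ i ∈ range (2 ^ m), hb N d m i * HI c l m i =
      (∑ D ∈ range N, ∑ l ∈ Ico 3 L, if l + D < N then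
        ∑ i ∈ range (2 ^ (l + D)), hb N d (l + D) i * HI c l (l + D) i else 0) +
      ∑ D ∈ range L, ∑ l ∈ Ico 3 L, if D + 1 ≤ l ∧ l - (D + 1) < N then
        ∑ i ∈ range (2 ^ (l - (D + 1))), hb N d (l - (D + 1)) i * HI c l (l - (D + 1)) i else 0 := by
    rw [Finset.sum_comm (s := range N), Finset.sum_comm (s := range L), ← Finset.sum_add_distrib]
    refine Finset.sum_congr rfl fun l hl => ?_
    exact split_levels N L l (Finset.mem_Ico.1 hl).2
      (fun m => ∑ i ∈ range (2 ^ m), hb N d m i * HI c l m i)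
  have hΛr : (C3 * M) ^ (1 / r) = C3 ^ (1 / r) * M ^ (1 / r) := Real.mul_rpow hC3.le hM0
  have b3 : ‖∑ D ∈ range N, ∑ l ∈ Ico 3 L, if l + D < N then
        ∑ i ∈ range (2 ^ (l + D)), hb N d (l + D) i * HI c l (l + D) i else 0‖ ≤
      C1 * K1 * C3 ^ (1 / r) * nrmP p c * M ^ (1 / r) := by
    refine (norm_sum_le _ _).trans ?_
    calc ∑ D ∈ range N, ‖∑ l ∈ Ico 3 L, if l + D < N then
          ∑ i ∈ range (2 ^ (l + D)), hb N d (l + D) i * HI c l (l + D) i else 0‖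
        ≤ ∑ D ∈ range N, (((D : ℝ) + 1) * ((2 : ℝ) ^ (-(1 - 1 / r))) ^ D) *
            (C1 * C3 ^ (1 / r) * nrmP p c * M ^ (1 / r)) := by
          refine Finset.sum_le_sum fun D _ => (g1 c L hL N D _ Sf lam _ hst).trans (le_of_eq ?_)
          rw [hΛr, ← Real.rpow_natCast, ← Real.rpow_mul (by norm_num)]
          have : -(1 - 1 / r) * (D : ℝ) = -(D : ℝ) * (1 - 1 / r) := by ring
          rw [this]
          ring
      _ ≤ K1 * (C1 * C3 ^ (1 / r) * nrmP p c * M ^ (1 / r)) := by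
          rw [← Finset.sum_mul]
          exact mul_le_mul_of_nonneg_right (s1 N) (by positivity)
      _ = _ := by ring
  have b4 : ‖∑ D ∈ range L, ∑ l ∈ Ico 3 L, if D + 1 ≤ l ∧ l - (D + 1) < N then
        ∑ i ∈ range (2 ^ (l - (D + 1))), hb N d (l - (D + 1)) i * HI c l (l - (D + 1)) i else 0‖ ≤
      C2 * K2 * C3 ^ (1 / r) * nrmP p c * M ^ (1 / r) := by
    refine (norm_sum_le _ _).trans ?_
    calc ∑ D ∈ range L, ‖∑ l ∈ Ico 3 L, if D + 1 ≤ l ∧ l - (D + 1) < N then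
          ∑ i ∈ range (2 ^ (l - (D + 1))), hb N d (l - (D + 1)) i * HI c l (l - (D + 1)) i else 0‖
        ≤ ∑ D ∈ range L, (((D : ℝ) + 1) * ((2 : ℝ) ^ (-(1 / 2) : ℝ)) ^ D) *
            (C2 * C3 ^ (1 / r) * nrmP p c * M ^ (1 / r)) := by
          refine Finset.sum_le_sum fun D _ => (g2 c L hL N D _ Sf lam _ hst).trans ?_
          rw [hΛr, ← Real.rpow_natCast, ← Real.rpow_mul (by norm_num)]
          have e7 : -(1 / 2) * (D : ℝ) = -(D : ℝ) / 2 := by ring
          rw [e7]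
          have h9 : (0 : ℝ) ≤ (D : ℝ) := by positivity
          have h10 : 0 ≤ (2 : ℝ) ^ (-(D : ℝ) / 2) * (C2 * C3 ^ (1 / r) * nrmP p c * M ^ (1 / r)) := by
            positivity
          nlinarith
      _ ≤ K2 * (C2 * C3 ^ (1 / r) * nrmP p c * M ^ (1 / r)) := by
          rw [← Finset.sum_mul]
          exact mul_le_mul_of_nonneg_right (s2 L) (by positivity)
      _ = _ := by ring
  change ‖∑ i ∈ range (2 ^ N), d i * JJ f N i‖ ≤ _
  rw [hexp, hsplit]
  calc _ ≤ ‖∑ i ∈ range (2 ^ N), d i * JJ f0 N i + av N d 0 0 * (JJ f 0 0 - JJ f0 0 0)‖ +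
        ‖_ + _‖ := norm_add_le _ _
    _ ≤ (‖∑ i ∈ range (2 ^ N), d i * JJ f0 N i‖ + ‖av N d 0 0 * (JJ f 0 0 - JJ f0 0 0)‖) +
        (‖_‖ + ‖_‖) := add_le_add (norm_add_le _ _) (norm_add_le _ _)
    _ ≤ (K0 * nrmP p c * M ^ (1 / r) + (Real.sqrt C4 + K0) * nrmP p c * M ^ (1 / r)) +
        (C1 * K1 * C3 ^ (1 / r) * nrmP p c * M ^ (1 / r) +
          C2 * K2 * C3 ^ (1 / r) * nrmP p c * M ^ (1 / r)) :=
        add_le_add (add_le_add b1 b2) (add_le_add b3 b4)
    _ = _ := by ring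

end Pool.Agent.W278.EM
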