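import Pool.Agent.W278.EM.Pair

set_option autoImplicit false
open MeasureTheory Finset
open scoped ComplexConjugate

namespace Pool.Agent.W278.EM

open Pool.Agent.Helper873.OneVar Pool.Agent.Helper873.Product Pool.Agent.Helper873.Monomial
  Pool.Agent.Helper873.Alg Pool.Agent.Helper873.NT Pool.Agent.Helper873.Embed

/-- comparison of the `p`-th power integral with the dyadic averages -/
lemma dyadic_approx (f : ℝ → ℂ) (hf : Continuous f) (p : ℝ) (hp : 0 < p) (ε : ℝ) (hε : 0 < ε) :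
    ∃ N : ℕ, ∫ t in (0 : ℝ)..1, ‖f t‖ ^ p ≤
      (∑ i ∈ range (2 ^ N), ‖2 ^ N * JJ f N i‖ ^ p) / 2 ^ N + ε := by
  obtain ⟨B, hB⟩ := (isCompact_Icc (a := (0 : ℝ)) (b := 1)).exists_bound_of_continuousOn
    hf.continuousOn
  have hφ : UniformContinuousOn (fun x : ℝ => x ^ p) (Set.Icc 0 B) :=
    isCompact_Icc.uniformContinuousOn_of_continuous
      (continuousOn_id.rpow_const fun x _ => Or.inr hp.le)
  have hfu : UniformContinuousOn f (Set.Icc 0 1) :=
    isCompact_Icc.uniformContinuousOn_of_continuous hf.continuousOn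
  rw [Metric.uniformContinuousOn_iff] at hφ hfu
  obtain ⟨δ, hδ, h1⟩ := hφ ε hε
  obtain ⟨η, hη, h2⟩ := hfu (δ / 2) (by positivity)
  obtain ⟨N, hN⟩ := exists_pow_lt_of_lt_one hη (by norm_num : (1 / 2 : ℝ) < 1)
  have hN' : 1 / (2 : ℝ) ^ N < η := by
    rw [one_div_pow] at hN; exact hN
  refine ⟨N, ?_⟩
  have h2N : (0 : ℝ) < 2 ^ N := by positivity
  have hsub : ∀ i : ℕ, i < 2 ^ N → ∀ t ∈ Set.Icc ((i : ℝ) / 2 ^ N) (((i : ℝ) + 1) / 2 ^ N),
      t ∈ Set.Icc (0 : ℝ) 1 := by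
    intro i hi t ht
    constructor
    · exact le_trans (by positivity) ht.1
    · refine ht.2.trans ?_
      rw [div_le_one h2N]
      exact_mod_cast hi
  have hlen : ∀ i : ℕ, ((i : ℝ) + 1) / 2 ^ N - (i : ℝ) / 2 ^ N = 1 / 2 ^ N := fun i => by ring
  have hle : ∀ i : ℕ, (i : ℝ) / 2 ^ N ≤ ((i : ℝ) + 1) / 2 ^ N := fun i =>
    div_le_div_of_nonneg_right (by linarith) h2N.le
  have havg : ∀ i : ℕ, i < 2 ^ N → ∀ t ∈ Set.Icc ((i : ℝ) / 2 ^ N) (((i : ℝ) + 1) / 2 ^ N),
      ‖f t - 2 ^ N * JJ f N i‖ ≤ δ / 2 := by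
    intro i hi t ht
    have e : f t - 2 ^ N * JJ f N i =
        2 ^ N * ∫ s in ((i : ℝ) / 2 ^ N)..(((i : ℝ) + 1) / 2 ^ N), (f t - f s) := by
      rw [intervalIntegral.integral_sub (continuous_const.intervalIntegrable _ _)
        (hf.intervalIntegrable _ _), intervalIntegral.integral_const, hlen]
      unfold JJ
      rw [mul_sub, Complex.real_smul]
      push_cast
      have : (2 : ℂ) ^ N ≠ 0 := pow_ne_zero _ two_ne_zero
      field_simp
    rw [e, norm_mul, norm_pow, Complex.norm_two]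
    have h3 : ‖∫ s in ((i : ℝ) / 2 ^ N)..(((i : ℝ) + 1) / 2 ^ N), (f t - f s)‖ ≤
        δ / 2 * |((i : ℝ) + 1) / 2 ^ N - (i : ℝ) / 2 ^ N| := by
      refine intervalIntegral.norm_integral_le_of_norm_le_const fun s hs => ?_
      rw [Set.uIoc_of_le (hle i)] at hs
      have hs' : s ∈ Set.Icc ((i : ℝ) / 2 ^ N) (((i : ℝ) + 1) / 2 ^ N) := ⟨hs.1.le, hs.2⟩
      have h4 := h2 t (hsub i hi t ht) s (hsub i hi s hs') (by
        rw [Real.dist_eq, abs_lt]
        have := hlen i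
        constructor <;> linarith [ht.1, ht.2, hs.1, hs.2])
      rw [dist_eq_norm] at h4
      exact h4.le
    rw [hlen, abs_of_nonneg (by positivity)] at h3
    calc 2 ^ N * ‖∫ s in ((i : ℝ) / 2 ^ N)..(((i : ℝ) + 1) / 2 ^ N), (f t - f s)‖
        ≤ 2 ^ N * (δ / 2 * (1 / 2 ^ N)) := mul_le_mul_of_nonneg_left h3 h2N.le
      _ = δ / 2 := by field_simp
  have hJB : ∀ i : ℕ, i < 2 ^ N → ‖2 ^ N * JJ f N i‖ ≤ B := by
    intro i hi
    rw [norm_mul, norm_pow, Complex.norm_two]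
    have h3 : ‖JJ f N i‖ ≤ B * |((i : ℝ) + 1) / 2 ^ N - (i : ℝ) / 2 ^ N| := by
      unfold JJ
      refine intervalIntegral.norm_integral_le_of_norm_le_const fun s hs => ?_
      rw [Set.uIoc_of_le (hle i)] at hs
      exact hB s (hsub i hi s ⟨hs.1.le, hs.2⟩)
    rw [hlen, abs_of_nonneg (by positivity)] at h3
    calc 2 ^ N * ‖JJ f N i‖ ≤ 2 ^ N * (B * (1 / 2 ^ N)) := mul_le_mul_of_nonneg_left h3 h2N.le
      _ = B := by field_simp
  have hcont : Continuous fun t => ‖f t‖ ^ p := hf.norm.rpow_const fun t => Or.inr hp.le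
  have hsum : ∫ t in (0 : ℝ)..1, ‖f t‖ ^ p = ∑ i ∈ range (2 ^ N),
      ∫ t in ((i : ℝ) / 2 ^ N)..(((i : ℝ) + 1) / 2 ^ N), ‖f t‖ ^ p := by
    have := intervalIntegral.sum_integral_adjacent_intervals (μ := volume) (f := fun t => ‖f t‖ ^ p)
      (a := fun i : ℕ => (i : ℝ) / 2 ^ N) (n := 2 ^ N) fun k _ => hcont.intervalIntegrable _ _
    simp only [Nat.cast_add, Nat.cast_one] at this
    rw [this]
    congr 1
    · simp
    · push_cast
      field_simp
  rw [hsum, Finset.sum_div]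
  have hε' : ε = ∑ i ∈ range (2 ^ N), ε / 2 ^ N := by
    rw [Finset.sum_const, card_range, nsmul_eq_mul]
    push_cast
    field_simp
  rw [hε', ← Finset.sum_add_distrib]
  refine Finset.sum_le_sum fun i hi => ?_
  rw [Finset.mem_range] at hi
  have h5 : ∫ t in ((i : ℝ) / 2 ^ N)..(((i : ℝ) + 1) / 2 ^ N), ‖f t‖ ^ p ≤
      ∫ t in ((i : ℝ) / 2 ^ N)..(((i : ℝ) + 1) / 2 ^ N), (‖2 ^ N * JJ f N i‖ ^ p + ε) := by
    refine intervalIntegral.integral_mono_on (hle i) (hcont.intervalIntegrable _ _)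
      (continuous_const.intervalIntegrable _ _) fun t ht => ?_
    have h6 := h1 ‖f t‖ ⟨norm_nonneg _, hB t (hsub i hi t ht)⟩ ‖2 ^ N * JJ f N i‖
      ⟨norm_nonneg _, hJB i hi⟩ (by
        rw [Real.dist_eq]
        have := (abs_norm_sub_norm_le (f t) (2 ^ N * JJ f N i)).trans (havg i hi t ht)
        linarith)
    rw [Real.dist_eq, abs_lt] at h6
    linarith [h6.2]
  rw [intervalIntegral.integral_const, hlen, smul_eq_mul] at h5
  refine h5.trans (le_of_eq ?_)
  ring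

theorem spos_of (h : SPair) : SPos := by
  intro p hp
  set r := p / (p - 1) with hr
  have hp1 : 0 < p - 1 := by linarith
  have hr1 : 1 < r := by rw [hr, one_lt_div hp1]; linarith
  have hr2 : r < 2 := by rw [hr, div_lt_iff₀ hp1]; linarith
  have hrp : r / (r - 1) = p := by
    rw [hr]
    have e1 : p / (p - 1) - 1 = 1 / (p - 1) := by field_simp; ring
    rw [e1]
    field_simp
  have hr0 : 0 < r := by linarith
  have hp0 : 0 < p := by linarith
  obtain ⟨C, hC, g⟩ := h r hr1 hr2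
  rw [hrp] at g
  refine ⟨C ^ p, by positivity, ?_⟩
  intro c
  set f : ℝ → ℂ := fun t => poly c (vs (pt 0 0 t)) with hf
  have hfc : Continuous f := (continuous_poly c).comp continuous_vs_pt
  set I := ∫ z, ‖poly c (zz z)‖ ^ p ∂tor with hI
  have hI0 : 0 ≤ I := integral_nonneg fun z => Real.rpow_nonneg (norm_nonneg _) _
  have hbound : ∀ N : ℕ, (∑ i ∈ range (2 ^ N), ‖2 ^ N * JJ f N i‖ ^ p) / 2 ^ N ≤ C ^ p * I := by
    intro N
    set a : ℕ → ℂ := fun i => 2 ^ N * JJ f N i with ha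
    set S := (∑ i ∈ range (2 ^ N), ‖a i‖ ^ p) / 2 ^ N with hS
    have hS0 : 0 ≤ S := div_nonneg (Finset.sum_nonneg fun i _ => by positivity) (by positivity)
    have h2N : (2 : ℂ) ^ N ≠ 0 := pow_ne_zero _ two_ne_zero
    have hg := g c N fun i => conj (a i) * ((‖a i‖ ^ (p - 2) : ℝ) : ℂ)
    have e1 : ∑ i ∈ range (2 ^ N), (conj (a i) * ((‖a i‖ ^ (p - 2) : ℝ) : ℂ)) *
        ∫ t in ((i : ℝ) / 2 ^ N)..(((i : ℝ) + 1) / 2 ^ N), poly c (vs (pt 0 0 t)) = (S : ℂ) := by
      rw [hS]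
      push_cast
      rw [Finset.sum_div]
      refine Finset.sum_congr rfl fun i _ => ?_
      have e2 : ∫ t in ((i : ℝ) / 2 ^ N)..(((i : ℝ) + 1) / 2 ^ N), poly c (vs (pt 0 0 t)) =
          a i / 2 ^ N := by
        simp only [ha]
        rw [mul_div_cancel_left₀ _ h2N]
        rfl
      rw [e2]
      have e3 : conj (a i) * a i = ((‖a i‖ ^ 2 : ℝ) : ℂ) := by
        rw [mul_comm, Complex.mul_conj, Complex.normSq_eq_norm_sq]
      have e4 : ‖a i‖ ^ 2 * ‖a i‖ ^ (p - 2) = ‖a i‖ ^ p := by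
        rcases (norm_nonneg (a i)).eq_or_lt with h0 | h0
        · rw [← h0, Real.zero_rpow hp0.ne']; simp
        · rw [← Real.rpow_natCast, ← Real.rpow_add h0]; congr 1; push_cast; ring
      calc conj (a i) * ((‖a i‖ ^ (p - 2) : ℝ) : ℂ) * (a i / 2 ^ N) =
            (conj (a i) * a i) * ((‖a i‖ ^ (p - 2) : ℝ) : ℂ) / 2 ^ N := by ring
        _ = ((‖a i‖ ^ 2 * ‖a i‖ ^ (p - 2) : ℝ) : ℂ) / 2 ^ N := by rw [e3]; push_cast; ring
        _ = _ := by rw [e4]
    have e5 : (∑ i ∈ range (2 ^ N), ‖conj (a i) * ((‖a i‖ ^ (p - 2) : ℝ) : ℂ)‖ ^ r) / 2 ^ N = S := by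
      rw [hS]
      congr 1
      refine Finset.sum_congr rfl fun i _ => ?_
      rw [norm_mul, RCLike.norm_conj, Complex.norm_real,
        Real.norm_of_nonneg (Real.rpow_nonneg (norm_nonneg _) _)]
      rcases (norm_nonneg (a i)).eq_or_lt with h0 | h0
      · rw [← h0, zero_mul, Real.zero_rpow hr0.ne', Real.zero_rpow hp0.ne']
      · have e6 : ‖a i‖ * ‖a i‖ ^ (p - 2) = ‖a i‖ ^ (p - 1) := by
          nth_rewrite 1 [← Real.rpow_one ‖a i‖]
          rw [← Real.rpow_add h0]; congr 1; ring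
        rw [e6, ← Real.rpow_mul h0.le]
        congr 1
        rw [hr]
        field_simp
    rw [e1, e5, Complex.norm_real, Real.norm_of_nonneg hS0] at hg
    rcases hS0.eq_or_lt with h0 | h0
    · rw [← h0]; positivity
    · have e7 : S = S ^ (1 / p) * S ^ (1 / r) := by
        rw [← Real.rpow_add h0]
        have : 1 / p + 1 / r = 1 := by rw [hr]; field_simp; ring
        rw [this, Real.rpow_one]
      have h8 : S ^ (1 / p) ≤ C * nrmP p c := by
        have h9 : 0 < S ^ (1 / r) := by positivity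
        have : S ^ (1 / p) * S ^ (1 / r) ≤ C * nrmP p c * S ^ (1 / r) := by
          rw [← e7]; exact hg
        exact le_of_mul_le_mul_right this h9
      calc S = (S ^ (1 / p)) ^ p := by
            rw [← Real.rpow_mul hS0, one_div_mul_cancel hp0.ne', Real.rpow_one]
        _ ≤ (C * nrmP p c) ^ p := Real.rpow_le_rpow (by positivity) h8 hp0.le
        _ = C ^ p * I := by
            rw [Real.mul_rpow hC.le (nrmP_nonneg p c)]
            congr 1
            unfold nrmP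
            rw [← Real.rpow_mul hI0, one_div_mul_cancel hp0.ne', Real.rpow_one]
  refine le_of_forall_pos_le_add fun ε hε => ?_
  obtain ⟨N, hN⟩ := dyadic_approx f hfc p hp0 ε hε
  exact hN.trans (by linarith [hbound N])

end Pool.Agent.W278.EM
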